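import Pool.Agent.TS42.Base

/-!
# TS42/HeadGeom: windows of small travel

`c` is any computation, `travel c t` the distance travelled before time `t`.  The window `s` of width
`ell` consists of the times `t < T` with `travel c t / ell = s`.

* `travel_mono`, `cdist_le_travel`: triangle inequality:
  `cdist ((c t').2 a) ((c t).2 a) ≤ travel c t' - travel c t` for `t ≤ t'`.
* `exists_tau`: `τ s = #{t < T : travel c t < s ell}`; since `travel c` is monotone the set is an initial
  segment of `range T`, so for `t < T`: `t < τ s ↔ travel c t < s ell`.  `τ 0 = 0`, `τ W = T` if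
  `travel c T < W ell`.
* `window_card`.  `q = n / 4`.  The block `A i` (`i < b`) consists of the cells `n/2 + q + x`,
  `i ell ≤ x < (i+1) ell`, the block `B j` of the cells `n/2 - 2q + x`, `j ell ≤ x < (j+1) ell` (`b ell ≤ q`).  So all
  `2 b` blocks are intervals of length `ell` with starting points `n/2 + q + i ell`, `n/2 - 2 q + j ell`,
  pairwise at distance `≥ ell`.  In one window any two positions of the same pointer differ by less than `ell`.
  If it visited three different blocks, with starting points `s1 < s2 < s3`, `s3 ≥ s1 + 2 ell`, a position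
  in the first block would be `< s1 + ell` and one in the third `≥ s1 + 2 ell`: difference `> ell`,
  contradiction.  So each pointer visits at most two blocks (A and B together), and the union over the
  `H` pointers gives `2 H`.
* `card_blk`: the block has exactly `ell` elements.
-/

namespace Pool.Agent.TS42

open Finset

theorem div_mem {x ell i : ℕ} (hl : 0 < ell) (h : x / ell = i) : i * ell ≤ x ∧ x < (i + 1) * ell := by
  constructor
  · rw [← h]; exact Nat.div_mul_le_self x ell
  · rw [← h]
    have := Nat.lt_div_mul_add (a := x) hl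
    rw [Nat.add_mul, one_mul]; exact this

theorem div_of_mem {x ell i : ℕ} (hl : 0 < ell) (h1 : i * ell ≤ x) (h2 : x < (i + 1) * ell) :
    x / ell = i := by
  apply le_antisymm
  · exact Nat.lt_succ_iff.mp ((Nat.div_lt_iff_lt_mul hl).mpr h2)
  · exact (Nat.le_div_iff_mul_le hl).mpr h1

theorem card_blk (q ell i b : ℕ) (hl : 0 < ell) (hb : b * ell ≤ q) (hi : i < b) :
    (blk q ell i).card = ell := by
  have h1 : (i + 1) * ell ≤ q := le_trans (Nat.mul_le_mul_right _ hi) hb
  have h2 : (blk q ell i).map ⟨Fin.val, Fin.val_injective⟩ = Finset.Ico (i * ell) ((i + 1) * ell) := by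
    ext y
    simp only [mem_map, Function.Embedding.coeFn_mk, mem_Ico]
    constructor
    · rintro ⟨x, hx, rfl⟩
      have hx' : (x : ℕ) / ell = i := by simpa [blk] using hx
      exact div_mem hl hx'
    · rintro ⟨hy1, hy2⟩
      refine ⟨⟨y, lt_of_lt_of_le hy2 h1⟩, ?_, rfl⟩
      simp only [blk, mem_filter, mem_univ, true_and]
      exact div_of_mem hl hy1 hy2
  have h3 := congrArg Finset.card h2
  rw [Finset.card_map, Nat.card_Ico] at h3
  rw [h3, Nat.add_mul, one_mul]; omega

theorem travel_succ {n H : ℕ} {Q : Type} (c : ℕ → Conf n H Q) (T : ℕ) :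
    travel c (T + 1) = travel c T + ∑ a : Fin H, cdist ((c (T + 1)).2 a) ((c T).2 a) := by
  unfold travel
  rw [Finset.sum_range_succ]

theorem travel_mono {n H : ℕ} {Q : Type} (c : ℕ → Conf n H Q) : Monotone (travel c) := by
  apply monotone_nat_of_le_succ
  intro T
  rw [travel_succ]
  exact Nat.le_add_right _ _

theorem cdist_tri {n : ℕ} (i j k : Fin n) : cdist i k ≤ cdist i j + cdist j k := by
  unfold cdist
  omega

theorem cdist_comm {n : ℕ} (i j : Fin n) : cdist i j = cdist j i := by
  unfold cdist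
  omega

theorem cdist_le_travel {n H : ℕ} {Q : Type} (c : ℕ → Conf n H Q) (a : Fin H) (t t' : ℕ) (h : t ≤ t') :
    cdist ((c t').2 a) ((c t).2 a) + travel c t ≤ travel c t' := by
  induction t', h using Nat.le_induction with
  | base => simp [cdist]
  | succ m hm ih =>
    rw [travel_succ]
    have h1 := cdist_tri ((c (m + 1)).2 a) ((c m).2 a) ((c t).2 a)
    have h2 : cdist ((c (m + 1)).2 a) ((c m).2 a)
        ≤ ∑ a : Fin H, cdist ((c (m + 1)).2 a) ((c m).2 a) :=
      Finset.single_le_sum (f := fun a => cdist ((c (m + 1)).2 a) ((c m).2 a))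
        (fun _ _ => Nat.zero_le _) (Finset.mem_univ a)
    omega

theorem exists_tau {n H : ℕ} {Q : Type} (c : ℕ → Conf n H Q) (T W ell : ℕ) (hl : 0 < ell)
    (hW : travel c T < W * ell) :
    ∃ τ : ℕ → ℕ, τ 0 = 0 ∧ τ W = T ∧ Monotone τ ∧
      ∀ s t, τ s ≤ t → t < τ (s + 1) → t < T ∧ travel c t / ell = s := by
  classical
  have hex : ∀ s, ∃ t, T ≤ t ∨ s * ell ≤ travel c t := fun s => ⟨T, Or.inl le_rfl⟩
  refine ⟨fun s => Nat.find (hex s), ?_, ?_, ?_, ?_⟩
  · rw [Nat.find_eq_zero]
    right; simp
  · rw [Nat.find_eq_iff]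
    refine ⟨Or.inl le_rfl, ?_⟩
    intro t ht hcon
    rcases hcon with h1 | h1
    · omega
    · have := travel_mono c ht.le
      omega
  · intro s s' hs
    apply Nat.find_mono
    intro t ht
    rcases ht with h1 | h1
    · left; exact h1
    · right
      exact le_trans (Nat.mul_le_mul_right _ hs) h1
  · intro s t h1 h2
    have h3 := Nat.find_min (hex (s + 1)) h2
    push Not at h3
    refine ⟨h3.1, div_of_mem hl ?_ h3.2⟩
    have h4 := Nat.find_spec (hex s)
    rcases h4 with h4 | h4
    · have h1' : Nat.find (hex s) ≤ t := h1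
      have := h3.1
      omega
    · exact le_trans h4 (travel_mono c h1)

theorem window_near {n H : ℕ} {Q : Type} (ell : ℕ) (hl : 0 < ell) (c : ℕ → Conf n H Q) (s t t' : ℕ)
    (h : travel c t / ell = s) (h' : travel c t' / ell = s) (a : Fin H) :
    cdist ((c t').2 a) ((c t).2 a) < ell := by
  have h1 := div_mem hl h
  have h2 := div_mem hl h'
  rw [Nat.add_mul, one_mul] at h1 h2
  rcases le_total t t' with h3 | h3
  · have := cdist_le_travel c a t t' h3
    omega
  · have := cdist_le_travel c a t' t h3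
    rw [cdist_comm] at this
    omega

/-- a set of indices any two of which differ by at most one -/
theorem card_le_two_of_near {b : ℕ} (S : Finset (Fin b))
    (h : ∀ i ∈ S, ∀ j ∈ S, (j : ℕ) ≤ i + 1) : S.card ≤ 2 := by
  by_contra hcon
  push Not at hcon
  obtain ⟨x, hx, y, hy, z, hz, h1, h2, h3⟩ := Finset.two_lt_card.mp hcon
  have a1 := h x hx y hy
  have a2 := h x hx z hz
  have a3 := h y hy x hx
  have a4 := h y hy z hz
  have a5 := h z hz x hx
  have a6 := h z hz y hy
  have b1 : (x : ℕ) ≠ y := fun e => h1 (Fin.ext e)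
  have b2 : (x : ℕ) ≠ z := fun e => h2 (Fin.ext e)
  have b3 : (y : ℕ) ≠ z := fun e => h3 (Fin.ext e)
  omega

open Classical in
theorem window_card {n H : ℕ} {Q : Type} (b ell T : ℕ) (hl : 0 < ell) (hb : b * ell ≤ n / 4)
    (c : ℕ → Conf n H Q) (s : ℕ) :
    (univ.filter (fun i : Fin b => ∃ t < T, travel c t / ell = s ∧
        ∃ a, (c t).2 a ∈ (blk (n / 4) ell i).image (pA n))).card
      + (univ.filter (fun j : Fin b => ∃ t < T, travel c t / ell = s ∧
        ∃ a, (c t).2 a ∈ (blk (n / 4) ell j).image (pB n))).card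
      ≤ 2 * H := by
  set SA : Fin H → Finset (Fin b) := fun a => univ.filter (fun i : Fin b => ∃ t < T, travel c t / ell = s ∧
    (c t).2 a ∈ (blk (n / 4) ell i).image (pA n)) with hSA
  set SB : Fin H → Finset (Fin b) := fun a => univ.filter (fun i : Fin b => ∃ t < T, travel c t / ell = s ∧
    (c t).2 a ∈ (blk (n / 4) ell i).image (pB n)) with hSB
  have hA : ∀ a i, i ∈ SA a → ∃ t, travel c t / ell = s ∧ ∃ x : ℕ, (((c t).2 a : Fin n) : ℕ) = n / 2 + n / 4 + x
      ∧ (i : ℕ) * ell ≤ x ∧ x < ((i : ℕ) + 1) * ell ∧ x < n / 4 := by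
    intro a i hi
    rw [hSA] at hi
    simp only [mem_filter, mem_univ, true_and, mem_image] at hi
    obtain ⟨t, _, ht2, x, hx, hx2⟩ := hi
    have hx' : (x : ℕ) / ell = i := by simpa [blk] using hx
    refine ⟨t, ht2, x, ?_, (div_mem hl hx').1, (div_mem hl hx').2, x.2⟩
    rw [← hx2]; rfl
  have hB : ∀ a i, i ∈ SB a → ∃ t, travel c t / ell = s ∧ ∃ x : ℕ, (((c t).2 a : Fin n) : ℕ) = n / 2 - 2 * (n / 4) + x
      ∧ (i : ℕ) * ell ≤ x ∧ x < ((i : ℕ) + 1) * ell ∧ x < n / 4 := by
    intro a i hi
    rw [hSB] at hi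
    simp only [mem_filter, mem_univ, true_and, mem_image] at hi
    obtain ⟨t, _, ht2, x, hx, hx2⟩ := hi
    have hx' : (x : ℕ) / ell = i := by simpa [blk] using hx
    refine ⟨t, ht2, x, ?_, (div_mem hl hx').1, (div_mem hl hx').2, x.2⟩
    rw [← hx2]; rfl
  have key : ∀ a, (SA a).card + (SB a).card ≤ 2 := by
    intro a
    have nearA : ∀ i ∈ SA a, ∀ j ∈ SA a, (j : ℕ) ≤ i + 1 := by
      intro i hi j hj
      obtain ⟨t, ht, x, hx, hx1, hx2, _⟩ := hA a i hi
      obtain ⟨t', ht', x', hx', hx1', hx2', _⟩ := hA a j hj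
      have := window_near ell hl c s t t' ht ht' a
      unfold cdist at this
      have hlt : (j : ℕ) * ell < ((i : ℕ) + 1 + 1) * ell := by
        rw [Nat.add_mul ((i : ℕ) + 1), one_mul]
        omega
      have := Nat.lt_of_mul_lt_mul_right hlt
      omega
    have nearB : ∀ i ∈ SB a, ∀ j ∈ SB a, (j : ℕ) ≤ i + 1 := by
      intro i hi j hj
      obtain ⟨t, ht, x, hx, hx1, hx2, _⟩ := hB a i hi
      obtain ⟨t', ht', x', hx', hx1', hx2', _⟩ := hB a j hj
      have := window_near ell hl c s t t' ht ht' a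
      unfold cdist at this
      have hlt : (j : ℕ) * ell < ((i : ℕ) + 1 + 1) * ell := by
        rw [Nat.add_mul ((i : ℕ) + 1), one_mul]
        omega
      have := Nat.lt_of_mul_lt_mul_right hlt
      omega
    have cA := card_le_two_of_near _ nearA
    have cB := card_le_two_of_near _ nearB
    rcases (SA a).eq_empty_or_nonempty with h1 | ⟨i, hi⟩
    · rw [h1, card_empty]; omega
    rcases (SB a).eq_empty_or_nonempty with h2 | ⟨j, hj⟩
    · rw [h2, card_empty]; omega
    exfalso
    obtain ⟨t, ht, x, hx, hx1, hx2, hx3⟩ := hA a i hi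
    obtain ⟨t', ht', x', hx', hx1', hx2', hx3'⟩ := hB a j hj
    have h5 := window_near ell hl c s t t' ht ht' a
    unfold cdist at h5
    have h6 : ell ≤ b * ell := Nat.le_mul_of_pos_left _ (lt_of_le_of_lt (Nat.zero_le _) i.2)
    omega
  have eA : (univ.filter (fun i : Fin b => ∃ t < T, travel c t / ell = s ∧
        ∃ a, (c t).2 a ∈ (blk (n / 4) ell i).image (pA n))) ⊆ univ.biUnion SA := by
    intro i hi
    simp only [mem_filter, mem_univ, true_and] at hi
    obtain ⟨t, ht, ht2, a, ha⟩ := hi
    simp only [mem_biUnion, mem_univ, true_and]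
    refine ⟨a, ?_⟩
    rw [hSA]
    simp only [mem_filter, mem_univ, true_and]
    exact ⟨t, ht, ht2, ha⟩
  have eB : (univ.filter (fun i : Fin b => ∃ t < T, travel c t / ell = s ∧
        ∃ a, (c t).2 a ∈ (blk (n / 4) ell i).image (pB n))) ⊆ univ.biUnion SB := by
    intro i hi
    simp only [mem_filter, mem_univ, true_and] at hi
    obtain ⟨t, ht, ht2, a, ha⟩ := hi
    simp only [mem_biUnion, mem_univ, true_and]
    refine ⟨a, ?_⟩
    rw [hSB]
    simp only [mem_filter, mem_univ, true_and]
    exact ⟨t, ht, ht2, ha⟩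
  calc _ ≤ (univ.biUnion SA).card + (univ.biUnion SB).card :=
        Nat.add_le_add (card_le_card eA) (card_le_card eB)
    _ ≤ (∑ a, (SA a).card) + (∑ a, (SB a).card) := Nat.add_le_add card_biUnion_le card_biUnion_le
    _ = ∑ a, ((SA a).card + (SB a).card) := by rw [Finset.sum_add_distrib]
    _ ≤ ∑ _a : Fin H, 2 := Finset.sum_le_sum (fun a _ => key a)
    _ = 2 * H := by simp [mul_comm]

end Pool.Agent.TS42
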