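import Pool.Agent.TS42.Base

/-!
# TS42/Seg: pieces of computations

* `Seg.congr`: if `x = x'` outside `B` and no pointer is on a cell of `B`, the machine sees the same numbers:
  `Relation.ReflTransGen.mono`.
* `Seg.of_path`: a piece of a global computation (induction on `t₁`).
* `accepts_of_segs`: `Seg.mono` to `B = ∅`, `ReflTransGen.trans` over `s < r`, then a computation
  `c : ℕ → Conf` from `ReflTransGen` (`Relation.ReflTransGen` induction: every `ReflTransGen r a b` has
  `T` and `c` with `c 0 = a`, `c T = b` and `r (c t) (c (t+1))` for `t < T`).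
-/

namespace Pool.Agent.TS42

open Finset

theorem NMachine.Seg.congr {n H : ℕ} {Q : Type} {M : NMachine n H Q} {x x' : Fin n → ℤ}
    {B : Finset (Fin n)} {a b : Conf n H Q} (h : M.Seg x B a b) (hx : ∀ i, i ∉ B → x i = x' i) :
    M.Seg x' B a b := by
  unfold NMachine.Seg at h ⊢
  refine Relation.ReflTransGen.mono ?_ _ _ h
  rintro k k' ⟨h1, h2⟩
  refine ⟨?_, h2⟩
  unfold NMachine.Step at h1 ⊢
  have : (fun a => x' (k.2 a)) = fun a => x (k.2 a) := by
    funext a
    exact (hx _ (h2 a)).symm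
  rw [this]
  exact h1

theorem NMachine.Seg.mono {n H : ℕ} {Q : Type} {M : NMachine n H Q} {x : Fin n → ℤ}
    {B B' : Finset (Fin n)} {a b : Conf n H Q} (h : M.Seg x B a b) (hB : B' ⊆ B) :
    M.Seg x B' a b := by
  unfold NMachine.Seg at h ⊢
  refine Relation.ReflTransGen.mono ?_ _ _ h
  rintro k k' ⟨h1, h2⟩
  exact ⟨h1, fun a ha => h2 a (hB ha)⟩

theorem NMachine.Seg.of_path {n H : ℕ} {Q : Type} (M : NMachine n H Q) (x : Fin n → ℤ)
    (B : Finset (Fin n)) (t₀ t₁ : ℕ) (h01 : t₀ ≤ t₁) (c : ℕ → Conf n H Q)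
    (hc : ∀ t, t₀ ≤ t → t < t₁ → M.Step x (c t) (c (t + 1)) ∧ ∀ h, (c t).2 h ∉ B) :
    M.Seg x B (c t₀) (c t₁) := by
  induction t₁, h01 using Nat.le_induction with
  | base => exact Relation.ReflTransGen.refl
  | succ m hm ih =>
    have h1 := ih fun t ht ht' => hc t ht (Nat.lt_succ_of_lt ht')
    exact Relation.ReflTransGen.tail h1 (hc m hm (Nat.lt_succ_self m))

private theorem path_of_rtg {α : Type} {r : α → α → Prop} {a b : α}
    (h : Relation.ReflTransGen r a b) :
    ∃ T : ℕ, ∃ c : ℕ → α, c 0 = a ∧ c T = b ∧ ∀ t < T, r (c t) (c (t + 1)) := by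
  induction h with
  | refl => exact ⟨0, fun _ => a, rfl, rfl, fun t ht => absurd ht (Nat.not_lt_zero t)⟩
  | @tail b' d h1 h2 ih =>
    obtain ⟨T, c, h0, hT, hc⟩ := ih
    refine ⟨T + 1, fun t => if t ≤ T then c t else d, ?_, ?_, ?_⟩
    · simpa using h0
    · simp
    · intro t ht
      rcases Nat.lt_or_ge t T with h | h
      · have e1 : t ≤ T := h.le
        have e2 : t + 1 ≤ T := h
        simp only [e1, e2, if_true]
        exact hc t h
      · have e : t = T := by omega
        subst e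
        simp only [le_refl, if_true, Nat.not_succ_le_self, if_false]
        rw [hT]
        exact h2

theorem NMachine.accepts_of_segs {n H : ℕ} {Q : Type} (M : NMachine n H Q) (x : Fin n → ℤ) (r : ℕ)
    (σ : ℕ → Conf n H Q) (h0 : σ 0 = M.start) (hacc : M.acc (σ r)) (B : ℕ → Finset (Fin n))
    (h : ∀ s, s < r → M.Seg x (B s) (σ s) (σ (s + 1))) :
    M.Accepts x := by
  have h1 : ∀ s, s ≤ r → M.Seg x ∅ (σ 0) (σ s) := by
    intro s
    induction s with
    | zero => intro _; exact Relation.ReflTransGen.refl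
    | succ s ih =>
      intro hs
      exact Relation.ReflTransGen.trans (ih (by omega))
        ((h s (by omega)).mono (Finset.empty_subset _))
  obtain ⟨T, c, hc0, hcT, hc⟩ := path_of_rtg (h1 r le_rfl)
  refine ⟨T, c, ?_, ?_, ?_⟩
  · rw [hc0, h0]
  · intro t ht
    exact (hc t ht).1
  · rw [hcT]
    exact hacc

end Pool.Agent.TS42
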