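import Pool.Agent.TS42.HeadCore

/-!
# TS42/NumHead: travel of `H` pointers, final inequality

`κ = S + H lg n` (real, `lg = Real.logb 2`).  Assume `n^3 > 4000000 H^4 κ (D + n)^2`.  So
`n > 4000000 H^4 κ`, `X := sqrt (n / κ) > 2000 H^2`, and `D + n < n X / (2000 H^2)`.
`b = ⌊X / 60⌋ ≥ 33 H^2`, `b ≥ 0.97 X / 60`; `q = n / 4 ≥ n / 5`, `ell = q / b`, `W = b^2 / (2 H^2)`
(natural divisions), `z = 16 H W / b`.
* `2 H^2 W ≤ b^2`, `b ell ≤ q`, `16 H W < b (z + 1)`: natural division.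
* `W ≥ 0.99 b^2 / (2 H^2)` (as `b^2 / (2H^2) ≥ 544`), `ell ≥ q / b - 1`,
  `W ell ≥ 0.99 b (q - b) / (2 H^2) ≥ 0.99 * 0.97 * (X / 60) * 0.19 n / (2 H^2) ≥ n X / (700 H^2) > D`.
  (`b ≤ X ≤ sqrt n`, so `q - b ≥ 0.19 n`.)
* `ell ≥ q / b - 1 ≥ 12 n / X - 1 = 12 sqrt (n κ) - 1`, `tt n = sqrt (24 n lg n) ≤ 4.9 sqrt (n κ)`
  (`κ ≥ lg n`), so `ell / tt n ≥ 2`.
`head_core`: `2^ell ≤ 4 b^2 (1 + 2 W |K|^2)^z` with `K = Conf n H Q`, `|K| ≤ 2^S n^H = 2^κ`.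
`W ≤ b^2 / 2`, so `1 + 2 W |K|^2 ≤ 2 b^2 |K|^2`, `lg ≤ 1 + 2 lg b + 2 κ ≤ 1 + 3 κ ≤ 4 κ` (`b^2 ≤ n`).
`z ≤ 8 b / H ≤ 8 b`.  So `ell ≤ 2 + κ + 32 b κ ≤ 2 + κ + (32/60) sqrt (n κ)` (`b κ ≤ X κ / 60 = sqrt (n κ) / 60`),
`κ ≤ sqrt (n κ) / 2000`, so `ell ≤ 2 + 0.6 sqrt (n κ)`, contradiction with `ell ≥ 12 sqrt (n κ) - 1`,
`sqrt (n κ) ≥ 2000`.
-/

namespace Pool.Agent.TS42

open Finset

open Classical in
theorem head_bound {Q : Type} [Fintype Q] (n H S D : ℕ) (hn : 2 ≤ n) (hH : 1 ≤ H) (hS : 1 ≤ S)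
    (hQ : Fintype.card Q ≤ 2 ^ S) (M : NMachine n H Q)
    (hbig : 3 * (n ^ 2) ^ n ≤ 8 * (univ.filter (fun y : Fin n → Fin (n ^ 2) =>
      ∃ T c, M.Comp (val n y) T c ∧ travel c T ≤ D)).card)
    (hsound : ∀ y : Fin n → Fin (n ^ 2), M.Accepts (val n y) → ¬ Sol (val n y)) :
    (n : ℝ) ^ 3 ≤ 4000000 * (H : ℝ) ^ 4 * (S + H * Real.logb 2 n) * ((D : ℝ) + n) ^ 2 := by
  by_contra hcon
  rw [not_le] at hcon
  set κ : ℝ := (S : ℝ) + H * Real.logb 2 n with hκdef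
  have hnR : (2 : ℝ) ≤ n := by exact_mod_cast hn
  have hn0 : (0 : ℝ) < n := by linarith
  have hlg : 1 ≤ Real.logb 2 n := by
    rw [show (1 : ℝ) = Real.logb 2 2 from (Real.logb_self_eq_one (by norm_num)).symm]
    exact Real.logb_le_logb_of_le (by norm_num) (by norm_num) hnR
  have hHR : (1 : ℝ) ≤ H := by exact_mod_cast hH
  have hSR : (1 : ℝ) ≤ S := by exact_mod_cast hS
  have hHl : Real.logb 2 n ≤ H * Real.logb 2 n := le_mul_of_one_le_left (by linarith) hHR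
  have hκ2 : 2 ≤ κ := by rw [hκdef]; linarith
  have hκlg : Real.logb 2 n ≤ κ := by rw [hκdef]; linarith
  have hκ0 : 0 < κ := by linarith
  have hD0 : (0 : ℝ) ≤ D := Nat.cast_nonneg D
  have hH2 : (1 : ℝ) ≤ (H : ℝ) ^ 2 := one_le_pow₀ hHR
  have hH4 : (H : ℝ) ^ 4 = ((H : ℝ) ^ 2) ^ 2 := by ring
  set h2 : ℝ := (H : ℝ) ^ 2 with hh2
  rw [hH4] at hcon
  -- n > 4e6 h2^2 κ
  have hc0 : 0 < 4000000 * h2 ^ 2 * κ := by positivity
  have hn1 : 4000000 * h2 ^ 2 * κ < n := by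
    have h1 : 4000000 * h2 ^ 2 * κ * (n : ℝ) ^ 2 ≤ 4000000 * h2 ^ 2 * κ * ((D : ℝ) + n) ^ 2 := by
      apply mul_le_mul_of_nonneg_left _ hc0.le
      apply pow_le_pow_left₀ hn0.le
      linarith
    have h3 : 4000000 * h2 ^ 2 * κ * (n : ℝ) ^ 2 < (n : ℝ) * (n : ℝ) ^ 2 := by
      calc _ ≤ _ := h1
        _ < (n : ℝ) ^ 3 := hcon
        _ = (n : ℝ) * (n : ℝ) ^ 2 := by ring
    exact lt_of_mul_lt_mul_right h3 (by positivity)
  set X : ℝ := Real.sqrt (n / κ) with hX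
  have hX2 : X ^ 2 = n / κ := Real.sq_sqrt (by positivity)
  have hXn : X ^ 2 * κ = n := by rw [hX2]; field_simp
  have hX0 : 0 ≤ X := Real.sqrt_nonneg _
  have hXbig : 2000 * h2 < X := by
    have h1 : (2000 * h2) ^ 2 < X ^ 2 := by
      rw [hX2, lt_div_iff₀ hκ0]
      calc (2000 * h2) ^ 2 * κ = 4000000 * h2 ^ 2 * κ := by ring
        _ < (n : ℝ) := hn1
    exact lt_of_pow_lt_pow_left₀ 2 hX0 h1
  have hX2000 : 2000 < X := by linarith
  have hXpos : 0 < X := by linarith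
  -- D + n < n X / (2000 h2)
  have hDn : ((D : ℝ) + n) * (2000 * h2) < n * X := by
    have h1 : (((D : ℝ) + n) * (2000 * h2)) ^ 2 < (n * X) ^ 2 := by
      have h3 : (((D : ℝ) + n) * (2000 * h2)) ^ 2 * κ < (n * X) ^ 2 * κ := by
        have e1 : (((D : ℝ) + n) * (2000 * h2)) ^ 2 * κ = 4000000 * h2 ^ 2 * κ * ((D : ℝ) + n) ^ 2 := by ring
        have e2 : (n * X) ^ 2 * κ = (n : ℝ) ^ 3 := by
          calc (n * X) ^ 2 * κ = n ^ 2 * (X ^ 2 * κ) := by ring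
            _ = (n : ℝ) ^ 3 := by rw [hXn]; ring
        rw [e1, e2]; exact hcon
      exact lt_of_mul_lt_mul_right h3 hκ0.le
    exact lt_of_pow_lt_pow_left₀ 2 (by positivity) h1
  set Y : ℝ := κ * X with hY
  have hXY : X * Y = n := by
    rw [hY]
    calc X * (κ * X) = X ^ 2 * κ := by ring
      _ = (n : ℝ) := hXn
  have hYn : Y ^ 2 = κ * n := by
    calc Y ^ 2 = κ * (X ^ 2 * κ) := by rw [hY]; ring
      _ = κ * n := by rw [hXn]
  have hY2κ : 2000 * κ ≤ Y := by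
    rw [hY, mul_comm κ X]
    exact mul_le_mul_of_nonneg_right hX2000.le hκ0.le
  have hYX : 2 * X ≤ Y := by
    rw [hY]
    exact mul_le_mul_of_nonneg_right hκ2 hX0
  have hY4000 : 4000 < Y := by linarith
  -- b
  obtain ⟨b, hb⟩ : ∃ b : ℕ, b = ⌊X / 60⌋₊ := ⟨_, rfl⟩
  have hb1 : (b : ℝ) ≤ X / 60 := by rw [hb]; exact Nat.floor_le (by positivity)
  have hb2 : X / 60 < b + 1 := by rw [hb]; exact Nat.lt_floor_add_one _
  have hb3 : 0.97 * (X / 60) ≤ b := by linarith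
  have hb4 : 32 * h2 ≤ b := by linarith
  have hbpos : (0 : ℝ) < b := by linarith
  have hbN : 0 < b := by exact_mod_cast hbpos
  -- q
  obtain ⟨q, hq⟩ : ∃ q : ℕ, q = n / 4 := ⟨_, rfl⟩
  have hq1 : (n : ℝ) ≤ 4 * q + 3 := by
    have : n ≤ 4 * q + 3 := by omega
    exact_mod_cast this
  have hq2 : 4 * (q : ℝ) ≤ n := by
    have : 4 * q ≤ n := by omega
    exact_mod_cast this
  have hnbig : 8000000 ≤ (n : ℝ) := by
    have h1 : 1 ≤ h2 ^ 2 := one_le_pow₀ hH2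
    have h3 : (1 : ℝ) * 2 ≤ h2 ^ 2 * κ := mul_le_mul h1 hκ2 (by norm_num) (by positivity)
    linarith
  have hXle : X ≤ n / 4000 := by
    rw [le_div_iff₀ (by norm_num)]
    have h1 : X * 2000 ≤ X * X := mul_le_mul_of_nonneg_left hX2000.le hX0
    have h3 : X ^ 2 * 2 ≤ X ^ 2 * κ := mul_le_mul_of_nonneg_left hκ2 (by positivity)
    rw [hXn] at h3
    linarith [sq X]
  have hqb : 0.23 * (n : ℝ) ≤ q - b := by linarith
  -- ell, W, z
  obtain ⟨ell, hell⟩ : ∃ ell : ℕ, ell = q / b := ⟨_, rfl⟩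
  obtain ⟨W, hWdef⟩ : ∃ W : ℕ, W = b ^ 2 / (2 * H ^ 2) := ⟨_, rfl⟩
  obtain ⟨z, hz⟩ : ∃ z : ℕ, z = 16 * H * W / b := ⟨_, rfl⟩
  have hell1 : b * ell ≤ q := by rw [hell]; exact Nat.mul_div_le _ _
  have hell2 : q < b * (ell + 1) := by rw [hell]; exact Nat.lt_mul_div_succ _ hbN
  have hell2R : (q : ℝ) < b * (ell + 1) := by exact_mod_cast hell2
  have hH2N : 0 < 2 * H ^ 2 := by positivity
  have hW1 : 2 * H ^ 2 * W ≤ b ^ 2 := by rw [hWdef]; exact Nat.mul_div_le _ _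
  have hW2 : b ^ 2 < 2 * H ^ 2 * (W + 1) := by rw [hWdef]; exact Nat.lt_mul_div_succ _ hH2N
  have hW1R : 2 * h2 * W ≤ (b : ℝ) ^ 2 := by
    have : ((2 * H ^ 2 * W : ℕ) : ℝ) ≤ ((b ^ 2 : ℕ) : ℝ) := by exact_mod_cast hW1
    push_cast at this; rw [hh2]; exact this
  have hW2R : (b : ℝ) ^ 2 < 2 * h2 * (W + 1) := by
    have : ((b ^ 2 : ℕ) : ℝ) < ((2 * H ^ 2 * (W + 1) : ℕ) : ℝ) := by exact_mod_cast hW2
    push_cast at this; rw [hh2]; exact this
  have hz1 : b * z ≤ 16 * H * W := by rw [hz]; exact Nat.mul_div_le _ _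
  have hz2 : 16 * H * W < b * (z + 1) := by rw [hz]; exact Nat.lt_mul_div_succ _ hbN
  -- lower bound for W * ell
  have hWell : (n : ℝ) * X ≤ 2000 * h2 * (W * ell) := by
    have hb5 : h2 * 200 ≤ (b : ℝ) ^ 2 := by
      have h7 : (32 : ℝ) ≤ b := by linarith
      calc h2 * 200 ≤ (32 * h2) * 32 := by linarith
        _ ≤ b * b := mul_le_mul hb4 h7 (by norm_num) hbpos.le
        _ = (b : ℝ) ^ 2 := by ring
    have h1 : 0.99 * (b : ℝ) ^ 2 ≤ 2 * h2 * W := by linarith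
    have h3 : (q : ℝ) - b ≤ b * ell := by linarith
    have h4 : 0.99 * (b : ℝ) ^ 2 * ((q : ℝ) - b) ≤ 2 * h2 * W * (b * ell) := by
      apply mul_le_mul h1 h3 (by linarith [mul_pos (by norm_num : (0:ℝ) < 0.23) hn0]) (by positivity)
    have h5 : 0.99 * (b : ℝ) * ((q : ℝ) - b) ≤ 2 * h2 * W * ell := by
      have : (0.99 * (b : ℝ) * ((q : ℝ) - b)) * b ≤ (2 * h2 * W * ell) * b := by
        calc _ = 0.99 * (b : ℝ) ^ 2 * ((q : ℝ) - b) := by ring
          _ ≤ _ := h4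
          _ = _ := by ring
      exact le_of_mul_le_mul_right this hbpos
    have h6 : 0.99 * (0.97 * (X / 60)) * (0.23 * n) ≤ 0.99 * (b : ℝ) * ((q : ℝ) - b) := by
      apply mul_le_mul (by linarith) hqb (by positivity) (by positivity)
    have h8 : 0.003 * ((n : ℝ) * X) ≤ 0.99 * (0.97 * (X / 60)) * (0.23 * n) := by
      have : 0 ≤ (n : ℝ) * X := by positivity
      linarith
    have h9 : 0 ≤ (n : ℝ) * X := by positivity
    have h10 : 2000 * h2 * ((W : ℝ) * ell) = 1000 * (2 * h2 * W * ell) := by ring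
    linarith
  have hDW : D < W * ell := by
    have h1 : ((D : ℝ) + n) * (2000 * h2) < 2000 * h2 * (W * ell) := lt_of_lt_of_le hDn hWell
    have h3 : (D : ℝ) + n < W * ell := by
      have h2000 : 0 < 2000 * h2 := by positivity
      have : (2000 * h2) * ((D : ℝ) + n) < (2000 * h2) * (W * ell) := by linarith
      exact lt_of_mul_lt_mul_left this h2000.le
    have h4 : (D : ℝ) < W * ell := by linarith
    exact_mod_cast h4
  -- ell is large
  have hellY : 13.8 * Y ≤ ell := by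
    have h1 : (q : ℝ) - b ≤ b * ell := by linarith
    have h3 : (b : ℝ) * ell ≤ X / 60 * ell := mul_le_mul_of_nonneg_right hb1 (Nat.cast_nonneg _)
    have h4 : 0.23 * (X * Y) ≤ X / 60 * ell := by rw [hXY]; linarith
    have h5 : X * (13.8 * Y) ≤ X * ell := by linarith
    exact le_of_mul_le_mul_left h5 hXpos
  have hell0R : (0 : ℝ) < ell := by linarith
  have hell0 : 0 < ell := by exact_mod_cast hell0R
  have htt : tt n ≤ 4.9 * Y := by
    unfold tt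
    apply Real.sqrt_le_iff.2
    refine ⟨by linarith, ?_⟩
    calc 24 * (n : ℝ) * Real.logb 2 n ≤ 24 * n * κ := mul_le_mul_of_nonneg_left hκlg (by positivity)
      _ ≤ (4.9 * Y) ^ 2 := by
          rw [mul_pow, hYn]
          have := mul_pos hn0 hκ0
          linarith
  have htt0 : 0 < tt n := by
    unfold tt
    apply Real.sqrt_pos.2
    positivity
  have hratio : 2 ≤ (ell : ℝ) / tt n := by
    rw [le_div_iff₀ htt0]; linarith
  have hcore := head_core n H b ell D W z (by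
      have : (200 : ℝ) ≤ n := by linarith
      exact_mod_cast this) hell0 hbN (by rw [← hq]; exact hell1) hDW hW1 hz2 M hbig hsound
  have hlow : (2 : ℝ) ^ ell ≤ ((ell : ℝ) / tt n) ^ ell := pow_le_pow_left₀ (by norm_num) hratio ell
  -- upper bound
  set P : ℝ := (2 : ℝ) ^ κ with hP
  have hP1 : 1 ≤ P := Real.one_le_rpow (by norm_num) hκ0.le
  have hnlg : (n : ℝ) = (2 : ℝ) ^ Real.logb 2 n :=
    (Real.rpow_logb (by norm_num) (by norm_num) hn0).symm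
  have hKP : (Fintype.card (Conf n H Q) : ℝ) ≤ P := by
    have h1 : Fintype.card (Conf n H Q) = Fintype.card Q * n ^ H := by
      simp [Conf, Fintype.card_prod]
    rw [h1]
    push_cast
    have h3 : (Fintype.card Q : ℝ) ≤ (2 : ℝ) ^ (S : ℝ) := by
      rw [Real.rpow_natCast]; exact_mod_cast hQ
    have h4 : (n : ℝ) ^ H = (2 : ℝ) ^ (H * Real.logb 2 n) := by
      rw [mul_comm, Real.rpow_mul (by norm_num), ← hnlg, Real.rpow_natCast]
    rw [h4, hP, hκdef, Real.rpow_add (by norm_num)]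
    exact mul_le_mul_of_nonneg_right h3 (by positivity)
  have hnP : (n : ℝ) ≤ P := by
    rw [hP]; nth_rewrite 1 [hnlg]
    exact Real.rpow_le_rpow_of_exponent_le (by norm_num) hκlg
  have hbn : (b : ℝ) ^ 2 ≤ n := by
    have h1 : (b : ℝ) ^ 2 ≤ (X / 60) ^ 2 := pow_le_pow_left₀ hbpos.le hb1 2
    have h3 : X ^ 2 * 1 ≤ X ^ 2 * κ := mul_le_mul_of_nonneg_left (by linarith) (by positivity)
    rw [hXn] at h3
    have h4 : (X / 60) ^ 2 = X ^ 2 / 3600 := by ring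
    have h5 : 0 ≤ X ^ 2 := by positivity
    linarith
  have hWb : 2 * (W : ℝ) ≤ (b : ℝ) ^ 2 := by
    have h1 : (1 : ℝ) * W ≤ h2 * W := mul_le_mul_of_nonneg_right hH2 (Nat.cast_nonneg W)
    linarith
  have hb1' : (1 : ℝ) ≤ (b : ℝ) ^ 2 := by
    have : (1 : ℝ) ≤ b := by exact_mod_cast hbN
    exact one_le_pow₀ this
  have hinner : 1 + (W : ℝ) * (2 * (Fintype.card (Conf n H Q) : ℝ) ^ 2) ≤ P ^ 4 := by
    have h1 : (Fintype.card (Conf n H Q) : ℝ) ^ 2 ≤ P ^ 2 := pow_le_pow_left₀ (Nat.cast_nonneg _) hKP 2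
    have h3 : (W : ℝ) * (2 * (Fintype.card (Conf n H Q) : ℝ) ^ 2) ≤ (b : ℝ) ^ 2 * P ^ 2 := by
      calc (W : ℝ) * (2 * (Fintype.card (Conf n H Q) : ℝ) ^ 2)
          = 2 * (W : ℝ) * (Fintype.card (Conf n H Q) : ℝ) ^ 2 := by ring
        _ ≤ (b : ℝ) ^ 2 * P ^ 2 := mul_le_mul hWb h1 (by positivity) (by positivity)
    have h4 : (b : ℝ) ^ 2 * P ^ 2 ≤ P * P ^ 2 := mul_le_mul_of_nonneg_right (hbn.trans hnP) (by positivity)
    have h5 : (2 : ℝ) ≤ P := by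
      rw [hP]
      calc (2 : ℝ) = (2 : ℝ) ^ (1 : ℝ) := by simp
        _ ≤ (2 : ℝ) ^ κ := Real.rpow_le_rpow_of_exponent_le (by norm_num) (by linarith)
    have h6 : 1 ≤ P ^ 3 := one_le_pow₀ hP1
    calc 1 + (W : ℝ) * (2 * (Fintype.card (Conf n H Q) : ℝ) ^ 2) ≤ P ^ 3 + P ^ 3 := by
          have : P * P ^ 2 = P ^ 3 := by ring
          linarith
      _ = 2 * P ^ 3 := by ring
      _ ≤ P * P ^ 3 := mul_le_mul_of_nonneg_right h5 (by positivity)
      _ = P ^ 4 := by ring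
  have hup : (2 : ℝ) ^ ell ≤ 4 * (P * (P ^ 4) ^ z) := by
    calc (2 : ℝ) ^ ell ≤ _ := hlow
      _ ≤ _ := hcore
      _ ≤ 4 * (P * (P ^ 4) ^ z) := by
          apply mul_le_mul_of_nonneg_left _ (by norm_num)
          apply mul_le_mul (hbn.trans hnP) (pow_le_pow_left₀ (by positivity) hinner z) (by positivity)
            (by positivity)
  have hup2 : (2 : ℝ) ^ (ell : ℝ) ≤ (2 : ℝ) ^ (2 + κ + 4 * κ * z) := by
    rw [Real.rpow_natCast]
    refine hup.trans (le_of_eq ?_)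
    rw [Real.rpow_add (by norm_num), Real.rpow_add (by norm_num), ← hP,
      show (4 * κ * (z : ℝ)) = κ * ((4 * z : ℕ) : ℝ) by push_cast; ring,
      Real.rpow_mul (by norm_num), ← hP, Real.rpow_natCast, pow_mul]
    norm_num
    ring
  have hfin : (ell : ℝ) ≤ 2 + κ + 4 * κ * z :=
    (Real.rpow_le_rpow_left_iff (by norm_num)).1 hup2
  have hz1R : (b : ℝ) * z ≤ 16 * H * W := by exact_mod_cast hz1
  have hzb : (z : ℝ) ≤ 8 * b := by
    have h1 : 16 * (H : ℝ) * W ≤ 8 * (b : ℝ) ^ 2 := by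
      have h5 : (H : ℝ) ≤ h2 := by
        rw [hh2, sq]; exact le_mul_of_one_le_left (by linarith) hHR
      have h6 : (H : ℝ) * W ≤ h2 * W := mul_le_mul_of_nonneg_right h5 (Nat.cast_nonneg W)
      linarith
    have h3 : (b : ℝ) * z ≤ b * (8 * b) := by
      calc (b : ℝ) * z ≤ 16 * (H : ℝ) * W := hz1R
        _ ≤ 8 * (b : ℝ) ^ 2 := h1
        _ = b * (8 * b) := by ring
    exact le_of_mul_le_mul_left h3 hbpos
  have hκz : 4 * κ * z ≤ 0.54 * Y := by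
    have : κ * z ≤ κ * (8 * (X / 60)) := mul_le_mul_of_nonneg_left (by linarith) hκ0.le
    have h5 : 4 * κ * (z : ℝ) = 4 * (κ * z) := by ring
    have h6 : κ * (8 * (X / 60)) = 8 / 60 * Y := by rw [hY]; ring
    have hY0 : 0 ≤ Y := by linarith
    rw [h5]
    linarith
  linarith

end Pool.Agent.TS42
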