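import Pool.Agent.TS42.OneCore

/-!
# TS42/NumOne: travel of one pointer, final inequality

`q = n / 4 ≥ n / 5`, `κ = S + lg n` (`lg = Real.logb 2`), `W = D / (2 q) + 1` (natural division), `D < W (2 q)`.
`one_core` and `|Conf n 1 Q| = |Q| n ≤ 2^κ`: `q lg (q / tt n) ≤ 2 + W + (W + 1) κ ≤ 5 W κ`.
`lg (q / tt n) ≥ lg n - 2.33 - (lg 24 + lg n + lg lg n) / 2 ≥ lg n / 2 - lg lg n / 2 - 4.63 ≥ lg n / 4`
for `lg n ≥ 29` (`29/4 = 7.25`, `lg 29 / 2 + 4.63 ≤ 7.06`).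
So `q lg n ≤ 20 W κ`, `W ≤ (D + 2 q) / (2 q) ≤ (D + n) / (2 q)`, `q^2 lg n ≤ 10 κ (D + n)`, and `q ≥ n/5`.
-/

namespace Pool.Agent.TS42

open Finset

theorem one_aux_pow {y : ℝ} (hy : 29 ≤ y) : 600 * y ≤ (2 : ℝ) ^ (y / 2) := by
  have h1 : (2 : ℝ) ^ (y / 2) = (2 : ℝ) ^ ((29 : ℝ) / 2) * (2 : ℝ) ^ ((y - 29) / 2) := by
    rw [← Real.rpow_add (by norm_num)]
    congr 1
    ring
  have h2 : (23000 : ℝ) ≤ (2 : ℝ) ^ ((29 : ℝ) / 2) := by
    have h3 : ((2 : ℝ) ^ ((29 : ℝ) / 2)) ^ 2 = 2 ^ 29 := by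
      rw [← Real.rpow_natCast, ← Real.rpow_mul (by norm_num)]
      norm_num
    have h4 : (0 : ℝ) < (2 : ℝ) ^ ((29 : ℝ) / 2) := Real.rpow_pos_of_pos (by norm_num) _
    nlinarith
  have h5 : 1 + (y - 29) / 2 * (69 / 100) ≤ (2 : ℝ) ^ ((y - 29) / 2) := by
    rw [Real.rpow_def_of_pos (by norm_num)]
    have h6 := Real.add_one_le_exp (Real.log 2 * ((y - 29) / 2))
    have h7 := Real.log_two_gt_d9
    nlinarith
  rw [h1]
  have h8 : (0 : ℝ) ≤ (y - 29) / 2 * (69 / 100) := by linarith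
  nlinarith

theorem one_log {n : ℕ} (hn : 2 ^ 29 ≤ n) :
    Real.logb 2 n / 4 ≤ Real.logb 2 (((n / 4 : ℕ) : ℝ) / tt n) := by
  have hn0 : (0 : ℝ) < n := by
    have : 0 < n := by omega
    exact_mod_cast this
  set y : ℝ := Real.logb 2 n with hy
  have hny : (n : ℝ) = (2 : ℝ) ^ y := by
    rw [hy, Real.rpow_logb (by norm_num) (by norm_num) hn0]
  have hy29 : 29 ≤ y := by
    rw [hy, Real.le_logb_iff_rpow_le (by norm_num) hn0]
    have : ((2 : ℝ) ^ (29 : ℝ)) = ((2 ^ 29 : ℕ) : ℝ) := by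
      norm_num
    rw [this]
    exact_mod_cast hn
  have hq : (n : ℝ) / 5 ≤ ((n / 4 : ℕ) : ℝ) := by
    have : n ≤ 5 * (n / 4) := by omega
    have h' : (n : ℝ) ≤ 5 * ((n / 4 : ℕ) : ℝ) := by exact_mod_cast this
    linarith
  have htt : 0 < tt n := by
    unfold tt
    rw [← hy]
    positivity
  rw [Real.le_logb_iff_rpow_le (by norm_num) (div_pos (by linarith [div_pos hn0 (by norm_num : (0 : ℝ) < 5)]) htt),
    le_div_iff₀ htt]
  have hp : (0 : ℝ) < (2 : ℝ) ^ (y / 4) := Real.rpow_pos_of_pos (by norm_num) _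
  have hp2 : (0 : ℝ) < (2 : ℝ) ^ (y / 2) := Real.rpow_pos_of_pos (by norm_num) _
  have e1 : ((2 : ℝ) ^ (y / 4)) ^ 2 = (2 : ℝ) ^ (y / 2) := by
    rw [← Real.rpow_natCast, ← Real.rpow_mul (by norm_num)]
    congr 1
    push_cast
    ring
  have e2 : (n : ℝ) = (2 : ℝ) ^ (y / 2) * (2 : ℝ) ^ (y / 2) := by
    rw [← Real.rpow_add (by norm_num), hny]
    congr 1
    ring
  have e3 : (tt n) ^ 2 = 24 * n * y := by
    unfold tt
    rw [← hy, Real.sq_sqrt (by positivity)]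
  have haux := one_aux_pow hy29
  refine le_trans ?_ hq
  refine le_of_sq_le_sq ?_ (by positivity)
  rw [mul_pow, e1, e3, div_pow]
  have e4 : (2 : ℝ) ^ (y / 2) * (600 * y) ≤ n := by
    calc (2 : ℝ) ^ (y / 2) * (600 * y) ≤ (2 : ℝ) ^ (y / 2) * (2 : ℝ) ^ (y / 2) :=
          mul_le_mul_of_nonneg_left haux hp2.le
      _ = n := e2.symm
  have e5 : n * ((2 : ℝ) ^ (y / 2) * (600 * y)) ≤ n * n := mul_le_mul_of_nonneg_left e4 hn0.le
  nlinarith

open Classical in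
theorem one_bound {Q : Type} [Fintype Q] (n S D : ℕ) (hn : 2 ^ 29 ≤ n) (hS : 1 ≤ S)
    (hQ : Fintype.card Q ≤ 2 ^ S) (M : NMachine n 1 Q)
    (hbig : 3 * (n ^ 2) ^ n ≤ 8 * (univ.filter (fun y : Fin n → Fin (n ^ 2) =>
      ∃ T c, M.Comp (val n y) T c ∧ travel c T ≤ D)).card)
    (hsound : ∀ y : Fin n → Fin (n ^ 2), M.Accepts (val n y) → ¬ Sol (val n y)) :
    (n : ℝ) ^ 2 * Real.logb 2 n ≤ 250 * ((D : ℝ) + n) * (S + Real.logb 2 n) := by
  have hq0 : 0 < 2 * (n / 4) := by omega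
  set W : ℕ := D / (2 * (n / 4)) + 1 with hW
  have hDW : D < W * (2 * (n / 4)) := by
    rw [hW, add_mul, one_mul]
    exact Nat.lt_div_mul_add hq0
  have key := one_core n D W (by omega) hDW M hbig hsound
  have hn0 : (0 : ℝ) < n := by
    have : 0 < n := by omega
    exact_mod_cast this
  set y : ℝ := Real.logb 2 n with hy
  have hny : (n : ℝ) = (2 : ℝ) ^ y := by
    rw [hy, Real.rpow_logb (by norm_num) (by norm_num) hn0]
  have hy29 : 29 ≤ y := by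
    rw [hy, Real.le_logb_iff_rpow_le (by norm_num) hn0]
    have : ((2 : ℝ) ^ (29 : ℝ)) = ((2 ^ 29 : ℕ) : ℝ) := by
      norm_num
    rw [this]
    exact_mod_cast hn
  have hS1 : (1 : ℝ) ≤ S := by exact_mod_cast hS
  have hqn : n ≤ 5 * (n / 4) := by omega
  have hq : (n : ℝ) ≤ 5 * ((n / 4 : ℕ) : ℝ) := by exact_mod_cast hqn
  have hqpos : (0 : ℝ) < ((n / 4 : ℕ) : ℝ) := by linarith
  have hlog := one_log hn
  rw [← hy] at hlog
  have hQ0 : 0 < Fintype.card Q := Fintype.card_pos_iff.2 ⟨M.start.1⟩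
  have hcard : (Fintype.card (Conf n 1 Q) : ℝ) ≤ (2 : ℝ) ^ ((S : ℝ) + y) := by
    have e : Fintype.card (Conf n 1 Q) = Fintype.card Q * n := by
      simp [Conf]
    rw [e, Nat.cast_mul, Real.rpow_add (by norm_num), ← hny, Real.rpow_natCast]
    refine mul_le_mul_of_nonneg_right ?_ hn0.le
    exact_mod_cast hQ
  have hcard0 : (0 : ℝ) < (Fintype.card (Conf n 1 Q) : ℝ) := by
    have e : Fintype.card (Conf n 1 Q) = Fintype.card Q * n := by
      simp [Conf]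
    rw [e]
    have : 0 < Fintype.card Q * n := Nat.mul_pos hQ0 (by omega)
    exact_mod_cast this
  have hfr : 0 < ((n / 4 : ℕ) : ℝ) / tt n := by
    have htt : 0 < tt n := by
      unfold tt
      rw [← hy]
      positivity
    exact div_pos hqpos htt
  have hW1 : (1 : ℝ) ≤ W := by
    have : 1 ≤ W := by
      rw [hW]
      exact Nat.le_add_left 1 _
    exact_mod_cast this
  have hlog2 : ((n / 4 : ℕ) : ℝ) * Real.logb 2 (((n / 4 : ℕ) : ℝ) / tt n) ≤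
      2 + W + (W + 1) * ((S : ℝ) + y) := by
    have h1 := Real.logb_le_logb_of_le (b := 2) (by norm_num) (pow_pos hfr _) key
    rw [Real.logb_pow] at h1
    refine h1.trans ?_
    rw [Real.logb_mul (by norm_num) (by positivity), Real.logb_mul (by positivity) (by positivity),
      Real.logb_pow, Real.logb_pow]
    have h4 : Real.logb 2 4 = 2 := by
      rw [show (4 : ℝ) = 2 ^ (2 : ℝ) by norm_num, Real.logb_rpow (by norm_num) (by norm_num)]
    have h2 : Real.logb 2 2 = 1 := Real.logb_self_eq_one (by norm_num)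
    have h3 : Real.logb 2 (Fintype.card (Conf n 1 Q) : ℝ) ≤ (S : ℝ) + y := by
      have := Real.logb_le_logb_of_le (b := 2) (by norm_num) hcard0 hcard
      rwa [Real.logb_rpow (by norm_num) (by norm_num)] at this
    rw [h4, h2]
    push_cast
    have h5 : ((W : ℝ) + 1) * Real.logb 2 (Fintype.card (Conf n 1 Q) : ℝ) ≤
        ((W : ℝ) + 1) * ((S : ℝ) + y) := mul_le_mul_of_nonneg_left h3 (by linarith)
    linarith
  have hk : 30 ≤ (S : ℝ) + y := by linarith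
  have hmain : ((n / 4 : ℕ) : ℝ) * y ≤ 20 * W * ((S : ℝ) + y) := by
    have h1 : ((n / 4 : ℕ) : ℝ) * (y / 4) ≤
        ((n / 4 : ℕ) : ℝ) * Real.logb 2 (((n / 4 : ℕ) : ℝ) / tt n) :=
      mul_le_mul_of_nonneg_left hlog hqpos.le
    have h2 : (2 : ℝ) + W + (W + 1) * ((S : ℝ) + y) ≤ 5 * W * ((S : ℝ) + y) := by
      have a1 : (1 : ℝ) * ((S : ℝ) + y) ≤ W * ((S : ℝ) + y) :=
        mul_le_mul_of_nonneg_right hW1 (by linarith)
      have a2 : (W : ℝ) * 30 ≤ W * ((S : ℝ) + y) := mul_le_mul_of_nonneg_left hk (by linarith)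
      linarith
    linarith
  have hWD : (W : ℝ) * (2 * ((n / 4 : ℕ) : ℝ)) ≤ D + n := by
    have h1 : W * (2 * (n / 4)) ≤ D + n := by
      rw [hW, add_mul, one_mul]
      have := Nat.div_mul_le_self D (2 * (n / 4))
      omega
    exact_mod_cast h1
  have hq2 : ((n / 4 : ℕ) : ℝ) ^ 2 * y ≤ 10 * ((D : ℝ) + n) * ((S : ℝ) + y) := by
    have h1 : (((n / 4 : ℕ) : ℝ) * y) * (2 * ((n / 4 : ℕ) : ℝ)) ≤
        (20 * W * ((S : ℝ) + y)) * (2 * ((n / 4 : ℕ) : ℝ)) :=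
      mul_le_mul_of_nonneg_right hmain (by linarith)
    have h2 : (W : ℝ) * (2 * ((n / 4 : ℕ) : ℝ)) * (20 * ((S : ℝ) + y)) ≤
        ((D : ℝ) + n) * (20 * ((S : ℝ) + y)) := mul_le_mul_of_nonneg_right hWD (by linarith)
    nlinarith
  have hn2 : (n : ℝ) ^ 2 ≤ 25 * ((n / 4 : ℕ) : ℝ) ^ 2 := by nlinarith
  have hfin : (n : ℝ) ^ 2 * y ≤ 25 * ((n / 4 : ℕ) : ℝ) ^ 2 * y :=
    mul_le_mul_of_nonneg_right hn2 (by linarith)
  linarith

end Pool.Agent.TS42
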