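import Pool.Agent.TS42.Grid

/-!
# TS42/Vegas: from zero error machines to nondeterministic machines

* `toN_comp`: if `M` is correct on `x` and `¬ Sol x`, then `M.run x` is an accepting computation of
  `M.toN` with `M.time x` steps (`M.out (M.run x t) = none` for `t < M.time x` by `Nat.notMem_of_lt_sInf`).
* `toN_sound`: if `M` is correct on `x` and `M.toN.Accepts x` then `¬ Sol x`: a computation `c` with `T` steps of
  `M.toN` is `c t = M.run x t` for `t ≤ T`, with `M.out = none` for `t < T` and `some false` at `T`; so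
  `M.time x = T` and the answer is `false`.
* `vegas`: Markov, for an arbitrary cost `w : Ω → (Fin n → ℤ) → ℕ` with expectation `≤ C0`, `4 C0 < C + 1`: for
  every input `x` the weight of the `ω` with `w ω x ≤ C` is at least `3/4` (`∑_{w ≥ C+1} p ≤ C0/(C+1) < 1/4`).
  Sum over the `y` with `¬ Sol (val n y)` (at least half of the `(n^2)^n` arrays, `sol_card`, all are inputs by
  `val_inp`) and exchange: some `ω` (`∑ p = 1`) has
  `#{y : ¬ Sol (val n y), w ω (val n y) ≤ C} ≥ (3/4)(1/2) (n^2)^n`.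
-/

namespace Pool.Agent.TS42

open Finset

theorem toN_comp {n H : ℕ} {Q : Type} (M : Machine n H Q) (x : Fin n → ℤ) (hM : M.Correct x)
    (hx : ¬ Sol x) : M.toN.Comp x (M.time x) (M.run x) := by
  obtain ⟨b, hb, hbs⟩ := hM
  have hbf : b = false := by
    cases b with
    | false => rfl
    | true => exact absurd (hbs.1 rfl) hx
  refine ⟨rfl, fun t ht => ⟨?_, rfl⟩, ?_⟩
  · have h1 : t ∉ {t | (M.out (M.run x t)).isSome} := Nat.notMem_of_lt_sInf ht
    exact Option.not_isSome_iff_eq_none.1 h1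
  · show M.out (M.run x (M.time x)) = some false
    rw [hb, hbf]

theorem toN_sound {n H : ℕ} {Q : Type} (M : Machine n H Q) (x : Fin n → ℤ) (hM : M.Correct x)
    (h : M.toN.Accepts x) : ¬ Sol x := by
  obtain ⟨T, c, h0, h1, h2⟩ := h
  have hc : ∀ t, t ≤ T → c t = M.run x t := by
    intro t
    induction t with
    | zero =>
      intro _
      exact h0
    | succ t ih =>
      intro ht
      have h3 : M.out (c t) = none ∧ c (t + 1) = M.next (c t) (fun a => x ((c t).2 a)) :=
        h1 t (by omega)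
      rw [h3.2, ih (by omega)]
      rfl
  have hT : M.time x = T := by
    have h3 : M.out (c T) = some false := h2
    unfold Machine.time
    refine le_antisymm (Nat.sInf_le ?_) (le_csInf ⟨T, ?_⟩ ?_)
    · show (M.out (M.run x T)).isSome
      rw [← hc T le_rfl, h3]
      rfl
    · show (M.out (M.run x T)).isSome
      rw [← hc T le_rfl, h3]
      rfl
    · intro t ht
      by_contra hlt
      push Not at hlt
      have h4 : M.out (c t) = none ∧ c (t + 1) = M.next (c t) (fun a => x ((c t).2 a)) :=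
        h1 t hlt
      have h5 : (M.out (M.run x t)).isSome := ht
      rw [← hc t hlt.le, h4.1] at h5
      exact absurd h5 (by simp)
  obtain ⟨b, hb, hbs⟩ := hM
  have h3 : M.out (c T) = some false := h2
  rw [hT, ← hc T le_rfl, h3] at hb
  have h4 : false = b := Option.some.inj hb
  intro hs
  have h5 := hbs.2 hs
  rw [← h4] at h5
  exact Bool.noConfusion h5

open Classical in
theorem vegas {n H : ℕ} {Q : Type} (hn : 2 ≤ n) (A : LasVegas n H Q)
    (w : A.Ω → (Fin n → ℤ) → ℕ) (C0 : ℝ) (hC : ∀ x, Inp n x → ∑ ω, A.p ω * (w ω x : ℝ) ≤ C0)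
    (C : ℕ) (hC0 : 4 * C0 < C + 1) :
    ∃ ω, 3 * (n ^ 2) ^ n ≤
        8 * (univ.filter (fun y : Fin n → Fin (n ^ 2) => ¬ Sol (val n y) ∧ w ω (val n y) ≤ C)).card := by
  by_contra hcon
  push Not at hcon
  have hcard : (univ : Finset (Fin n → Fin (n ^ 2))).card = (n ^ 2) ^ n := by
    rw [card_univ, Fintype.card_fun, Fintype.card_fin, Fintype.card_fin]
  have hsol := sol_card n hn
  have hsplit : (univ.filter (fun y : Fin n → Fin (n ^ 2) => Sol (val n y))).card +
      (univ.filter (fun y : Fin n → Fin (n ^ 2) => ¬ Sol (val n y))).card = (n ^ 2) ^ n := by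
    rw [← hcard]
    exact card_filter_add_card_filter_not _
  obtain ⟨N, hN⟩ : ∃ N, N = (n ^ 2) ^ n := ⟨_, rfl⟩
  rw [← hN] at hsplit hsol
  simp only [← hN] at hcon
  have hG : N ≤ 2 * (univ.filter (fun y : Fin n → Fin (n ^ 2) => ¬ Sol (val n y))).card := by
    omega
  -- Markov
  have hmark : ∀ y : Fin n → Fin (n ^ 2),
      3 / 4 ≤ ∑ ω, A.p ω * (if w ω (val n y) ≤ C then (1 : ℝ) else 0) := by
    intro y
    have h1 := hC (val n y) (val_inp n y)
    have h2 : ∑ ω, A.p ω * (((C : ℝ) + 1) * (if w ω (val n y) ≤ C then (0 : ℝ) else 1)) ≤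
        ∑ ω, A.p ω * (w ω (val n y) : ℝ) := by
      refine sum_le_sum fun ω _ => mul_le_mul_of_nonneg_left ?_ (A.p_nonneg ω)
      split_ifs with h
      · rw [mul_zero]
        exact Nat.cast_nonneg _
      · rw [mul_one]
        have h3 : C + 1 ≤ w ω (val n y) := by omega
        exact_mod_cast h3
    have h3 : ∑ ω, A.p ω * (((C : ℝ) + 1) * (if w ω (val n y) ≤ C then (0 : ℝ) else 1)) =
        ((C : ℝ) + 1) * ∑ ω, A.p ω * (if w ω (val n y) ≤ C then (0 : ℝ) else 1) := by
      rw [mul_sum]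
      exact sum_congr rfl fun ω _ => by ring
    have h4 : (∑ ω, A.p ω * (if w ω (val n y) ≤ C then (0 : ℝ) else 1)) +
        ∑ ω, A.p ω * (if w ω (val n y) ≤ C then (1 : ℝ) else 0) = 1 := by
      rw [← sum_add_distrib]
      refine Eq.trans (sum_congr rfl fun ω _ => ?_) A.p_sum
      split_ifs <;> ring
    rw [h3] at h2
    have h5 : 4 * (((C : ℝ) + 1) * ∑ ω, A.p ω * (if w ω (val n y) ≤ C then (0 : ℝ) else 1)) <
        (C : ℝ) + 1 := by linarith
    have hC1 : (0 : ℝ) < (C : ℝ) + 1 := by positivity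
    have h6 : 4 * (∑ ω, A.p ω * (if w ω (val n y) ≤ C then (0 : ℝ) else 1)) < 1 := by
      by_contra hc
      push Not at hc
      have h7 := mul_le_mul_of_nonneg_left hc hC1.le
      linarith
    linarith
  -- averaging
  have hsum : 3 / 4 * ((univ.filter (fun y : Fin n → Fin (n ^ 2) => ¬ Sol (val n y))).card : ℝ) ≤
      ∑ ω, A.p ω * ((univ.filter (fun y : Fin n → Fin (n ^ 2) =>
        ¬ Sol (val n y) ∧ w ω (val n y) ≤ C)).card : ℝ) := by
    have h1 : ∀ ω, ((univ.filter (fun y : Fin n → Fin (n ^ 2) =>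
        ¬ Sol (val n y) ∧ w ω (val n y) ≤ C)).card : ℝ) =
        ∑ y ∈ univ.filter (fun y : Fin n → Fin (n ^ 2) => ¬ Sol (val n y)),
          (if w ω (val n y) ≤ C then (1 : ℝ) else 0) := by
      intro ω
      rw [← filter_filter, card_filter]
      push_cast
      rfl
    simp only [h1, mul_sum]
    rw [sum_comm]
    have h2 : ∑ y ∈ univ.filter (fun y : Fin n → Fin (n ^ 2) => ¬ Sol (val n y)), (3 / 4 : ℝ) ≤
        ∑ y ∈ univ.filter (fun y : Fin n → Fin (n ^ 2) => ¬ Sol (val n y)),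
          ∑ ω, A.p ω * (if w ω (val n y) ≤ C then (1 : ℝ) else 0) :=
      sum_le_sum fun y _ => hmark y
    rw [sum_const, nsmul_eq_mul, mul_comm] at h2
    exact h2
  have hlt : ∑ ω, A.p ω * ((univ.filter (fun y : Fin n → Fin (n ^ 2) =>
        ¬ Sol (val n y) ∧ w ω (val n y) ≤ C)).card : ℝ) ≤ ∑ ω, A.p ω * ((3 * (N : ℝ) - 1) / 8) := by
    refine sum_le_sum fun ω _ => mul_le_mul_of_nonneg_left ?_ (A.p_nonneg ω)
    have h1 : 8 * (univ.filter (fun y : Fin n → Fin (n ^ 2) =>
        ¬ Sol (val n y) ∧ w ω (val n y) ≤ C)).card + 1 ≤ 3 * N := hcon ω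
    have h2 : (8 : ℝ) * ((univ.filter (fun y : Fin n → Fin (n ^ 2) =>
        ¬ Sol (val n y) ∧ w ω (val n y) ≤ C)).card : ℝ) + 1 ≤ 3 * (N : ℝ) := by
      exact_mod_cast h1
    linarith
  rw [← sum_mul, A.p_sum, one_mul] at hlt
  have hG' : (N : ℝ) ≤ 2 * ((univ.filter (fun y : Fin n → Fin (n ^ 2) =>
      ¬ Sol (val n y))).card : ℝ) := by
    exact_mod_cast hG
  linarith

end Pool.Agent.TS42
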