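import Pool.Agent.TS42.NumRam
import Pool.Agent.TS42.NumHead
import Pool.Agent.TS42.NumOne
import Pool.Agent.TS42.Vegas

/-!
# TS42/Final: 3SUM with small memory
-/

namespace Pool.Agent.TS42

open Finset

theorem big_of {n : ℕ} (hn : 2 ≤ n) (P : (Fin n → Fin (n ^ 2)) → Prop)
    (h : ∀ y, ¬ Sol (val n y) → P y) [DecidablePred P] :
    3 * (n ^ 2) ^ n ≤ 8 * (univ.filter P).card := by
  classical
  have h1 := sol_card n hn
  have h2 : (univ.filter (fun y : Fin n → Fin (n ^ 2) => ¬ Sol (val n y))).card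
      + (univ.filter (fun y : Fin n → Fin (n ^ 2) => Sol (val n y))).card = (n ^ 2) ^ n := by
    rw [add_comm, Finset.card_filter_add_card_filter_not]
    simp
  have h3 : (univ.filter (fun y : Fin n → Fin (n ^ 2) => ¬ Sol (val n y))).card ≤ (univ.filter P).card :=
    card_le_card (fun y hy => by
      rw [mem_filter] at hy ⊢
      exact ⟨hy.1, h y hy.2⟩)
  generalize (n ^ 2) ^ n = A at *
  omega

theorem floor_aux (C0 : ℝ) (hC0 : 0 ≤ C0) : ∃ C : ℕ, 4 * C0 < C + 1 ∧ (C : ℝ) ≤ 4 * C0 :=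
  ⟨⌊4 * C0⌋₊, Nat.lt_floor_add_one _, Nat.floor_le (by positivity)⟩

theorem solves_nonneg {n H : ℕ} {Q : Type} {A : LasVegas n H Q} {T D : ℝ} (hn : 2 ≤ n)
    (hA : A.Solves T D) : 0 ≤ T ∧ 0 ≤ D := by
  have hpos : 0 < n ^ 2 := by positivity
  have h := (hA (val n (fun _ => ⟨0, hpos⟩)) (val_inp n _)).2
  refine ⟨le_trans ?_ h.1, le_trans ?_ h.2⟩
  · exact Finset.sum_nonneg (fun ω _ => mul_nonneg (A.p_nonneg ω) (Nat.cast_nonneg _))
  · exact Finset.sum_nonneg (fun ω _ => mul_nonneg (A.p_nonneg ω) (Nat.cast_nonneg _))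

/-- the three bounds for nondeterministic machines -/
theorem main_N (n H S : ℕ) (Q : Type) [Fintype Q] (hn : 2 ≤ n) (hH : 1 ≤ H) (hS : 1 ≤ S)
    (hQ : Fintype.card Q ≤ 2 ^ S) (M : NMachine n H Q) (T D : ℕ) (hM : M.Certifies T D) :
    (n : ℝ) * (Real.logb 2 (n * Real.logb 2 n / (S + H * Real.logb 2 n)) - 100) ≤ 220 * (H * T) ∧
    (n : ℝ) ^ 3 ≤ 4000000 * (H : ℝ) ^ 4 * (S + H * Real.logb 2 n) * ((D : ℝ) + n) ^ 2 ∧
    (H = 1 → 2 ^ 29 ≤ n →
      (n : ℝ) ^ 2 * Real.logb 2 n ≤ 250 * ((D : ℝ) + n) * (S + Real.logb 2 n)) := by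
  classical
  refine ⟨?_, ?_, ?_⟩
  · refine ram_bound n H S T hn hH hS hQ M (big_of hn _ fun y hy => ?_)
      (fun y hy => (hM _ (val_inp n y)).1 hy)
    obtain ⟨T', hT', c, hc, _⟩ := (hM _ (val_inp n y)).2 hy
    exact ⟨T', hT', c, hc⟩
  · refine head_bound n H S D hn hH hS hQ M (big_of hn _ fun y hy => ?_)
      (fun y hy => (hM _ (val_inp n y)).1 hy)
    obtain ⟨T', _, c, hc, hD⟩ := (hM _ (val_inp n y)).2 hy
    exact ⟨T', c, hc, hD⟩
  · intro h1 hn29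
    subst h1
    refine one_bound n S D hn29 hS hQ M (big_of hn _ fun y hy => ?_)
      (fun y hy => (hM _ (val_inp n y)).1 hy)
    obtain ⟨T', _, c, hc, hD⟩ := (hM _ (val_inp n y)).2 hy
    exact ⟨T', c, hc, hD⟩

/-- the three bounds for zero error randomised algorithms -/
theorem main_V (n H S : ℕ) (Q : Type) [Fintype Q] (hn : 2 ≤ n) (hH : 1 ≤ H) (hS : 1 ≤ S)
    (hQ : Fintype.card Q ≤ 2 ^ S) (A : LasVegas n H Q) (T D : ℝ) (hA : A.Solves T D) :
    (n : ℝ) * (Real.logb 2 (n * Real.logb 2 n / (S + H * Real.logb 2 n)) - 100) ≤ 880 * (H * T) ∧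
    (n : ℝ) ^ 3 ≤ 64000000 * (H : ℝ) ^ 4 * (S + H * Real.logb 2 n) * (D + n) ^ 2 ∧
    (H = 1 → 2 ^ 29 ≤ n →
      (n : ℝ) ^ 2 * Real.logb 2 n ≤ 1000 * (D + n) * (S + Real.logb 2 n)) := by
  classical
  obtain ⟨hT0, hD0⟩ := solves_nonneg hn hA
  have hlog : 0 ≤ Real.logb 2 n := Real.logb_nonneg (by norm_num) (by exact_mod_cast (by omega : 1 ≤ n))
  have hn0 : (0 : ℝ) ≤ n := Nat.cast_nonneg n
  have hsound : ∀ ω, ∀ y : Fin n → Fin (n ^ 2), (A.M ω).toN.Accepts (val n y) → ¬ Sol (val n y) :=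
    fun ω y hy => toN_sound _ _ ((hA _ (val_inp n y)).1 ω) hy
  refine ⟨?_, ?_, ?_⟩
  · obtain ⟨C, hC1, hC2⟩ := floor_aux T hT0
    obtain ⟨ω, hbig⟩ := vegas hn A (fun ω x => (A.M ω).time x) T (fun x hx => (hA x hx).2.1) C hC1
    have h1 := ram_bound n H S C hn hH hS hQ (A.M ω).toN (le_trans hbig (Nat.mul_le_mul_left 8
      (card_le_card (fun y hy => by
        rw [mem_filter] at hy ⊢
        exact ⟨hy.1, (A.M ω).time (val n y), hy.2.2, (A.M ω).run (val n y),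
          toN_comp _ _ ((hA _ (val_inp n y)).1 ω) hy.2.1⟩)))) (hsound ω)
    have hH0 : (0 : ℝ) ≤ H := Nat.cast_nonneg H
    nlinarith [mul_le_mul_of_nonneg_left hC2 hH0]
  · obtain ⟨C, hC1, hC2⟩ := floor_aux D hD0
    obtain ⟨ω, hbig⟩ := vegas hn A (fun ω x => travel ((A.M ω).run x) ((A.M ω).time x)) D
      (fun x hx => (hA x hx).2.2) C hC1
    have h1 := head_bound n H S C hn hH hS hQ (A.M ω).toN (le_trans hbig (Nat.mul_le_mul_left 8
      (card_le_card (fun y hy => by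
        rw [mem_filter] at hy ⊢
        exact ⟨hy.1, (A.M ω).time (val n y), (A.M ω).run (val n y),
          toN_comp _ _ ((hA _ (val_inp n y)).1 ω) hy.2.1, hy.2.2⟩)))) (hsound ω)
    have h2 : ((C : ℝ) + n) ^ 2 ≤ (4 * (D + n)) ^ 2 := by
      have hC' : (0 : ℝ) ≤ C := Nat.cast_nonneg C
      apply pow_le_pow_left₀ (by positivity)
      linarith
    have hc : 0 ≤ 4000000 * (H : ℝ) ^ 4 * (S + H * Real.logb 2 n) := by positivity
    calc (n : ℝ) ^ 3 ≤ 4000000 * (H : ℝ) ^ 4 * (S + H * Real.logb 2 n) * ((C : ℝ) + n) ^ 2 := h1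
      _ ≤ 4000000 * (H : ℝ) ^ 4 * (S + H * Real.logb 2 n) * (4 * (D + n)) ^ 2 :=
          mul_le_mul_of_nonneg_left h2 hc
      _ = 64000000 * (H : ℝ) ^ 4 * (S + H * Real.logb 2 n) * (D + n) ^ 2 := by ring
  · intro h1 hn29
    subst h1
    obtain ⟨C, hC1, hC2⟩ := floor_aux D hD0
    obtain ⟨ω, hbig⟩ := vegas hn A (fun ω x => travel ((A.M ω).run x) ((A.M ω).time x)) D
      (fun x hx => (hA x hx).2.2) C hC1
    have h1 := one_bound n S C hn29 hS hQ (A.M ω).toN (le_trans hbig (Nat.mul_le_mul_left 8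
      (card_le_card (fun y hy => by
        rw [mem_filter] at hy ⊢
        exact ⟨hy.1, (A.M ω).time (val n y), (A.M ω).run (val n y),
          toN_comp _ _ ((hA _ (val_inp n y)).1 ω) hy.2.1, hy.2.2⟩)))) (hsound ω)
    have hc : 0 ≤ (S : ℝ) + Real.logb 2 n := by positivity
    calc (n : ℝ) ^ 2 * Real.logb 2 n ≤ 250 * ((C : ℝ) + n) * (S + Real.logb 2 n) := h1
      _ ≤ 1000 * (D + n) * (S + Real.logb 2 n) := by
          apply mul_le_mul_of_nonneg_right _ hc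
          linarith

end Pool.Agent.TS42
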