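import Pool.Agent.TS42.Defs

/-!
# TS42/Base: 3SUM with small memory, definitions used in the proof
-/

namespace Pool.Agent.TS42

open Finset

/-- The machine as a nondeterministic machine accepting when the answer is `no`. -/
def Machine.toN {n H : ℕ} {Q : Type} (M : Machine n H Q) : NMachine n H Q where
  start := M.start
  step := fun k v k' => M.out k = none ∧ k' = M.next k v
  acc := fun k => M.out k = some false

/-! ### The hard inputs -/

/-- The array with one entry in each of `n` consecutive intervals of length `n ^ 2`. -/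
def val (n : ℕ) (y : Fin n → Fin (n ^ 2)) : Fin n → ℤ :=
  fun p => (((p : ℕ) : ℤ) - ((n / 2 : ℕ) : ℤ)) * (n : ℤ) ^ 2 + (((y p : Fin (n ^ 2)) : ℕ) : ℤ)

/-- The positions of the top quarter. -/
def pA (n : ℕ) (i : Fin (n / 4)) : Fin n := ⟨n / 2 + n / 4 + i, by omega⟩

/-- The positions of the bottom quarter. -/
def pB (n : ℕ) (j : Fin (n / 4)) : Fin n := ⟨n / 2 - 2 * (n / 4) + j, by omega⟩

/-- The positions of the middle half. -/
def pC (n : ℕ) (l : Fin (2 * (n / 4))) : Fin n := ⟨n / 2 - n / 4 + l, by omega⟩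

/-- The size of the fluctuations of the middle half. -/
noncomputable def tt (n : ℕ) : ℝ := Real.sqrt (24 * n * Real.logb 2 n)

/-! ### Fourier transform -/

noncomputable def ee (M ξ : ℕ) (a : ℤ) : ℂ :=
  Complex.exp (2 * (Real.pi : ℂ) * Complex.I * ((ξ : ℂ) * (a : ℂ) / (M : ℂ)))

/-- Fluctuation of the set `{(l - q) w + c l}` at the frequency `ξ`. -/
noncomputable def Dl (q w : ℕ) (c : Fin (2 * q) → Fin w) (ξ : ℕ) : ℂ :=
  ∑ l : Fin (2 * q), (ee (2 * q * w) ξ ((((l : ℕ) : ℤ) - (q : ℤ)) * (w : ℤ) + (((c l : Fin w) : ℕ) : ℤ))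
    - (∑ z : Fin w, ee (2 * q * w) ξ ((((l : ℕ) : ℤ) - (q : ℤ)) * (w : ℤ) + (((z : Fin w) : ℕ) : ℤ))) / (w : ℂ))

def Good (q w : ℕ) (t : ℝ) (c : Fin (2 * q) → Fin w) : Prop :=
  ∀ ξ < 2 * q * w, ‖Dl q w c ξ‖ ≤ t

/-- The indices of the `i`-th block of length `ell`. -/
def blk (q ell i : ℕ) : Finset (Fin q) := univ.filter (fun x => (x : ℕ) / ell = i)

/-! ### Pieces of computations -/

/-- `M` can go on `x` from the configuration `a` to `b`, in any number of steps, without ever having a
pointer on a cell of `B` (before the last configuration). -/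
def NMachine.Seg {n H : ℕ} {Q : Type} (M : NMachine n H Q) (x : Fin n → ℤ) (B : Finset (Fin n))
    (a b : Conf n H Q) : Prop :=
  Relation.ReflTransGen (fun k k' => M.Step x k k' ∧ ∀ h, k.2 h ∉ B) a b

end Pool.Agent.TS42
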