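import Mathlib

/-!
# TS42/Colour: two-colouring the segments

`SA i`, `SB j`: the segments in which the `i`-th top cell / the `j`-th bottom cell is read.
There is a set `χ` of segments such that at least `q / 2^(4κ+3)` top cells are read only in segments of
`χ` and at least `q / 2^(4κ+3)` bottom cells only in segments outside `χ`.

Proof.  Call `i` light if `|SA i| ≤ 2κ`.  `∑_i |SA i| ≤ κ q`, so the number of heavy `i` is at most
`κ q / (2κ+1) < q / 2`: more than `q/2` of the `i` are light, same for the `j`.  So there are more than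
`q^2/4` light pairs `(i, j)`.  The number of pairs with `SA i ∩ SB j ≠ ∅` is at most
`∑_s a_s b_s`, `a_s = #{i : s ∈ SA i}`, `b_s = #{j : s ∈ SB j}`, and `4 a_s b_s ≤ (a_s+b_s)^2 ≤ h (a_s+b_s)`,
`∑_s (a_s + b_s) = ∑ |SA i| + ∑ |SB j| ≤ κ q` (`Finset.sum_comm`), so it is at most
`h κ q / 4 ≤ q^2 / 8`.  So at least `q^2/8` light pairs have `SA i ∩ SB j = ∅`.  For such a pair the number of
`χ : Finset (Fin r)` with `SA i ⊆ χ` and `Disjoint (SB j) χ` is `2^(r - |SA i| - |SB j|) ≥ 2^(r - 4κ)`, that is
`2^r ≤ 2^(4κ) #` (no subtraction needed).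
Sum over the pairs and exchange: `∑_χ |J_A χ| |J_B χ| ≥ (q^2/8) 2^r / 2^(4κ)`, so some `χ` has
`8 * 2^(4κ) |J_A χ| |J_B χ| ≥ q^2`.  Since `|J_B χ| ≤ q` and `q > 0`: `2^(4κ+3) |J_A χ| ≥ q`; same for `J_B`.
-/

namespace Pool.Agent.TS42

open Finset

private lemma light_card (q r κ : ℕ) (hq : 0 < q) (S : Fin q → Finset (Fin r))
    (hsum : ∑ i, (S i).card ≤ κ * q) :
    q < 2 * (univ.filter (fun i => (S i).card ≤ 2 * κ)).card := by
  classical
  set L := univ.filter (fun i => (S i).card ≤ 2 * κ) with hL
  set H := univ.filter (fun i => ¬ (S i).card ≤ 2 * κ) with hH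
  have hLH : L.card + H.card = q := by
    have := Finset.card_filter_add_card_filter_not (s := (univ : Finset (Fin q)))
      (fun i => (S i).card ≤ 2 * κ)
    simpa [hL, hH] using this
  have h1 : H.card * (2 * κ + 1) ≤ ∑ i, (S i).card := by
    calc H.card * (2 * κ + 1) = ∑ i ∈ H, (2 * κ + 1) := by simp
      _ ≤ ∑ i ∈ H, (S i).card := by
          apply Finset.sum_le_sum
          intro i hi
          rw [hH, Finset.mem_filter] at hi
          omega
      _ ≤ ∑ i, (S i).card := Finset.sum_le_sum_of_subset (Finset.subset_univ _)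
  have h2 : H.card * (2 * κ + 1) ≤ κ * q := h1.trans hsum
  have h3 : 2 * H.card < q := by
    by_contra hcon
    push Not at hcon
    nlinarith
  omega

private lemma sum_card_eq (q r : ℕ) (S : Fin q → Finset (Fin r)) :
    ∑ s : Fin r, (univ.filter (fun i => s ∈ S i)).card = ∑ i, (S i).card := by
  classical
  simp_rw [Finset.card_filter]
  rw [Finset.sum_comm]
  apply Finset.sum_congr rfl
  intro i _
  rw [← Finset.card_filter]
  congr 1
  ext s
  simp

theorem colour (q r κ h : ℕ) (hq : 0 < q) (hκ : 1 ≤ κ) (hh : 2 * κ * h ≤ q)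
    (SA SB : Fin q → Finset (Fin r))
    (hsum : ∑ i, (SA i).card + ∑ j, (SB j).card ≤ κ * q)
    (hseg : ∀ s : Fin r, (univ.filter (fun i => s ∈ SA i)).card
      + (univ.filter (fun j => s ∈ SB j)).card ≤ h) :
    ∃ χ : Finset (Fin r),
      q ≤ 2 ^ (4 * κ + 3) * (univ.filter (fun i => SA i ⊆ χ)).card ∧
      q ≤ 2 ^ (4 * κ + 3) * (univ.filter (fun j => Disjoint (SB j) χ)).card := by
  classical
  set LA := univ.filter (fun i => (SA i).card ≤ 2 * κ) with hLA
  set LB := univ.filter (fun i => (SB i).card ≤ 2 * κ) with hLB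
  have hA : q < 2 * LA.card := light_card q r κ hq SA (by omega)
  have hB : q < 2 * LB.card := light_card q r κ hq SB (by omega)
  -- intersecting pairs
  set I := (univ : Finset (Fin q × Fin q)).filter (fun p => ¬ Disjoint (SA p.1) (SB p.2)) with hI
  have hI1 : I.card ≤ ∑ s : Fin r, (univ.filter (fun i => s ∈ SA i)).card
      * (univ.filter (fun j => s ∈ SB j)).card := by
    calc I.card ≤ ∑ p : Fin q × Fin q, (SA p.1 ∩ SB p.2).card := by
          rw [hI, Finset.card_filter]
          apply Finset.sum_le_sum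
          intro p _
          split_ifs with hp
          · exact Nat.zero_le _
          · rw [Finset.disjoint_iff_inter_eq_empty] at hp
            exact Finset.card_pos.mpr (Finset.nonempty_iff_ne_empty.mpr hp)
      _ = ∑ p : Fin q × Fin q, ∑ s : Fin r, (if s ∈ SA p.1 ∧ s ∈ SB p.2 then 1 else 0) := by
          apply Finset.sum_congr rfl
          intro p _
          rw [← Finset.card_filter]
          congr 1
          ext s
          simp
      _ = ∑ s : Fin r, ∑ p : Fin q × Fin q, (if s ∈ SA p.1 ∧ s ∈ SB p.2 then 1 else 0) :=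
          Finset.sum_comm
      _ = ∑ s : Fin r, (univ.filter (fun i => s ∈ SA i)).card
      * (univ.filter (fun j => s ∈ SB j)).card := by
          apply Finset.sum_congr rfl
          intro s _
          rw [← Finset.card_product, ← Finset.card_filter]
          congr 1
          ext p
          simp
  have hI2 : 8 * I.card ≤ q * q := by
    have h1 : 4 * ∑ s : Fin r, (univ.filter (fun i => s ∈ SA i)).card
      * (univ.filter (fun j => s ∈ SB j)).card ≤ h * (κ * q) := by
      calc 4 * ∑ s : Fin r, (univ.filter (fun i => s ∈ SA i)).card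
            * (univ.filter (fun j => s ∈ SB j)).card
          = ∑ s : Fin r, 4 * ((univ.filter (fun i => s ∈ SA i)).card
            * (univ.filter (fun j => s ∈ SB j)).card) := Finset.mul_sum _ _ _
        _ ≤ ∑ s : Fin r, h * ((univ.filter (fun i => s ∈ SA i)).card
            + (univ.filter (fun j => s ∈ SB j)).card) := by
            apply Finset.sum_le_sum
            intro s _
            have hs := hseg s
            set a := (univ.filter (fun i => s ∈ SA i)).card
            set b := (univ.filter (fun j => s ∈ SB j)).card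
            have h4 : 4 * (a * b) ≤ (a + b) * (a + b) := by
              have : (4 * (a * b) : ℤ) ≤ (a + b) * (a + b) := by nlinarith [sq_nonneg ((a : ℤ) - b)]
              exact_mod_cast this
            exact h4.trans (Nat.mul_le_mul_right _ hs)
        _ = h * ∑ s : Fin r, ((univ.filter (fun i => s ∈ SA i)).card
            + (univ.filter (fun j => s ∈ SB j)).card) := by rw [Finset.mul_sum]
        _ = h * (∑ i, (SA i).card + ∑ j, (SB j).card) := by
            rw [Finset.sum_add_distrib, sum_card_eq, sum_card_eq]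
        _ ≤ h * (κ * q) := Nat.mul_le_mul_left _ hsum
    have h2 : 2 * (h * (κ * q)) ≤ q * q := by
      calc 2 * (h * (κ * q)) = (2 * κ * h) * q := by ring
        _ ≤ q * q := Nat.mul_le_mul_right _ hh
    omega
  -- light disjoint pairs
  set D := (LA ×ˢ LB).filter (fun p => Disjoint (SA p.1) (SB p.2)) with hD
  have hD1 : LA.card * LB.card ≤ D.card + I.card := by
    rw [← Finset.card_product, ← Finset.card_filter_add_card_filter_not (s := LA ×ˢ LB)
      (fun p => Disjoint (SA p.1) (SB p.2))]
    apply Nat.add_le_add_left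
    apply Finset.card_le_card
    intro p hp
    rw [Finset.mem_filter] at hp
    rw [hI, Finset.mem_filter]
    exact ⟨Finset.mem_univ _, hp.2⟩
  have hD2 : q * q ≤ 8 * D.card := by
    have : q * q < 4 * (LA.card * LB.card) := by nlinarith
    omega
  -- number of colourings for a pair
  have hcol : ∀ p ∈ D, 2 ^ r ≤ 2 ^ (4 * κ) *
      ((univ : Finset (Finset (Fin r))).filter
        (fun χ => SA p.1 ⊆ χ ∧ Disjoint (SB p.2) χ)).card := by
    intro p hp
    rw [hD, Finset.mem_filter, Finset.mem_product] at hp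
    obtain ⟨⟨ha, hb⟩, hdis⟩ := hp
    rw [hLA, Finset.mem_filter] at ha
    rw [hLB, Finset.mem_filter] at hb
    have heq : (univ : Finset (Finset (Fin r))).filter
        (fun χ => SA p.1 ⊆ χ ∧ Disjoint (SB p.2) χ) = Finset.Icc (SA p.1) ((SB p.2)ᶜ) := by
      ext χ
      simp only [Finset.mem_filter, Finset.mem_univ, true_and, Finset.mem_Icc]
      constructor
      · rintro ⟨h1, h2⟩
        exact ⟨h1, Finset.subset_compl_iff_disjoint_left.mpr h2⟩
      · rintro ⟨h1, h2⟩
        exact ⟨h1, Finset.subset_compl_iff_disjoint_left.mp h2⟩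
    rw [heq, Finset.card_Icc_finset (Finset.subset_compl_iff_disjoint_left.mpr hdis.symm),
      Finset.card_compl, Fintype.card_fin, ← pow_add]
    apply Nat.pow_le_pow_right (by norm_num)
    omega
  -- double counting
  have hsumχ : ∑ χ : Finset (Fin r), D.card ≤
      ∑ χ : Finset (Fin r), 2 ^ (4 * κ) * ((univ.filter (fun i => SA i ⊆ χ)).card
        * (univ.filter (fun j => Disjoint (SB j) χ)).card) := by
    calc ∑ χ : Finset (Fin r), D.card = D.card * 2 ^ r := by
          simp [mul_comm]
      _ = ∑ p ∈ D, 2 ^ r := by simp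
      _ ≤ ∑ p ∈ D, 2 ^ (4 * κ) *
      ((univ : Finset (Finset (Fin r))).filter
        (fun χ => SA p.1 ⊆ χ ∧ Disjoint (SB p.2) χ)).card := Finset.sum_le_sum hcol
      _ ≤ ∑ p : Fin q × Fin q, 2 ^ (4 * κ) *
      ((univ : Finset (Finset (Fin r))).filter
        (fun χ => SA p.1 ⊆ χ ∧ Disjoint (SB p.2) χ)).card :=
          Finset.sum_le_sum_of_subset (Finset.subset_univ _)
      _ = ∑ p : Fin q × Fin q, ∑ χ : Finset (Fin r),
            2 ^ (4 * κ) * (if SA p.1 ⊆ χ ∧ Disjoint (SB p.2) χ then 1 else 0) := by
          apply Finset.sum_congr rfl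
          intro p _
          rw [← Finset.mul_sum, Finset.card_filter]
      _ = ∑ χ : Finset (Fin r), ∑ p : Fin q × Fin q,
            2 ^ (4 * κ) * (if SA p.1 ⊆ χ ∧ Disjoint (SB p.2) χ then 1 else 0) :=
          Finset.sum_comm
      _ = _ := by
          apply Finset.sum_congr rfl
          intro χ _
          rw [← Finset.mul_sum, ← Finset.card_product, ← Finset.card_filter]
          congr 2
          ext p
          simp
  obtain ⟨χ, _, hχ⟩ := Finset.exists_le_of_sum_le (Finset.univ_nonempty) hsumχ
  refine ⟨χ, ?_, ?_⟩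
  · set JA := (univ.filter (fun i => SA i ⊆ χ)).card
    set JB := (univ.filter (fun j => Disjoint (SB j) χ)).card with hJB
    have hJBq : JB ≤ q := by
      rw [hJB]
      calc _ ≤ (univ : Finset (Fin q)).card := Finset.card_filter_le _ _
        _ = q := by simp
    have h1 : q * q ≤ (2 ^ (4 * κ + 3) * JA) * q := by
      calc q * q ≤ 8 * D.card := hD2
        _ ≤ 8 * (2 ^ (4 * κ) * (JA * JB)) := Nat.mul_le_mul_left _ hχ
        _ = 2 ^ (4 * κ + 3) * JA * JB := by ring
        _ ≤ _ := Nat.mul_le_mul_left _ hJBq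
    exact Nat.le_of_mul_le_mul_right h1 hq
  · set JA := (univ.filter (fun i => SA i ⊆ χ)).card with hJA
    set JB := (univ.filter (fun j => Disjoint (SB j) χ)).card
    have hJAq : JA ≤ q := by
      rw [hJA]
      calc _ ≤ (univ : Finset (Fin q)).card := Finset.card_filter_le _ _
        _ = q := by simp
    have h1 : q * q ≤ (2 ^ (4 * κ + 3) * JB) * q := by
      calc q * q ≤ 8 * D.card := hD2
        _ ≤ 8 * (2 ^ (4 * κ) * (JA * JB)) := Nat.mul_le_mul_left _ hχ
        _ = 2 ^ (4 * κ + 3) * JB * JA := by ring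
        _ ≤ _ := Nat.mul_le_mul_left _ hJAq
    exact Nat.le_of_mul_le_mul_right h1 hq

end Pool.Agent.TS42
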