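import Mathlib

/-!
# TS42/Counting: two counting lemmas

`good_pair`.  `vis i = #{s : i ∈ VA s}`, `∑_i vis i = ∑_s |VA s| ≤ 2 H W`.  Call `i` heavy if
`8 H W < b vis i`.  If `Z` is the set of the heavy `i`: `2 b H W ≥ ∑_{i ∈ Z} b vis i ≥ |Z| (8 H W + 1)`.  If
`H W = 0` then `Z = ∅`, else `4 |Z| ≤ b`.  The same for the `j`.  So there are at least `(3b/4)^2`
pairs of light `i`, `j`; at most `∑_s |VA s| |VB s| ≤ W H^2 ≤ b^2/2` pairs are together in some window
(`4 x y ≤ (x+y)^2`), and `9/16 > 1/2`, `b > 0`.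

`sparse_card`.  The map `g ↦ f_g`, `f_g s = ` the second component of `g k` for the first `k : Fin z` with
`g k = some (s, a)`, from `Fin z → Option (Fin W × α)` is onto the set of the functions with at most
`z` values different from `none` (enumerate the support).  `|Option (Fin W × α)| = 1 + W |α|`.
-/

namespace Pool.Agent.TS42

open Finset

open Classical in
/-- Few elements are visited often. -/
theorem heavy_card (b W H : ℕ) (VA : Fin W → Finset (Fin b))
    (h : ∀ s, (VA s).card ≤ 2 * H) :
    4 * (univ.filter (fun i : Fin b =>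
      8 * H * W < b * (univ.filter (fun s => i ∈ VA s)).card)).card ≤ b := by
  set Z := univ.filter (fun i : Fin b =>
      8 * H * W < b * (univ.filter (fun s => i ∈ VA s)).card) with hZ
  have h1 : ∑ i : Fin b, (univ.filter (fun s => i ∈ VA s)).card ≤ 2 * H * W := by
    have h2 : ∑ i : Fin b, (univ.filter (fun s => i ∈ VA s)).card = ∑ s : Fin W, (VA s).card := by
      simp only [Finset.card_filter]
      rw [Finset.sum_comm]
      refine Finset.sum_congr rfl fun s _ => ?_
      rw [← Finset.card_filter]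
      congr 1
      ext i
      simp
    rw [h2]
    calc ∑ s : Fin W, (VA s).card ≤ ∑ _s : Fin W, 2 * H := Finset.sum_le_sum fun s _ => h s
      _ = 2 * H * W := by
        rw [Finset.sum_const, Finset.card_univ, Fintype.card_fin, smul_eq_mul, mul_comm]
  have h2 : Z.card * (8 * H * W + 1) ≤ b * (2 * H * W) := by
    calc Z.card * (8 * H * W + 1) = ∑ _i ∈ Z, (8 * H * W + 1) := by
          rw [Finset.sum_const, smul_eq_mul]
      _ ≤ ∑ i ∈ Z, b * (univ.filter (fun s => i ∈ VA s)).card := by
          refine Finset.sum_le_sum fun i hi => ?_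
          rw [hZ, mem_filter] at hi
          exact hi.2
      _ ≤ ∑ i : Fin b, b * (univ.filter (fun s => i ∈ VA s)).card :=
          Finset.sum_le_sum_of_subset (Finset.subset_univ _)
      _ = b * ∑ i : Fin b, (univ.filter (fun s => i ∈ VA s)).card := by rw [Finset.mul_sum]
      _ ≤ b * (2 * H * W) := Nat.mul_le_mul_left _ h1
  have h3 : 4 * Z.card * (8 * H * W + 1) ≤ b * (8 * H * W + 1) := by
    calc 4 * Z.card * (8 * H * W + 1) = 4 * (Z.card * (8 * H * W + 1)) := by ring
      _ ≤ 4 * (b * (2 * H * W)) := Nat.mul_le_mul_left _ h2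
      _ = b * (8 * H * W) := by ring
      _ ≤ b * (8 * H * W + 1) := Nat.mul_le_mul_left _ (Nat.le_succ _)
  exact Nat.le_of_mul_le_mul_right h3 (Nat.succ_pos _)

open Classical in
theorem good_pair (b W H : ℕ) (hb : 0 < b) (VA VB : Fin W → Finset (Fin b))
    (h : ∀ s, (VA s).card + (VB s).card ≤ 2 * H) (hW : 2 * H ^ 2 * W ≤ b ^ 2) :
    ∃ i j : Fin b, (∀ s, ¬ (i ∈ VA s ∧ j ∈ VB s)) ∧
      b * (univ.filter (fun s => i ∈ VA s)).card ≤ 8 * H * W ∧
      b * (univ.filter (fun s => j ∈ VB s)).card ≤ 8 * H * W := by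
  have hA := heavy_card b W H VA (fun s => (Nat.le_add_right _ _).trans (h s))
  have hB := heavy_card b W H VB (fun s => (Nat.le_add_left _ _).trans (h s))
  set LA := univ.filter (fun i : Fin b =>
      ¬ 8 * H * W < b * (univ.filter (fun s => i ∈ VA s)).card) with hLA
  set LB := univ.filter (fun i : Fin b =>
      ¬ 8 * H * W < b * (univ.filter (fun s => i ∈ VB s)).card) with hLB
  have cA : 3 * b ≤ 4 * LA.card := by
    have h1 := Finset.card_filter_add_card_filter_not (s := (univ : Finset (Fin b)))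
      (fun i : Fin b => 8 * H * W < b * (univ.filter (fun s => i ∈ VA s)).card)
    rw [Finset.card_univ, Fintype.card_fin, ← hLA] at h1
    omega
  have cB : 3 * b ≤ 4 * LB.card := by
    have h1 := Finset.card_filter_add_card_filter_not (s := (univ : Finset (Fin b)))
      (fun i : Fin b => 8 * H * W < b * (univ.filter (fun s => i ∈ VB s)).card)
    rw [Finset.card_univ, Fintype.card_fin, ← hLB] at h1
    omega
  have cAB : 9 * b ^ 2 ≤ 16 * (LA.card * LB.card) := by
    calc 9 * b ^ 2 = (3 * b) * (3 * b) := by ring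
      _ ≤ (4 * LA.card) * (4 * LB.card) := Nat.mul_le_mul cA cB
      _ = 16 * (LA.card * LB.card) := by ring
  by_contra hcon
  push Not at hcon
  have hsub : LA ×ˢ LB ⊆ (univ : Finset (Fin W)).biUnion (fun s => VA s ×ˢ VB s) := by
    intro x hx
    rw [Finset.mem_product, hLA, hLB, mem_filter, mem_filter] at hx
    by_contra hno
    have h1 : ∀ s, ¬ (x.1 ∈ VA s ∧ x.2 ∈ VB s) := by
      intro s hs
      exact hno (Finset.mem_biUnion.2 ⟨s, mem_univ _, Finset.mem_product.2 hs⟩)
    have h2 := hcon x.1 x.2 (fun s hs hs' => h1 s ⟨hs, hs'⟩) (not_lt.1 hx.1.2)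
    exact hx.2.2 h2
  have hle : LA.card * LB.card ≤ W * H ^ 2 := by
    rw [← Finset.card_product]
    refine (Finset.card_le_card hsub).trans (Finset.card_biUnion_le.trans ?_)
    calc ∑ s : Fin W, (VA s ×ˢ VB s).card ≤ ∑ _s : Fin W, H ^ 2 := by
          refine Finset.sum_le_sum fun s _ => ?_
          rw [Finset.card_product]
          have h1 := h s
          have h2 : 4 * ((VA s).card * (VB s).card) ≤ ((VA s).card + (VB s).card) ^ 2 := by
            zify
            nlinarith [sq_nonneg (((VA s).card : ℤ) - (VB s).card)]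
          have h3 : ((VA s).card + (VB s).card) ^ 2 ≤ (2 * H) ^ 2 := Nat.pow_le_pow_left h1 2
          have h4 : (2 * H) ^ 2 = 4 * H ^ 2 := by ring
          omega
      _ = W * H ^ 2 := by
        rw [Finset.sum_const, Finset.card_univ, Fintype.card_fin, smul_eq_mul]
  have hb2 : 0 < b ^ 2 := by positivity
  have h5 : 2 * H ^ 2 * W = 2 * (W * H ^ 2) := by ring
  omega

open Classical in
theorem sparse_card {α : Type} [Fintype α] (W z : ℕ) :
    (univ.filter (fun f : Fin W → Option α => (univ.filter (fun s => (f s).isSome = true)).card ≤ z)).card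
      ≤ (1 + W * Fintype.card α) ^ z := by
  let dec : (Fin z → Option (Fin W × α)) → (Fin W → Option α) := fun g s =>
    if h : ∃ p : Fin z × α, g p.1 = some (s, p.2) then some h.choose.2 else none
  have hsub : (univ.filter (fun f : Fin W → Option α =>
      (univ.filter (fun s => (f s).isSome = true)).card ≤ z)) ⊆ univ.image dec := by
    intro f hf
    rw [mem_filter] at hf
    set S := univ.filter (fun s => (f s).isSome = true) with hS
    have hSz : S.card ≤ z := hf.2
    let e : {s // s ∈ S} ≃ Fin S.card := S.equivFin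
    let g : Fin z → Option (Fin W × α) := fun k =>
      if h : (k : ℕ) < S.card then
        (f (e.symm ⟨k, h⟩).1).map (fun a => ((e.symm ⟨k, h⟩).1, a))
      else none
    have g1 : ∀ k s a, g k = some (s, a) → f s = some a := by
      intro k s a hk
      by_cases h : (k : ℕ) < S.card
      · have h1 : g k = (f (e.symm ⟨k, h⟩).1).map (fun a => ((e.symm ⟨k, h⟩).1, a)) := dif_pos h
        rw [h1, Option.map_eq_some_iff] at hk
        obtain ⟨a', ha', hp⟩ := hk
        have h2 : (e.symm ⟨k, h⟩).1 = s := congrArg Prod.fst hp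
        have h3 : a' = a := congrArg Prod.snd hp
        rw [← h2, ha', h3]
      · have h1 : g k = none := dif_neg h
        rw [h1] at hk
        exact absurd hk (by simp)
    have g2 : ∀ s a, f s = some a → ∃ k, g k = some (s, a) := by
      intro s a hs
      have hsS : s ∈ S := by
        rw [hS, mem_filter, hs]
        exact ⟨mem_univ _, rfl⟩
      have hlt : ((e ⟨s, hsS⟩ : Fin S.card) : ℕ) < z := (e ⟨s, hsS⟩).2.trans_le hSz
      refine ⟨⟨e ⟨s, hsS⟩, hlt⟩, ?_⟩
      have h : ((⟨e ⟨s, hsS⟩, hlt⟩ : Fin z) : ℕ) < S.card := (e ⟨s, hsS⟩).2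
      have h1 : g ⟨e ⟨s, hsS⟩, hlt⟩ =
          (f (e.symm ⟨e ⟨s, hsS⟩, h⟩).1).map (fun a => ((e.symm ⟨e ⟨s, hsS⟩, h⟩).1, a)) :=
        dif_pos h
      have h2 : e.symm ⟨e ⟨s, hsS⟩, h⟩ = ⟨s, hsS⟩ := by
        rw [Fin.eta, e.symm_apply_apply]
      rw [h1, h2, hs]
      rfl
    refine Finset.mem_image.2 ⟨g, mem_univ _, ?_⟩
    funext s
    by_cases h : ∃ p : Fin z × α, g p.1 = some (s, p.2)
    · have h1 : dec g s = some h.choose.2 := dif_pos h
      rw [h1]
      exact (g1 _ _ _ h.choose_spec).symm
    · have h1 : dec g s = none := dif_neg h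
      rw [h1]
      cases hfs : f s with
      | none => rfl
      | some a =>
        obtain ⟨k, hk⟩ := g2 s a hfs
        exact absurd ⟨(k, a), hk⟩ h
  refine (Finset.card_le_card hsub).trans (Finset.card_image_le.trans (le_of_eq ?_))
  rw [Finset.card_univ, Fintype.card_fun, Fintype.card_fin, Fintype.card_option,
    Fintype.card_prod, Fintype.card_fin, add_comm]

end Pool.Agent.TS42
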