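import Pool.Agent.TS42.Base

/-!
# TS42/Fourier: the mixing lemma

`M = 2 q w`.  `ee M ξ a = exp (2 π i ξ a / M)`.

* `ee_add`, `norm_ee`: immediate.
* `sum_ee`: `∑_{ξ < M} ee M ξ a = M` if `M ∣ a`, else `0` (geometric sum of the root of unity
  `exp (2 π i a / M)`, which is `1` iff `M ∣ a`: `Complex.exp_eq_one_iff`).
* `parseval`: for a finite set `A` of integers, pairwise incongruent modulo `M`,
  `∑_{ξ < M} ‖∑_{a ∈ A} ee M ξ a‖ ^ 2 = M |A|`: expand `‖z‖^2 = z conj z`,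
  `conj (ee M ξ a) = ee M ξ (-a)`, and use `sum_ee`.
* `mixing`.  For an integer `s` with `-q w ≤ s < q w`: the number `N s` of `l` with
  `s = (l - q) w + c l` satisfies
  `N s - 1 / w = (1/M) ∑_{ξ < M} ee M ξ s * conj (Dl q w c ξ)`:
  indeed `∑_ξ ee M ξ (s - ((l - q) w + c l)) = M` if `s = (l - q) w + c l` and `0` otherwise (both
  numbers lie in `[-q w, q w)`, an interval of length `M`, so congruent means equal), and
  `∑_l ∑_z ∑_ξ ee M ξ (s - ((l-q) w + z)) = M` because `s` has exactly one representation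
  `(l - q) w + z` with `0 ≤ l < 2q`, `0 ≤ z < w`.
  Every `a ∈ A`, `b ∈ B` has `-q w ≤ a + b < q w`.  Sum over `A × B`:
  `∑_{a,b} N (a+b) - |A||B|/w = (1/M) ∑_ξ Â(ξ) B̂(ξ) conj (Dl ξ)` with `Â(ξ) = ∑_{a∈A} ee M ξ a`, so the
  left side is at least `-(t/M) ∑_ξ ‖Â‖ ‖B̂‖ ≥ -(t/M) sqrt (M|A|) sqrt (M|B|) = -t sqrt (|A||B|)` by
  Cauchy-Schwarz (`Finset.inner_mul_le_norm_mul_norm` or `Finset.sum_mul_sq_le_sq_mul_sq`) and `parseval`
  (the elements of `A ⊆ [qw, 2qw)` are incongruent modulo `M = 2qw`, same for `B`).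
  `N s ≤ 1` (indices `l` with the same value are equal), so the left sum is the number of pairs with
  `a + b` of the form `(l - q) w + c l`.
-/

namespace Pool.Agent.TS42

open Finset

theorem ee_add (M ξ : ℕ) (a b : ℤ) : ee M ξ (a + b) = ee M ξ a * ee M ξ b := by
  unfold ee
  rw [← Complex.exp_add]
  congr 1
  push_cast
  ring

theorem norm_ee (M ξ : ℕ) (a : ℤ) : ‖ee M ξ a‖ = 1 := by
  unfold ee
  have h : 2 * (Real.pi : ℂ) * Complex.I * ((ξ : ℂ) * (a : ℂ) / (M : ℂ)) =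
      ((2 * Real.pi * ((ξ : ℝ) * (a : ℝ) / (M : ℝ)) : ℝ) : ℂ) * Complex.I := by
    push_cast
    ring
  rw [h, Complex.norm_exp_ofReal_mul_I]

private theorem ee_pow (M ξ : ℕ) (a : ℤ) : ee M ξ a = (ee M 1 a) ^ ξ := by
  unfold ee
  rw [← Complex.exp_nat_mul]
  congr 1
  push_cast
  ring

private theorem ee_conj (M ξ : ℕ) (a : ℤ) : (starRingEnd ℂ) (ee M ξ a) = ee M ξ (-a) := by
  unfold ee
  rw [← Complex.exp_conj]
  congr 1
  simp only [map_mul, map_div₀, Complex.conj_I, Complex.conj_ofReal, map_natCast, map_ofNat, map_intCast]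
  push_cast
  ring

theorem sum_ee (M : ℕ) (hM : 0 < M) (a : ℤ) :
    ∑ ξ ∈ range M, ee M ξ a = if (M : ℤ) ∣ a then (M : ℂ) else 0 := by
  have hM0 : (M : ℂ) ≠ 0 := by exact_mod_cast hM.ne'
  split_ifs with h
  · obtain ⟨k, rfl⟩ := h
    have : ∀ ξ ∈ range M, ee M ξ (M * k) = 1 := by
      intro ξ _
      unfold ee
      rw [Complex.exp_eq_one_iff]
      refine ⟨ξ * k, ?_⟩
      push_cast
      field_simp
    rw [sum_congr rfl this]
    simp
  · have h1 : ∑ ξ ∈ range M, ee M ξ a = ∑ ξ ∈ range M, (ee M 1 a) ^ ξ :=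
      sum_congr rfl fun ξ _ => ee_pow M ξ a
    rw [h1]
    have h2 : (ee M 1 a) ^ M = 1 := by
      rw [← ee_pow]
      unfold ee
      rw [Complex.exp_eq_one_iff]
      refine ⟨a, ?_⟩
      field_simp
    have h3 : ee M 1 a ≠ 1 := by
      intro h4
      unfold ee at h4
      rw [Complex.exp_eq_one_iff] at h4
      obtain ⟨k, hk⟩ := h4
      apply h
      refine ⟨k, ?_⟩
      have h5 : (2 * (Real.pi : ℂ) * Complex.I) ≠ 0 := Complex.two_pi_I_ne_zero
      have h6 : ((1 : ℕ) : ℂ) * (a : ℂ) / (M : ℂ) = k := by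
        apply mul_left_cancel₀ h5
        rw [hk]
        ring
      rw [div_eq_iff hM0] at h6
      have h7 : (a : ℂ) = ((M * k : ℤ) : ℂ) := by
        push_cast
        rw [Nat.cast_one, one_mul] at h6
        rw [h6]
        ring
      exact_mod_cast h7
    have h4 := mul_neg_geom_sum (ee M 1 a) M
    rw [h2, sub_self] at h4
    rcases mul_eq_zero.1 h4 with h5 | h5
    · exact absurd (sub_eq_zero.1 h5).symm h3
    · exact h5

theorem parseval (M : ℕ) (hM : 0 < M) (A : Finset ℤ)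
    (hA : ∀ a ∈ A, ∀ b ∈ A, (M : ℤ) ∣ a - b → a = b) :
    ∑ ξ ∈ range M, ‖∑ a ∈ A, ee M ξ a‖ ^ 2 = (M : ℝ) * A.card := by
  have h1 : ∀ ξ, ((‖∑ a ∈ A, ee M ξ a‖ ^ 2 : ℝ) : ℂ) = ∑ a ∈ A, ∑ b ∈ A, ee M ξ (a - b) := by
    intro ξ
    rw [← Complex.normSq_eq_norm_sq, ← Complex.mul_conj, map_sum, sum_mul_sum]
    refine sum_congr rfl fun a _ => sum_congr rfl fun b _ => ?_
    rw [ee_conj, ← ee_add, sub_eq_add_neg]
  have h2 : ((∑ ξ ∈ range M, ‖∑ a ∈ A, ee M ξ a‖ ^ 2 : ℝ) : ℂ) = (((M : ℝ) * A.card : ℝ) : ℂ) := by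
    rw [Complex.ofReal_sum]
    simp only [h1]
    rw [sum_comm]
    have h3 : ∀ a ∈ A, ∑ ξ ∈ range M, ∑ b ∈ A, ee M ξ (a - b) = M := by
      intro a ha
      rw [sum_comm]
      simp only [sum_ee M hM]
      rw [sum_eq_single a]
      · simp
      · intro b hb hba
        rw [if_neg]
        intro hd
        exact hba (hA a ha b hb hd).symm
      · exact fun h => absurd ha h
    rw [sum_congr rfl h3]
    push_cast
    rw [sum_const, nsmul_eq_mul, mul_comm]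
  exact_mod_cast h2

private theorem uniq_idx {q w : ℕ} {l l' : Fin (2 * q)} {z z' : Fin w}
    (h : (((l : ℕ) : ℤ) - (q : ℤ)) * (w : ℤ) + ((z : ℕ) : ℤ) =
      (((l' : ℕ) : ℤ) - (q : ℤ)) * (w : ℤ) + ((z' : ℕ) : ℤ)) : l = l' ∧ z = z' := by
  have h1 : (l : ℕ) * w + (z : ℕ) = (l' : ℕ) * w + (z' : ℕ) := by
    zify
    linarith
  have hw : 0 < w := (Nat.zero_le _).trans_lt z.2
  have h2 : (l : ℕ) = l' := by
    have e1 : ((l : ℕ) * w + (z : ℕ)) / w = l := by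
      rw [mul_comm, Nat.mul_add_div hw, Nat.div_eq_of_lt z.2, add_zero]
    have e2 : ((l' : ℕ) * w + (z' : ℕ)) / w = l' := by
      rw [mul_comm, Nat.mul_add_div hw, Nat.div_eq_of_lt z'.2, add_zero]
    rw [← e1, h1, e2]
  refine ⟨Fin.ext h2, Fin.ext ?_⟩
  rw [h2] at h1
  omega

open Classical in
private theorem key (q w : ℕ) (hq : 0 < q) (hw : 0 < w) (c : Fin (2 * q) → Fin w) (s : ℤ)
    (h1 : -((q : ℤ) * w) ≤ s) (h2 : s < (q : ℤ) * w) :
    ∑ ξ ∈ range (2 * q * w), ee (2 * q * w) ξ s * (starRingEnd ℂ) (Dl q w c ξ) =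
      ((2 * q * w : ℕ) : ℂ) * ((if ∃ l : Fin (2 * q),
        s = (((l : ℕ) : ℤ) - (q : ℤ)) * (w : ℤ) + (((c l : Fin w) : ℕ) : ℤ) then 1 else 0) - 1 / (w : ℂ)) := by
  have hM : 0 < 2 * q * w := by positivity
  have hdvd : ∀ (l : Fin (2 * q)) (z : Fin w),
      (((2 * q * w : ℕ) : ℤ) ∣ s - ((((l : ℕ) : ℤ) - (q : ℤ)) * (w : ℤ) + ((z : ℕ) : ℤ)) ↔
        s = (((l : ℕ) : ℤ) - (q : ℤ)) * (w : ℤ) + ((z : ℕ) : ℤ)) := by
    intro l z
    constructor
    · intro hd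
      have hl : ((l : ℕ) : ℤ) + 1 ≤ 2 * q := by exact_mod_cast l.2
      have hl0 : (0 : ℤ) ≤ ((l : ℕ) : ℤ) := by positivity
      have hz : ((z : ℕ) : ℤ) + 1 ≤ w := by exact_mod_cast z.2
      have hz0 : (0 : ℤ) ≤ ((z : ℕ) : ℤ) := by positivity
      have hw' : (0 : ℤ) < w := by exact_mod_cast hw
      have u1 : (((l : ℕ) : ℤ) - (q : ℤ)) * (w : ℤ) + ((z : ℕ) : ℤ) < q * w := by nlinarith
      have u2 : -((q : ℤ) * w) ≤ (((l : ℕ) : ℤ) - (q : ℤ)) * (w : ℤ) + ((z : ℕ) : ℤ) := by nlinarith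
      have h3 : |s - ((((l : ℕ) : ℤ) - (q : ℤ)) * (w : ℤ) + ((z : ℕ) : ℤ))| < ((2 * q * w : ℕ) : ℤ) := by
        rw [abs_lt]
        push_cast
        constructor <;> linarith
      have h4 := Int.eq_zero_of_abs_lt_dvd hd h3
      linarith
    · intro h
      rw [← h, sub_self]
      exact dvd_zero _
  have hterm : ∀ ξ, ee (2 * q * w) ξ s * (starRingEnd ℂ) (Dl q w c ξ) =
      ∑ l : Fin (2 * q), (ee (2 * q * w) ξ (s - ((((l : ℕ) : ℤ) - (q : ℤ)) * (w : ℤ) + (((c l : Fin w) : ℕ) : ℤ)))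
      - (∑ z : Fin w, ee (2 * q * w) ξ (s - ((((l : ℕ) : ℤ) - (q : ℤ)) * (w : ℤ) + (((z : Fin w) : ℕ) : ℤ)))) / (w : ℂ)) := by
    intro ξ
    unfold Dl
    rw [map_sum, mul_sum]
    refine sum_congr rfl fun l _ => ?_
    rw [map_sub, mul_sub, map_div₀, map_sum, Complex.conj_natCast, ee_conj, ← ee_add, ← sub_eq_add_neg,
      mul_div_assoc', mul_sum]
    congr 2
    refine sum_congr rfl fun z _ => ?_
    rw [ee_conj, ← ee_add, ← sub_eq_add_neg]
  simp only [hterm]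
  rw [sum_comm]
  have h3 : ∀ l : Fin (2 * q), ∑ ξ ∈ range (2 * q * w),
      (ee (2 * q * w) ξ (s - ((((l : ℕ) : ℤ) - (q : ℤ)) * (w : ℤ) + (((c l : Fin w) : ℕ) : ℤ)))
      - (∑ z : Fin w, ee (2 * q * w) ξ (s - ((((l : ℕ) : ℤ) - (q : ℤ)) * (w : ℤ) + (((z : Fin w) : ℕ) : ℤ)))) / (w : ℂ)) =
      ((2 * q * w : ℕ) : ℂ) * ((if s = (((l : ℕ) : ℤ) - (q : ℤ)) * (w : ℤ) + (((c l : Fin w) : ℕ) : ℤ) then 1 else 0)
        - (∑ z : Fin w, if s = (((l : ℕ) : ℤ) - (q : ℤ)) * (w : ℤ) + (((z : Fin w) : ℕ) : ℤ) then 1 else 0) / (w : ℂ)) := by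
    intro l
    rw [sum_sub_distrib, sum_ee _ hM, ← sum_div, sum_comm]
    simp only [sum_ee _ hM, hdvd]
    rw [mul_sub, mul_div_assoc', mul_sum]
    simp only [mul_ite, mul_one, mul_zero]
  simp only [h3]
  rw [← mul_sum]
  congr 1
  rw [sum_sub_distrib, ← sum_div]
  congr 1
  · split_ifs with hex
    · obtain ⟨l, hl⟩ := hex
      rw [sum_eq_single l]
      · rw [if_pos hl]
      · intro l' _ hne
        rw [if_neg]
        intro h
        rw [hl] at h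
        exact hne (uniq_idx h).1.symm
      · exact fun h => absurd (mem_univ _) h
    · apply sum_eq_zero
      intro l _
      rw [if_neg]
      exact fun h => hex ⟨l, h⟩
  · congr 1
    have hw' : (0 : ℤ) < w := by exact_mod_cast hw
    obtain ⟨r, hr⟩ : ∃ r : ℕ, (r : ℤ) = s + q * w := ⟨(s + q * w).toNat, Int.toNat_of_nonneg (by linarith)⟩
    have hr2 : r < 2 * q * w := by
      zify
      linarith
    have hrw : r / w < 2 * q := by
      rw [Nat.div_lt_iff_lt_mul hw]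
      exact hr2
    have hsr : s = (((r / w : ℕ) : ℤ) - (q : ℤ)) * (w : ℤ) + ((r % w : ℕ) : ℤ) := by
      have h5 : ((w * (r / w) + r % w : ℕ) : ℤ) = r := by rw [Nat.div_add_mod]
      push_cast at h5 ⊢
      linarith
    rw [sum_eq_single ⟨r / w, hrw⟩]
    · rw [sum_eq_single ⟨r % w, Nat.mod_lt _ hw⟩]
      · rw [if_pos]
        exact hsr
      · intro z _ hne
        rw [if_neg]
        intro h
        apply hne
        have := (uniq_idx (l := ⟨r / w, hrw⟩) (l' := ⟨r / w, hrw⟩) (z := ⟨r % w, Nat.mod_lt _ hw⟩) (z' := z)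
          (hsr.symm.trans h)).2
        exact this.symm
      · exact fun h => absurd (mem_univ _) h
    · intro l _ hne
      apply sum_eq_zero
      intro z _
      rw [if_neg]
      intro h
      apply hne
      have := (uniq_idx (l := ⟨r / w, hrw⟩) (l' := l) (z := ⟨r % w, Nat.mod_lt _ hw⟩) (z' := z)
        (hsr.symm.trans h)).1
      exact this.symm
    · exact fun h => absurd (mem_univ _) h

open Classical in
theorem mixing (q w : ℕ) (hq : 0 < q) (hw : 0 < w) (t : ℝ) (ht : 0 ≤ t) (c : Fin (2 * q) → Fin w)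
    (hc : Good q w t c) (A B : Finset ℤ)
    (hA : ∀ a ∈ A, (q : ℤ) * w ≤ a ∧ a < 2 * q * w)
    (hB : ∀ b ∈ B, -(2 * q * w : ℤ) ≤ b ∧ b < -((q : ℤ) * w)) :
    (A.card : ℝ) * B.card / w - t * Real.sqrt ((A.card : ℝ) * B.card) ≤
      (((A ×ˢ B).filter (fun ab => ∃ l : Fin (2 * q),
        ab.1 + ab.2 = (((l : ℕ) : ℤ) - (q : ℤ)) * (w : ℤ) + (((c l : Fin w) : ℕ) : ℤ))).card : ℝ) := by
  have hM : 0 < 2 * q * w := by positivity
  have hMr : (0 : ℝ) < ((2 * q * w : ℕ) : ℝ) := by exact_mod_cast hM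
  set M := 2 * q * w with hMdef
  set K : ℝ := (((A ×ˢ B).filter (fun ab => ∃ l : Fin (2 * q),
        ab.1 + ab.2 = (((l : ℕ) : ℤ) - (q : ℤ)) * (w : ℤ) + (((c l : Fin w) : ℕ) : ℤ))).card : ℝ) with hK
  set FA : ℕ → ℂ := fun ξ => ∑ a ∈ A, ee M ξ a with hFA
  set FB : ℕ → ℂ := fun ξ => ∑ b ∈ B, ee M ξ b with hFB
  have hid : ∑ ξ ∈ range M, FA ξ * FB ξ * (starRingEnd ℂ) (Dl q w c ξ) =
      ((M * (K - A.card * B.card / w) : ℝ) : ℂ) := by
    have e1 : ∀ ξ, FA ξ * FB ξ * (starRingEnd ℂ) (Dl q w c ξ) =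
        ∑ ab ∈ A ×ˢ B, ee M ξ (ab.1 + ab.2) * (starRingEnd ℂ) (Dl q w c ξ) := by
      intro ξ
      rw [hFA, hFB, sum_mul_sum, ← sum_product', sum_mul]
      refine sum_congr rfl fun ab _ => ?_
      rw [ee_add]
    simp only [e1]
    rw [sum_comm]
    have e2 : ∀ ab ∈ A ×ˢ B, ∑ ξ ∈ range M, ee M ξ (ab.1 + ab.2) * (starRingEnd ℂ) (Dl q w c ξ) =
        (M : ℂ) * ((if ∃ l : Fin (2 * q), ab.1 + ab.2 =
          (((l : ℕ) : ℤ) - (q : ℤ)) * (w : ℤ) + (((c l : Fin w) : ℕ) : ℤ) then 1 else 0) - 1 / (w : ℂ)) := by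
      rintro ⟨a, b⟩ hab
      rw [mem_product] at hab
      have ha := hA a hab.1
      have hb := hB b hab.2
      refine key q w hq hw c (a + b) ?_ ?_
      · linarith [ha.1, hb.1]
      · linarith [ha.2, hb.2]
    rw [sum_congr rfl e2, ← mul_sum, sum_sub_distrib, ← sum_filter, sum_const, sum_const, card_product]
    rw [hK]
    simp only [nsmul_eq_mul, mul_one]
    push_cast
    ring
  have hbound : ‖∑ ξ ∈ range M, FA ξ * FB ξ * (starRingEnd ℂ) (Dl q w c ξ)‖ ≤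
      t * ∑ ξ ∈ range M, ‖FA ξ‖ * ‖FB ξ‖ := by
    refine (norm_sum_le _ _).trans ?_
    rw [mul_sum]
    refine sum_le_sum fun ξ hξ => ?_
    rw [norm_mul, norm_mul, RCLike.norm_conj, mul_comm t]
    exact mul_le_mul_of_nonneg_left (hc ξ (mem_range.1 hξ)) (by positivity)
  have hCS : (∑ ξ ∈ range M, ‖FA ξ‖ * ‖FB ξ‖) ^ 2 ≤
      (∑ ξ ∈ range M, ‖FA ξ‖ ^ 2) * ∑ ξ ∈ range M, ‖FB ξ‖ ^ 2 :=
    sum_mul_sq_le_sq_mul_sq _ _ _
  have hpA : ∑ ξ ∈ range M, ‖FA ξ‖ ^ 2 = (M : ℝ) * A.card := by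
    refine parseval M hM A ?_
    intro a ha b hb hd
    have h1 := hA a ha
    have h2 := hA b hb
    have hqw : (0 : ℤ) < q * w := by positivity
    have h3 : |a - b| < (M : ℤ) := by
      rw [abs_lt, hMdef]
      push_cast
      constructor <;> linarith
    have := Int.eq_zero_of_abs_lt_dvd hd h3
    linarith
  have hpB : ∑ ξ ∈ range M, ‖FB ξ‖ ^ 2 = (M : ℝ) * B.card := by
    refine parseval M hM B ?_
    intro a ha b hb hd
    have h1 := hB a ha
    have h2 := hB b hb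
    have hqw : (0 : ℤ) < q * w := by positivity
    have h3 : |a - b| < (M : ℤ) := by
      rw [abs_lt, hMdef]
      push_cast
      constructor <;> linarith
    have := Int.eq_zero_of_abs_lt_dvd hd h3
    linarith
  rw [hpA, hpB] at hCS
  have hCS2 : ∑ ξ ∈ range M, ‖FA ξ‖ * ‖FB ξ‖ ≤ M * Real.sqrt ((A.card : ℝ) * B.card) := by
    have h0 : 0 ≤ (M : ℝ) * Real.sqrt ((A.card : ℝ) * B.card) := by positivity
    refine le_of_sq_le_sq ?_ h0
    refine hCS.trans (le_of_eq ?_)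
    rw [mul_pow, Real.sq_sqrt (by positivity)]
    ring
  have hfin : |(M : ℝ) * (K - A.card * B.card / w)| ≤ t * (M * Real.sqrt ((A.card : ℝ) * B.card)) := by
    have h1 := hbound
    rw [hid, Complex.norm_real, Real.norm_eq_abs] at h1
    exact h1.trans (mul_le_mul_of_nonneg_left hCS2 ht)
  have h2 := (abs_le.1 hfin).1
  have h3 : (M : ℝ) * (-(t * Real.sqrt ((A.card : ℝ) * B.card))) ≤ M * (K - A.card * B.card / w) := by
    linarith
  have h4 := le_of_mul_le_mul_left h3 hMr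
  linarith

end Pool.Agent.TS42
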