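import Pool.Agent.TS42.Tail
import Pool.Agent.TS42.Fourier

/-!
# TS42/GoodCard: almost all middle halves are good

`q = n / 4`, `w = n ^ 2`, `L = 2 q`, `M = 2 q w`, `s = tt n / 2`.  For fixed `ξ < M` apply `tail` with
`f l z = ee M ξ ((l - q) w + z)`; `0 ≤ s ≤ L` because `tt n ^ 2 = 24 n log₂ n ≤ 16 q^2` for `n ≥ 200`
(`4 q ≥ n - 3`, so `16 q^2 ≥ (n-3)^2 ≥ 24 n log₂ n`; use e.g. `log₂ n ≤ sqrt n / 1.83` or
`log₂ n ≤ n / 26 + 3`... any convenient proof: for `n ≥ 200`, `log₂ n ≤ 0.96 (n-3)^2/(24 n)`; a simple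
way: `log₂ n = log₂ 200 + log₂ (n/200) ≤ 7.65 + (n/200 - 1)/ln 2 ≤ 7.65 + 1.4427 (n/200 - 1)`,
and `24 n (7.65 + 1.4427 (n/200 - 1)) ≤ (n - 3)^2` for `n ≥ 200`).
`s^2 / (4 L) = 24 n log₂ n / (32 q) ≥ 3 log₂ n` since `4 q ≤ n`.  `exp (-3 log₂ n) ≤ n^(-4)`
(`log₂ n = ln n / ln 2`, `3 / ln 2 ≥ 4`).  So the number of the `c` which are bad at `ξ` is at most
`4 n^(-4) w^L`, and the sum over the `M ≤ n^3 / 2` frequencies is at most `2 w^L / n ≤ w^L / 8`.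
-/

namespace Pool.Agent.TS42

open Finset

private theorem h91_logb_le (n : ℕ) (hn : 200 ≤ n) :
    Real.logb 2 n ≤ 7.65 + 1.4427 * ((n : ℝ) / 200 - 1) := by
  have hn' : (200 : ℝ) ≤ n := by exact_mod_cast hn
  have hl2 : 0 < Real.log 2 := Real.log_pos (by norm_num)
  have h2 : (0.6931471803 : ℝ) < Real.log 2 := Real.log_two_gt_d9
  have h200 : Real.log 200 ≤ 7.65 * Real.log 2 := by
    have h : Real.log ((200 : ℝ) ^ 20) ≤ Real.log ((2 : ℝ) ^ 153) :=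
      Real.log_le_log (by positivity) (by norm_num)
    rw [Real.log_pow, Real.log_pow] at h
    push_cast at h
    linarith
  have hq : Real.log ((n : ℝ) / 200) ≤ (n : ℝ) / 200 - 1 :=
    Real.log_le_sub_one_of_pos (by positivity)
  have hsplit : Real.log n = Real.log 200 + Real.log ((n : ℝ) / 200) := by
    rw [Real.log_div (by positivity) (by norm_num)]; ring
  have h0 : (0 : ℝ) ≤ (n : ℝ) / 200 - 1 := by
    rw [sub_nonneg, le_div_iff₀ (by norm_num)]; linarith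
  rw [Real.logb, div_le_iff₀ hl2, hsplit]
  have : (1 : ℝ) ≤ 1.4427 * Real.log 2 := by nlinarith
  nlinarith

private theorem h91_logb_nonneg (n : ℕ) (hn : 200 ≤ n) : 0 ≤ Real.logb 2 n := by
  have hn' : (200 : ℝ) ≤ n := by exact_mod_cast hn
  exact Real.logb_nonneg (by norm_num) (by linarith)

private theorem h91_tt_sq (n : ℕ) (hn : 200 ≤ n) : tt n ^ 2 = 24 * n * Real.logb 2 n := by
  unfold tt
  exact Real.sq_sqrt (mul_nonneg (by positivity) (h91_logb_nonneg n hn))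

theorem tt_le (n : ℕ) (hn : 200 ≤ n) : tt n ≤ 4 * (n / 4 : ℕ) := by
  have hn' : (200 : ℝ) ≤ n := by exact_mod_cast hn
  have hlog := h91_logb_le n hn
  have h4 : (n : ℝ) - 3 ≤ 4 * ((n / 4 : ℕ) : ℝ) := by
    have : n ≤ 4 * (n / 4) + 3 := by omega
    have : (n : ℝ) ≤ 4 * ((n / 4 : ℕ) : ℝ) + 3 := by exact_mod_cast this
    linarith
  have key : 24 * (n : ℝ) * Real.logb 2 n ≤ (n - 3) ^ 2 := by
    have h1 : 24 * (n : ℝ) * Real.logb 2 n ≤ 24 * n * (7.65 + 1.4427 * ((n : ℝ) / 200 - 1)) :=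
      mul_le_mul_of_nonneg_left hlog (by positivity)
    have h2 : 24 * (n : ℝ) * (7.65 + 1.4427 * ((n : ℝ) / 200 - 1)) ≤ (n - 3) ^ 2 := by
      nlinarith
    linarith
  unfold tt
  refine Real.sqrt_le_iff.mpr ⟨by positivity, key.trans ?_⟩
  exact pow_le_pow_left₀ (by linarith) h4 2

open Classical in
theorem good_card (n : ℕ) (hn : 200 ≤ n) :
    8 * (univ.filter (fun c : Fin (2 * (n / 4)) → Fin (n ^ 2) => ¬ Good (n / 4) (n ^ 2) (tt n) c)).card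
      ≤ (n ^ 2) ^ (2 * (n / 4)) := by
  have hn' : (200 : ℝ) ≤ n := by exact_mod_cast hn
  have hn0 : (0 : ℝ) < n := by linarith
  have htsq := h91_tt_sq n hn
  have htle := tt_le n hn
  have ht0 : 0 ≤ tt n := Real.sqrt_nonneg _
  have hlog0 := h91_logb_nonneg n hn
  have hw : 0 < n ^ 2 := by positivity
  have hq4 : 4 * ((n / 4 : ℕ) : ℝ) ≤ n := by
    have : 4 * (n / 4) ≤ n := by omega
    exact_mod_cast this
  have hq0 : (0 : ℝ) < ((n / 4 : ℕ) : ℝ) := by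
    have : 0 < n / 4 := by omega
    exact_mod_cast this
  -- bound for a fixed frequency
  have hfix : ∀ ξ : ℕ,
      ((univ.filter (fun c : Fin (2 * (n / 4)) → Fin (n ^ 2) =>
        tt n ≤ ‖Dl (n / 4) (n ^ 2) c ξ‖)).card : ℝ) ≤
        4 * ((n : ℝ) ^ 4)⁻¹ * ((n ^ 2 : ℕ) : ℝ) ^ (2 * (n / 4)) := by
    intro ξ
    have h := tail (2 * (n / 4)) (n ^ 2) hw
      (fun l z => ee (2 * (n / 4) * (n ^ 2)) ξ
        ((((l : ℕ) : ℤ) - ((n / 4 : ℕ) : ℤ)) * ((n ^ 2 : ℕ) : ℤ) + (((z : Fin (n ^ 2)) : ℕ) : ℤ)))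
      (fun l z => (norm_ee _ _ _).le) (tt n / 2) (by linarith) (by push_cast; linarith)
    have hset : (univ.filter (fun c : Fin (2 * (n / 4)) → Fin (n ^ 2) =>
        tt n ≤ ‖Dl (n / 4) (n ^ 2) c ξ‖)) =
        (univ.filter (fun c : Fin (2 * (n / 4)) → Fin (n ^ 2) =>
          2 * (tt n / 2) ≤ ‖∑ l, ((fun (l : Fin (2 * (n / 4))) (z : Fin (n ^ 2)) =>
            ee (2 * (n / 4) * (n ^ 2)) ξ
        ((((l : ℕ) : ℤ) - ((n / 4 : ℕ) : ℤ)) * ((n ^ 2 : ℕ) : ℤ) + (((z : Fin (n ^ 2)) : ℕ) : ℤ))) l (c l)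
            - (∑ z, (fun (l : Fin (2 * (n / 4))) (z : Fin (n ^ 2)) =>
            ee (2 * (n / 4) * (n ^ 2)) ξ
        ((((l : ℕ) : ℤ) - ((n / 4 : ℕ) : ℤ)) * ((n ^ 2 : ℕ) : ℤ) + (((z : Fin (n ^ 2)) : ℕ) : ℤ))) l z) /
              ((n ^ 2 : ℕ) : ℂ))‖)) := by
      apply Finset.filter_congr
      intro c _
      have : 2 * (tt n / 2) = tt n := by ring
      rw [this]
      rfl
    rw [hset]
    refine h.trans ?_
    refine mul_le_mul_of_nonneg_right ?_ (by positivity)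
    refine mul_le_mul_of_nonneg_left ?_ (by norm_num)
    -- exponential bound
    have hl2 : 0 < Real.log 2 := Real.log_pos (by norm_num)
    have hl2' : Real.log 2 < 0.6931471808 := Real.log_two_lt_d9
    have hlogn : 0 ≤ Real.log n := Real.log_nonneg (by linarith)
    have h1 : 4 * Real.log n ≤ 3 * Real.logb 2 n := by
      rw [Real.logb, mul_div_assoc', le_div_iff₀ hl2]
      nlinarith
    have h2 : 3 * Real.logb 2 n ≤ (tt n / 2) ^ 2 / (4 * ((2 * (n / 4) : ℕ) : ℝ)) := by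
      rw [le_div_iff₀ (by push_cast; positivity)]
      push_cast
      rw [div_pow, htsq]
      nlinarith
    have h3 : -(tt n / 2) ^ 2 / (4 * ((2 * (n / 4) : ℕ) : ℝ)) ≤ -(4 * Real.log n) := by
      rw [neg_div]
      linarith
    calc Real.exp (-(tt n / 2) ^ 2 / (4 * ((2 * (n / 4) : ℕ) : ℝ)))
        ≤ Real.exp (-(4 * Real.log n)) := Real.exp_le_exp.mpr h3
      _ = ((n : ℝ) ^ 4)⁻¹ := by
          rw [Real.exp_neg]
          congr 1
          rw [show (4 : ℝ) * Real.log n = ((4 : ℕ) : ℝ) * Real.log n by norm_num,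
            ← Real.log_pow, Real.exp_log (by positivity)]
  -- union bound
  have hsub : (univ.filter (fun c : Fin (2 * (n / 4)) → Fin (n ^ 2) =>
      ¬ Good (n / 4) (n ^ 2) (tt n) c)) ⊆
      (range (2 * (n / 4) * n ^ 2)).biUnion (fun ξ =>
        univ.filter (fun c : Fin (2 * (n / 4)) → Fin (n ^ 2) =>
          tt n ≤ ‖Dl (n / 4) (n ^ 2) c ξ‖)) := by
    intro c hc
    rw [mem_filter] at hc
    have hc2 := hc.2
    unfold Good at hc2
    push Not at hc2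
    obtain ⟨ξ, hξ, hlt⟩ := hc2
    rw [mem_biUnion]
    exact ⟨ξ, mem_range.mpr hξ, mem_filter.mpr ⟨mem_univ _, hlt.le⟩⟩
  have hcard : ((univ.filter (fun c : Fin (2 * (n / 4)) → Fin (n ^ 2) =>
      ¬ Good (n / 4) (n ^ 2) (tt n) c)).card : ℝ) ≤
      ((2 * (n / 4) * n ^ 2 : ℕ) : ℝ) *
        (4 * ((n : ℝ) ^ 4)⁻¹ * ((n ^ 2 : ℕ) : ℝ) ^ (2 * (n / 4))) := by
    have h1 := (Finset.card_le_card hsub).trans Finset.card_biUnion_le
    have h2 : ((univ.filter (fun c : Fin (2 * (n / 4)) → Fin (n ^ 2) =>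
      ¬ Good (n / 4) (n ^ 2) (tt n) c)).card : ℝ) ≤
      ∑ ξ ∈ range (2 * (n / 4) * n ^ 2),
        ((univ.filter (fun c : Fin (2 * (n / 4)) → Fin (n ^ 2) =>
          tt n ≤ ‖Dl (n / 4) (n ^ 2) c ξ‖)).card : ℝ) := by exact_mod_cast h1
    refine h2.trans ?_
    refine (Finset.sum_le_sum (fun ξ _ => hfix ξ)).trans ?_
    rw [Finset.sum_const, card_range, nsmul_eq_mul]
  have hM : ((2 * (n / 4) * n ^ 2 : ℕ) : ℝ) ≤ (n : ℝ) ^ 3 / 2 := by
    push_cast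
    nlinarith [pow_pos hn0 2]
  have hW : (0 : ℝ) ≤ ((n ^ 2 : ℕ) : ℝ) ^ (2 * (n / 4)) := by positivity
  have hfinal : (8 : ℝ) * ((univ.filter (fun c : Fin (2 * (n / 4)) → Fin (n ^ 2) =>
      ¬ Good (n / 4) (n ^ 2) (tt n) c)).card : ℝ) ≤ ((n ^ 2 : ℕ) : ℝ) ^ (2 * (n / 4)) := by
    calc (8 : ℝ) * ((univ.filter (fun c : Fin (2 * (n / 4)) → Fin (n ^ 2) =>
        ¬ Good (n / 4) (n ^ 2) (tt n) c)).card : ℝ)
        ≤ 8 * (((2 * (n / 4) * n ^ 2 : ℕ) : ℝ) *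
          (4 * ((n : ℝ) ^ 4)⁻¹ * ((n ^ 2 : ℕ) : ℝ) ^ (2 * (n / 4)))) :=
          mul_le_mul_of_nonneg_left hcard (by norm_num)
      _ ≤ 8 * ((n : ℝ) ^ 3 / 2 *
          (4 * ((n : ℝ) ^ 4)⁻¹ * ((n ^ 2 : ℕ) : ℝ) ^ (2 * (n / 4)))) := by
          refine mul_le_mul_of_nonneg_left ?_ (by norm_num)
          exact mul_le_mul_of_nonneg_right hM (by positivity)
      _ = (16 / (n : ℝ)) * ((n ^ 2 : ℕ) : ℝ) ^ (2 * (n / 4)) := by
          field_simp
          ring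
      _ ≤ 1 * ((n ^ 2 : ℕ) : ℝ) ^ (2 * (n / 4)) := by
          refine mul_le_mul_of_nonneg_right ?_ hW
          rw [div_le_one hn0]
          linarith
      _ = _ := one_mul _
  exact_mod_cast hfinal

end Pool.Agent.TS42
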