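import Mathlib

/-!
# TS42/Proj: projections of a dense set

`card_le_prod_image`: `U ⊆ ∏ (U.image (eval i))` (`Fintype.piFinset`, `Fintype.card_piFinset`).

`sum_image_ge`: with `m = |G| > 0` and `p i = |U.image (eval i)|`: `|U| ≤ ∏ p i`, so by AM-GM
(`Real.inner_le_nnorm_mul_nnorm` is NOT needed; use `Real.geom_mean_le_arith_mean_weighted` or
`inner_le...`; simplest: `Real.inner_prod_le`..., or `Real.geom_mean_le_arith_mean` with weights 1/m)
`(∑ p i / m)^m ≥ ∏ p i ≥ |U|`.
-/

namespace Pool.Agent.TS42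

open Finset

theorem card_le_prod_image {G : Type} [Fintype G] [DecidableEq G] {w : ℕ} (U : Finset (G → Fin w)) :
    U.card ≤ ∏ i : G, (U.image (fun u => u i)).card := by
  calc U.card ≤ (Fintype.piFinset fun i : G => U.image (fun u => u i)).card := by
        refine Finset.card_le_card ?_
        intro u hu
        rw [Fintype.mem_piFinset]
        intro i
        exact Finset.mem_image_of_mem (fun u : G → Fin w => u i) hu
    _ = ∏ i : G, (U.image (fun u => u i)).card := Fintype.card_piFinset _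

/-- AM-GM form: `|U| ≤ ((∑ |pr_i U|) / m) ^ m`. -/
theorem sum_image_ge {G : Type} [Fintype G] [DecidableEq G] {w : ℕ} (U : Finset (G → Fin w))
    (hG : 0 < Fintype.card G) :
    (U.card : ℝ) ≤ ((∑ i : G, ((U.image (fun u => u i)).card : ℝ)) / (Fintype.card G : ℝ)) ^ (Fintype.card G) := by
  have h1 : (U.card : ℝ) ≤ ∏ i : G, ((U.image (fun u => u i)).card : ℝ) := by
    have := card_le_prod_image U
    calc (U.card : ℝ) ≤ ((∏ i : G, (U.image (fun u => u i)).card : ℕ) : ℝ) := by exact_mod_cast this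
      _ = ∏ i : G, ((U.image (fun u => u i)).card : ℝ) := by push_cast; rfl
  refine h1.trans ?_
  have hm : (0 : ℝ) < (Fintype.card G : ℝ) := by exact_mod_cast hG
  have hnn : ∀ i ∈ (Finset.univ : Finset G), (0 : ℝ) ≤ ((U.image (fun u => u i)).card : ℝ) :=
    fun i _ => Nat.cast_nonneg _
  have hPnn : (0 : ℝ) ≤ ∏ i : G, ((U.image (fun u => u i)).card : ℝ) := Finset.prod_nonneg hnn
  have h3 := Real.geom_mean_le_arith_mean_weighted (Finset.univ : Finset G)
    (fun _ => (Fintype.card G : ℝ)⁻¹) (fun i => ((U.image (fun u => u i)).card : ℝ))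
    (fun i _ => by positivity)
    (by rw [Finset.sum_const, Finset.card_univ, nsmul_eq_mul, mul_inv_cancel₀ hm.ne']) hnn
  have h4 : ∏ i : G, ((U.image (fun u => u i)).card : ℝ) ^ (Fintype.card G : ℝ)⁻¹ =
      (∏ i : G, ((U.image (fun u => u i)).card : ℝ)) ^ (Fintype.card G : ℝ)⁻¹ :=
    Real.finset_prod_rpow Finset.univ _ hnn _
  have h5 : ∑ i : G, (Fintype.card G : ℝ)⁻¹ * ((U.image (fun u => u i)).card : ℝ) =
      (∑ i : G, ((U.image (fun u => u i)).card : ℝ)) / (Fintype.card G : ℝ) := by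
    rw [← Finset.mul_sum, div_eq_inv_mul]
  rw [h4, h5] at h3
  have h6 : (0 : ℝ) ≤ (∏ i : G, ((U.image (fun u => u i)).card : ℝ)) ^ (Fintype.card G : ℝ)⁻¹ :=
    Real.rpow_nonneg hPnn _
  calc ∏ i : G, ((U.image (fun u => u i)).card : ℝ)
      = ((∏ i : G, ((U.image (fun u => u i)).card : ℝ)) ^ (Fintype.card G : ℝ)⁻¹) ^
          (Fintype.card G) := by
        rw [← Real.rpow_natCast, ← Real.rpow_mul hPnn, inv_mul_cancel₀ hm.ne', Real.rpow_one]
    _ ≤ ((∑ i : G, ((U.image (fun u => u i)).card : ℝ)) / (Fintype.card G : ℝ)) ^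
          (Fintype.card G) := pow_le_pow_left₀ h6 h3 _

end Pool.Agent.TS42
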