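import Pool.Agent.TS42.Fourier
import Pool.Agent.TS42.Proj

/-!
# TS42/Rect: a dense rectangle contains a solution

Let `A` be the set of the numbers `(q + i) w + u i`, `u ∈ U`, `i ∈ GA`.  Numbers with different `i`
are different, so `|A| = ∑_i |pr_i U|` and by `sum_image_ge` `(|A| / m)^m ≥ |U| ≥ w^m / D`.  Same for
`B`.  So `x = sqrt (|A| |B|)` satisfies `x^m ≥ (m w)^m / D > (t w)^m` by `hD` (`D t^m < m^m`), hence
`x > t w`, and `|A||B|/w - t x = x (x / w - t) > 0`: by `mixing` there is a pair.  (All elements of `A`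
lie in `[q w, 2 q w)`, all elements of `B` in `[-2 q w, -q w)`.)
-/

namespace Pool.Agent.TS42

open Finset

private theorem card_A {G : Type} [Fintype G] [DecidableEq G] {w : ℕ} (hw : 0 < w)
    (U : Finset (G → Fin w)) (o : G → ℤ) (ho : Function.Injective o) :
    (univ.biUnion (fun i : G => (U.image (fun u => u i)).image
      (fun z : Fin w => o i * (w : ℤ) + ((z : ℕ) : ℤ)))).card = ∑ i : G, (U.image (fun u => u i)).card := by
  have hwz : (0 : ℤ) < (w : ℤ) := by exact_mod_cast hw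
  have key : ∀ (x y : ℤ) (z z' : Fin w), x * (w : ℤ) + ((z : ℕ) : ℤ) = y * (w : ℤ) + ((z' : ℕ) : ℤ) →
      x = y := by
    intro x y z z' h
    have hz : (((z : ℕ) : ℤ)) < w := by exact_mod_cast z.2
    have hz' : (((z' : ℕ) : ℤ)) < w := by exact_mod_cast z'.2
    have hz0 : (0 : ℤ) ≤ ((z : ℕ) : ℤ) := by positivity
    have hz0' : (0 : ℤ) ≤ ((z' : ℕ) : ℤ) := by positivity
    by_contra hne
    rcases lt_or_gt_of_ne hne with h1 | h1
    · have : (x + 1) * (w : ℤ) ≤ y * w := mul_le_mul_of_nonneg_right (by omega) hwz.le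
      nlinarith
    · have : (y + 1) * (w : ℤ) ≤ x * w := mul_le_mul_of_nonneg_right (by omega) hwz.le
      nlinarith
  rw [card_biUnion]
  · refine sum_congr rfl fun i _ => ?_
    apply card_image_of_injective
    intro z z' h
    have h' : o i * (w : ℤ) + ((z : ℕ) : ℤ) = o i * (w : ℤ) + ((z' : ℕ) : ℤ) := h
    apply Fin.ext
    have : ((z : ℕ) : ℤ) = ((z' : ℕ) : ℤ) := by linarith
    exact_mod_cast this
  · intro i _ j _ hij
    show Disjoint (image (fun z : Fin w => o i * (w : ℤ) + ((z : ℕ) : ℤ)) (image (fun u => u i) U))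
      (image (fun z : Fin w => o j * (w : ℤ) + ((z : ℕ) : ℤ)) (image (fun u => u j) U))
    rw [Finset.disjoint_left]
    intro a ha hb
    rw [mem_image] at ha hb
    obtain ⟨z, _, rfl⟩ := ha
    obtain ⟨z', _, h⟩ := hb
    exact hij (ho (key _ _ z z' h.symm))

private theorem dens {G : Type} [Fintype G] [DecidableEq G] {w m : ℕ} (hm : 0 < m)
    (hG : Fintype.card G = m) (U : Finset (G → Fin w)) (D : ℝ) (hD0 : 0 < D)
    (hU : (w : ℝ) ^ m ≤ D * U.card) (S : ℝ)
    (hS : S = ((∑ i : G, (U.image (fun u => u i)).card : ℕ) : ℝ)) :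
    ((m : ℝ) * w) ^ m ≤ D * S ^ m := by
  have h1 := sum_image_ge U (by rw [hG]; exact hm)
  rw [hG] at h1
  have hS' : S = ∑ i : G, ((U.image (fun u => u i)).card : ℝ) := by rw [hS]; push_cast; rfl
  rw [← hS'] at h1
  have hmr : (0 : ℝ) < (m : ℝ) := by exact_mod_cast hm
  have h2 : (w : ℝ) ^ m ≤ D * (S / m) ^ m := hU.trans (mul_le_mul_of_nonneg_left h1 hD0.le)
  have h3 : (m : ℝ) ^ m * (w : ℝ) ^ m ≤ (m : ℝ) ^ m * (D * (S / m) ^ m) :=
    mul_le_mul_of_nonneg_left h2 (by positivity)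
  have h4 : (m : ℝ) ^ m * (D * (S / m) ^ m) = D * S ^ m := by
    rw [div_pow]
    field_simp
  rw [mul_pow]
  rw [h4] at h3
  exact h3

theorem rect (q w m : ℕ) (hq : 0 < q) (hw : 0 < w) (hm : 0 < m) (t : ℝ) (ht : 0 ≤ t)
    (c : Fin (2 * q) → Fin w) (hc : Good q w t c) (GA GB : Finset (Fin q))
    (hGA : GA.card = m) (hGB : GB.card = m)
    (U : Finset ({i // i ∈ GA} → Fin w)) (V : Finset ({j // j ∈ GB} → Fin w)) (D : ℝ) (hD0 : 0 < D)
    (hU : (w : ℝ) ^ m ≤ D * U.card) (hV : (w : ℝ) ^ m ≤ D * V.card)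
    (hD : D * t ^ m < (m : ℝ) ^ m) :
    ∃ u ∈ U, ∃ v ∈ V, ∃ i : {i // i ∈ GA}, ∃ j : {j // j ∈ GB}, ∃ l : Fin (2 * q),
      ((q : ℤ) + ((i : Fin q) : ℕ)) * (w : ℤ) + ((u i : Fin w) : ℕ)
        + ((-(2 * (q : ℤ)) + ((j : Fin q) : ℕ)) * (w : ℤ) + ((v j : Fin w) : ℕ))
      = (((l : ℕ) : ℤ) - (q : ℤ)) * (w : ℤ) + (((c l : Fin w) : ℕ) : ℤ) := by
  classical
  have hwr : (0 : ℝ) < (w : ℝ) := by exact_mod_cast hw
  have hmr : (0 : ℝ) < (m : ℝ) := by exact_mod_cast hm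
  have hwz : (0 : ℤ) < (w : ℤ) := by exact_mod_cast hw
  set oA : {i // i ∈ GA} → ℤ := fun i => (q : ℤ) + ((i : Fin q) : ℕ) with hoA
  set oB : {j // j ∈ GB} → ℤ := fun j => -(2 * (q : ℤ)) + ((j : Fin q) : ℕ) with hoB
  have hoAi : Function.Injective oA := by
    intro i i' h
    simp only [hoA] at h
    apply Subtype.ext
    apply Fin.ext
    omega
  have hoBi : Function.Injective oB := by
    intro i i' h
    simp only [hoB] at h
    apply Subtype.ext
    apply Fin.ext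
    omega
  set A : Finset ℤ := univ.biUnion (fun i : {i // i ∈ GA} => (U.image (fun u => u i)).image
      (fun z : Fin w => oA i * (w : ℤ) + ((z : ℕ) : ℤ))) with hA
  set B : Finset ℤ := univ.biUnion (fun j : {j // j ∈ GB} => (V.image (fun v => v j)).image
      (fun z : Fin w => oB j * (w : ℤ) + ((z : ℕ) : ℤ))) with hB
  have hAc := card_A hw U oA hoAi
  have hBc := card_A hw V oB hoBi
  rw [← hA] at hAc
  rw [← hB] at hBc
  have hGA' : Fintype.card {i // i ∈ GA} = m := by rw [Fintype.card_coe, hGA]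
  have hGB' : Fintype.card {j // j ∈ GB} = m := by rw [Fintype.card_coe, hGB]
  have dA := dens hm hGA' U D hD0 hU (A.card : ℝ) (by rw [hAc])
  have dB := dens hm hGB' V D hD0 hV (B.card : ℝ) (by rw [hBc])
  set x : ℝ := Real.sqrt ((A.card : ℝ) * B.card) with hx
  have hx0 : 0 ≤ x := Real.sqrt_nonneg _
  have hxx : x ^ 2 = (A.card : ℝ) * B.card := Real.sq_sqrt (by positivity)
  have h1 : ((m : ℝ) * w) ^ m ≤ D * x ^ m := by
    have h2 : (((m : ℝ) * w) ^ m) ^ 2 ≤ (D * x ^ m) ^ 2 := by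
      calc (((m : ℝ) * w) ^ m) ^ 2 = ((m : ℝ) * w) ^ m * ((m : ℝ) * w) ^ m := by ring
        _ ≤ (D * (A.card : ℝ) ^ m) * (D * (B.card : ℝ) ^ m) :=
            mul_le_mul dA dB (by positivity) (by positivity)
        _ = D ^ 2 * ((A.card : ℝ) * B.card) ^ m := by rw [mul_pow]; ring
        _ = (D * x ^ m) ^ 2 := by rw [← hxx]; ring
    exact (pow_le_pow_iff_left₀ (by positivity) (by positivity) two_ne_zero).mp h2
  have hxt : t * w < x := by
    by_contra hle
    push Not at hle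
    have h3 : x ^ m ≤ (t * w) ^ m := pow_le_pow_left₀ hx0 hle m
    have h4 : ((m : ℝ) * w) ^ m ≤ D * (t * w) ^ m := h1.trans (mul_le_mul_of_nonneg_left h3 hD0.le)
    rw [mul_pow, mul_pow, ← mul_assoc] at h4
    have h5 : (m : ℝ) ^ m ≤ D * t ^ m := le_of_mul_le_mul_right h4 (by positivity)
    linarith
  have hAb : ∀ a ∈ A, (q : ℤ) * w ≤ a ∧ a < 2 * q * w := by
    intro a ha
    simp only [hA, mem_biUnion, mem_univ, true_and, mem_image] at ha
    obtain ⟨i, z, _, rfl⟩ := ha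
    have hz : (((z : ℕ) : ℤ)) < w := by exact_mod_cast z.2
    have hz0 : (0 : ℤ) ≤ ((z : ℕ) : ℤ) := by positivity
    have hi : (((i : Fin q) : ℕ) : ℤ) + 1 ≤ q := by exact_mod_cast (i : Fin q).2
    have hi0 : (0 : ℤ) ≤ (((i : Fin q) : ℕ) : ℤ) := by positivity
    simp only [hoA]
    constructor
    · nlinarith
    · nlinarith
  have hBb : ∀ b ∈ B, -(2 * q * w : ℤ) ≤ b ∧ b < -((q : ℤ) * w) := by
    intro a ha
    simp only [hB, mem_biUnion, mem_univ, true_and, mem_image] at ha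
    obtain ⟨i, z, _, rfl⟩ := ha
    have hz : (((z : ℕ) : ℤ)) < w := by exact_mod_cast z.2
    have hz0 : (0 : ℤ) ≤ ((z : ℕ) : ℤ) := by positivity
    have hi : (((i : Fin q) : ℕ) : ℤ) + 1 ≤ q := by exact_mod_cast (i : Fin q).2
    have hi0 : (0 : ℤ) ≤ (((i : Fin q) : ℕ) : ℤ) := by positivity
    simp only [hoB]
    constructor
    · nlinarith
    · nlinarith
  have hmix := mixing q w hq hw t ht c hc A B hAb hBb
  have hpos : 0 < (A.card : ℝ) * B.card / w - t * Real.sqrt ((A.card : ℝ) * B.card) := by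
    rw [← hx, ← hxx]
    have hx1 : 0 < x := lt_of_le_of_lt (by positivity) hxt
    have : x ^ 2 / w - t * x = x * (x - t * w) / w := by field_simp
    rw [this]
    apply div_pos _ hwr
    apply mul_pos hx1
    linarith
  have hc0 := lt_of_lt_of_le hpos hmix
  have hc1 : 0 < ((A ×ˢ B).filter (fun ab => ∃ l : Fin (2 * q),
        ab.1 + ab.2 = (((l : ℕ) : ℤ) - (q : ℤ)) * (w : ℤ) + (((c l : Fin w) : ℕ) : ℤ))).card := by
    exact_mod_cast hc0
  obtain ⟨ab, hab⟩ := card_pos.mp hc1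
  rw [mem_filter, mem_product] at hab
  obtain ⟨⟨ha, hb⟩, l, hl⟩ := hab
  simp only [hA, mem_biUnion, mem_univ, true_and, mem_image] at ha
  simp only [hB, mem_biUnion, mem_univ, true_and, mem_image] at hb
  obtain ⟨i, z, ⟨u, hu, hz⟩, h1a⟩ := ha
  obtain ⟨j, z', ⟨v, hv, hz'⟩, h1b⟩ := hb
  refine ⟨u, hu, v, hv, i, j, l, ?_⟩
  rw [← hl, ← h1a, ← h1b, hz, hz']

end Pool.Agent.TS42
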