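import Pool.Agent.TS42.Grid
import Pool.Agent.TS42.Rect
import Pool.Agent.TS42.GoodCard

/-!
# TS42/Cover: the cover bound

If at least `3/8` of the arrays `y` are covered by sets `R lam` (`lam ∈ ι`) which are rectangles
with respect to `m` cells `pA '' GA lam` of the top quarter and `m` cells `pB '' GB lam` of the bottom
quarter, and whose mixtures are never solutions, then `(m / t)^m ≤ 4 |ι|`, `t = tt n`.

Proof.  `q = n/4`, `w = n^2`.  The `y` whose middle part `l ↦ y (pC l)` is not `Good` are at most `1/8` of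
all `y` (`good_card`; fibres of the restriction map `y ↦ y ∘ pC` have all the same size: `pC` is
injective; e.g. use `Equiv.piEquivPiSubtypeProd` or a fibrewise count).  So the set `X` of the `y`
which are covered and good has `|X| ≥ w^n / 4`.  By the pigeonhole principle some `lam` has
`|{y ∈ X : R lam y}| ≥ w^n / (4 |ι|)` (so `ι` is nonempty).  Let `S = pA '' GA ∪ pB '' GB` (`2 m` cells).  Again by
pigeonhole over the values outside `S` there is `ρ` such that
`F = {y ∈ X : R lam y, y = ρ outside S}` has `|F| ≥ w^(2m) / (4 |ι|)`.  Let `U`, `V` be the sets of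
restrictions `i ↦ y (pA i)` (`i ∈ GA`), `j ↦ y (pB j)` (`j ∈ GB`) of the `y ∈ F`; `y ∈ F` is determined by
its two restrictions, so `|U| |V| ≥ |F|` and, as `|U|, |V| ≤ w^m`, `w^m ≤ 4 |ι| |U|` and
`w^m ≤ 4 |ι| |V|`.  The middle part `c` of all `y ∈ F` is the same and good (`pC l ∉ S`).
If `4 |ι| t^m < m^m`, `rect` (with `D = 4 |ι|`) gives `u ∈ U`, `v ∈ V` coming from `y, y' ∈ F`, and `i`, `j`, `l`.
Let `z = y` outside `pB '' GB` and `z = y'` on `pB '' GB`.  Then `z = y'` outside `pA '' GA` and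
`hmix` says `¬ Sol (val n z)`.  But `val n z (pA i) + val n z (pB j) = val n z (pC l)`:
`val n z (pA i) = (q + i) w + u i`, `val n z (pB j) = (-2q + j) w + v j`,
`val n z (pC l) = (l - q) w + c l`, and the three values are pairwise different
(`val_strictMono` and different positions).  Contradiction.  So `m^m ≤ 4 |ι| t^m`, and `t > 0`.
-/

namespace Pool.Agent.TS42

open Finset

/-- The fibres of a restriction map have the same size. -/
theorem card_comp {α β γ : Type} [Fintype α] [Fintype β] [Fintype γ] [DecidableEq α]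
    [DecidableEq β] (p : α → β) (hp : Function.Injective p) (P : (α → γ) → Prop)
    [DecidablePred P] [DecidablePred fun y : β → γ => P fun a => y (p a)] :
    (univ.filter (fun y : β → γ => P fun a => y (p a))).card * Fintype.card γ ^ Fintype.card α =
      (univ.filter P).card * Fintype.card γ ^ Fintype.card β := by
  classical
  let e0 : (β → γ) ≃ ({b // b ∈ Set.range p} → γ) × ({b // ¬ b ∈ Set.range p} → γ) :=
    Equiv.piEquivPiSubtypeProd (fun b => b ∈ Set.range p) (fun _ => γ)
  let e1 : α ≃ {b // b ∈ Set.range p} := Equiv.ofInjective p hp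
  let e2 : ({b // b ∈ Set.range p} → γ) ≃ (α → γ) := e1.symm.arrowCongr (Equiv.refl γ)
  let E : (β → γ) ≃ (α → γ) × ({b // ¬ b ∈ Set.range p} → γ) :=
    e0.trans (e2.prodCongr (Equiv.refl _))
  have hE : ∀ y, (E y).1 = fun a => y (p a) := fun y => rfl
  have h1 : (univ.filter (fun y : β → γ => P fun a => y (p a))).card =
      (univ.filter P).card * Fintype.card ({b // ¬ b ∈ Set.range p} → γ) := by
    rw [← Finset.card_univ (α := ({b // ¬ b ∈ Set.range p} → γ)), ← Finset.card_product]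
    refine Finset.card_bij (fun y _ => E y) ?_ ?_ ?_
    · intro y hy
      rw [Finset.mem_filter] at hy
      rw [Finset.mem_product, Finset.mem_filter, hE]
      exact ⟨⟨mem_univ _, hy.2⟩, mem_univ _⟩
    · intro y _ y' _ h
      exact E.injective h
    · intro x hx
      rw [Finset.mem_product, Finset.mem_filter] at hx
      refine ⟨E.symm x, ?_, E.apply_symm_apply x⟩
      rw [Finset.mem_filter, ← hE, E.apply_symm_apply]
      exact ⟨mem_univ _, hx.1.2⟩
  have h2 : Fintype.card γ ^ Fintype.card β =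
      Fintype.card γ ^ Fintype.card α * Fintype.card ({b // ¬ b ∈ Set.range p} → γ) := by
    have h3 := Fintype.card_congr E
    rw [Fintype.card_prod, Fintype.card_fun, Fintype.card_fun] at h3
    exact h3
  rw [h1, h2]
  ring

theorem pig {α β : Type} [Fintype β] [DecidableEq β] [Nonempty β] (s : Finset α) (f : α → β) :
    ∃ b, s.card ≤ Fintype.card β * (s.filter (fun a => f a = b)).card := by
  classical
  by_contra hcon
  push Not at hcon
  have h1 : ∑ b : β, Fintype.card β * (s.filter (fun a => f a = b)).card < ∑ _b : β, s.card :=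
    Finset.sum_lt_sum_of_nonempty univ_nonempty fun b _ => hcon b
  rw [← Finset.mul_sum, ← Finset.card_eq_sum_card_fiberwise (fun a _ => mem_univ (f a)),
    Finset.sum_const, Finset.card_univ, smul_eq_mul] at h1
  exact lt_irrefl _ h1

theorem pA_inj (n : ℕ) : Function.Injective (pA n) := by
  intro i j h
  have h1 := congrArg Fin.val h
  simp only [pA] at h1
  exact Fin.ext (by omega)

theorem pB_inj (n : ℕ) : Function.Injective (pB n) := by
  intro i j h
  have h1 := congrArg Fin.val h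
  simp only [pB] at h1
  exact Fin.ext (by omega)

theorem pC_inj (n : ℕ) : Function.Injective (pC n) := by
  intro i j h
  have h1 := congrArg Fin.val h
  simp only [pC] at h1
  exact Fin.ext (by omega)

theorem pA_ne_pB (n : ℕ) (i j : Fin (n / 4)) : pA n i ≠ pB n j := by
  intro h
  have h1 := congrArg Fin.val h
  have h2 := j.2
  simp only [pA, pB] at h1
  omega

theorem pC_ne_pA (n : ℕ) (l : Fin (2 * (n / 4))) (i : Fin (n / 4)) : pC n l ≠ pA n i := by
  intro h
  have h1 := congrArg Fin.val h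
  have h2 := l.2
  simp only [pA, pC] at h1
  omega

theorem pC_ne_pB (n : ℕ) (l : Fin (2 * (n / 4))) (j : Fin (n / 4)) : pC n l ≠ pB n j := by
  intro h
  have h1 := congrArg Fin.val h
  have h2 := j.2
  simp only [pB, pC] at h1
  omega

theorem tt_pos (n : ℕ) (hn : 200 ≤ n) : 0 < tt n := by
  unfold tt
  refine Real.sqrt_pos.2 ?_
  have h1 : (1 : ℝ) < n := by exact_mod_cast (by omega : 1 < n)
  have h2 : 0 < Real.logb 2 n := Real.logb_pos (by norm_num) h1
  positivity

/-- The mixture of two members of the rectangle. -/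
theorem mixed {n : ℕ} (GA GB : Finset (Fin (n / 4))) (y y' y₀ : Fin n → Fin (n ^ 2))
    (h1 : ∀ p, p ∉ GA.image (pA n) → p ∉ GB.image (pB n) → y p = y₀ p)
    (h2 : ∀ p, p ∉ GA.image (pA n) → p ∉ GB.image (pB n) → y' p = y₀ p)
    (i j : Fin (n / 4)) (hi : i ∈ GA) (hj : j ∈ GB) (l : Fin (2 * (n / 4)))
    (heq : (((n / 4 : ℕ) : ℤ) + (i : ℕ)) * ((n ^ 2 : ℕ) : ℤ) + ((y (pA n i) : Fin (n ^ 2)) : ℕ)
        + ((-(2 * ((n / 4 : ℕ) : ℤ)) + (j : ℕ)) * ((n ^ 2 : ℕ) : ℤ) + ((y' (pB n j) : Fin (n ^ 2)) : ℕ))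
      = (((l : ℕ) : ℤ) - ((n / 4 : ℕ) : ℤ)) * ((n ^ 2 : ℕ) : ℤ) +
        (((y₀ (pC n l) : Fin (n ^ 2)) : ℕ) : ℤ)) :
    ∃ z : Fin n → Fin (n ^ 2), (∀ p, p ∉ GB.image (pB n) → z p = y p) ∧
      (∀ p, p ∉ GA.image (pA n) → z p = y' p) ∧ Sol (val n z) := by
  classical
  refine ⟨fun p => if p ∈ GB.image (pB n) then y' p else y p, fun p hp => if_neg hp,
    fun p hp => ?_, pA n i, pB n j, pC n l, ?_, ?_, ?_, ?_⟩
  · by_cases h : p ∈ GB.image (pB n)
    · exact if_pos h
    · show (if p ∈ GB.image (pB n) then y' p else y p) = y' p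
      rw [if_neg h, h1 p hp h, h2 p hp h]
  · exact fun h => pA_ne_pB n i j ((val_strictMono n _).injective h)
  · exact fun h => pC_ne_pA n l i ((val_strictMono n _).injective h).symm
  · exact fun h => pC_ne_pB n l j ((val_strictMono n _).injective h).symm
  · have e1 : pA n i ∉ GB.image (pB n) := by
      intro h
      obtain ⟨b, _, hb⟩ := Finset.mem_image.1 h
      exact pA_ne_pB n i b hb.symm
    have e2 : pB n j ∈ GB.image (pB n) := Finset.mem_image_of_mem _ hj
    have e3 : pC n l ∉ GB.image (pB n) := by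
      intro h
      obtain ⟨b, _, hb⟩ := Finset.mem_image.1 h
      exact pC_ne_pB n l b hb.symm
    have e4 : pC n l ∉ GA.image (pA n) := by
      intro h
      obtain ⟨b, _, hb⟩ := Finset.mem_image.1 h
      exact pC_ne_pA n l b hb.symm
    unfold val
    simp only [if_neg e1, if_pos e2, if_neg e3]
    rw [h1 _ e4 e3]
    have c1 : ((pA n i : Fin n) : ℕ) = n / 2 + n / 4 + i := rfl
    have c2 : ((pB n j : Fin n) : ℕ) = n / 2 - 2 * (n / 4) + j := rfl
    have c3 : ((pC n l : Fin n) : ℕ) = n / 2 - n / 4 + l := rfl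
    have d1 : (((pA n i : Fin n) : ℕ) : ℤ) - ((n / 2 : ℕ) : ℤ) = ((n / 4 : ℕ) : ℤ) + (i : ℕ) := by
      rw [c1]; omega
    have d2 : (((pB n j : Fin n) : ℕ) : ℤ) - ((n / 2 : ℕ) : ℤ) =
        -(2 * ((n / 4 : ℕ) : ℤ)) + (j : ℕ) := by
      rw [c2]; omega
    have d3 : (((pC n l : Fin n) : ℕ) : ℤ) - ((n / 2 : ℕ) : ℤ) =
        ((l : ℕ) : ℤ) - ((n / 4 : ℕ) : ℤ) := by
      rw [c3]; omega
    rw [d1, d2, d3]
    have c4 : ((n ^ 2 : ℕ) : ℤ) = (n : ℤ) ^ 2 := by push_cast; ring
    rw [c4] at heq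
    exact heq

open Classical in
theorem cover {ι : Type} [Fintype ι] (n m : ℕ) (hn : 200 ≤ n) (hm : 0 < m)
    (GA GB : ι → Finset (Fin (n / 4))) (hA : ∀ lam, (GA lam).card = m) (hB : ∀ lam, (GB lam).card = m)
    (R : ι → (Fin n → Fin (n ^ 2)) → Prop)
    (hbig : 3 * (n ^ 2) ^ n ≤ 8 * (univ.filter (fun y => ∃ lam, R lam y)).card)
    (hmix : ∀ lam y y' z, R lam y → R lam y' →
      (∀ p, p ∉ (GA lam).image (pA n) → p ∉ (GB lam).image (pB n) → y p = y' p) →
      (∀ p, p ∉ (GB lam).image (pB n) → z p = y p) →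
      (∀ p, p ∉ (GA lam).image (pA n) → z p = y' p) → ¬ Sol (val n z)) :
    ((m : ℝ) / tt n) ^ m ≤ 4 * (Fintype.card ι : ℝ) := by
  have hw : 0 < n ^ 2 := by positivity
  haveI : Nonempty (Fin (n ^ 2)) := ⟨⟨0, hw⟩⟩
  have hq : 0 < n / 4 := by omega
  have ht := tt_pos n hn
  -- good middle parts
  set GC : (Fin n → Fin (n ^ 2)) → Prop := fun y => Good (n / 4) (n ^ 2) (tt n) fun l => y (pC n l)
    with hGC
  have hbad : 8 * (univ.filter (fun y => ¬ GC y)).card ≤ (n ^ 2) ^ n := by
    have h1 := card_comp (γ := Fin (n ^ 2)) (pC n) (pC_inj n)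
      (fun c => ¬ Good (n / 4) (n ^ 2) (tt n) c)
    rw [Fintype.card_fin, Fintype.card_fin, Fintype.card_fin] at h1
    have h2 := good_card n hn
    have h3 : 0 < (n ^ 2) ^ (2 * (n / 4)) := by positivity
    refine Nat.le_of_mul_le_mul_right ?_ h3
    calc 8 * (univ.filter (fun y => ¬ GC y)).card * (n ^ 2) ^ (2 * (n / 4))
        = 8 * ((univ.filter (fun y => ¬ GC y)).card * (n ^ 2) ^ (2 * (n / 4))) := by ring
      _ = 8 * ((univ.filter
          (fun c : Fin (2 * (n / 4)) → Fin (n ^ 2) => ¬ Good (n / 4) (n ^ 2) (tt n) c)).card *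
          (n ^ 2) ^ n) := by rw [← h1]
      _ = (8 * (univ.filter
          (fun c : Fin (2 * (n / 4)) → Fin (n ^ 2) => ¬ Good (n / 4) (n ^ 2) (tt n) c)).card) *
          (n ^ 2) ^ n := by ring
      _ ≤ (n ^ 2) ^ (2 * (n / 4)) * (n ^ 2) ^ n := Nat.mul_le_mul_right _ h2
      _ = (n ^ 2) ^ n * (n ^ 2) ^ (2 * (n / 4)) := mul_comm _ _
  set X := univ.filter (fun y => (∃ lam, R lam y) ∧ GC y) with hX
  have hXc : (n ^ 2) ^ n ≤ 4 * X.card := by
    have h1 : (univ.filter (fun y => ∃ lam, R lam y)).card ≤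
        X.card + (univ.filter (fun y => ¬ GC y)).card := by
      refine (Finset.card_le_card ?_).trans (Finset.card_union_le _ _)
      intro y hy
      rw [mem_filter] at hy
      rw [mem_union, hX, mem_filter, mem_filter]
      by_cases h : GC y
      · exact Or.inl ⟨mem_univ _, hy.2, h⟩
      · exact Or.inr ⟨mem_univ _, h⟩
    omega
  have hpos : 0 < (n ^ 2) ^ n := by positivity
  have hXne : X.Nonempty := by
    rw [← Finset.card_pos]
    omega
  haveI : Nonempty ι := by
    obtain ⟨y, hy⟩ := hXne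
    rw [hX, mem_filter] at hy
    exact ⟨hy.2.1.choose⟩
  let f : (Fin n → Fin (n ^ 2)) → ι := fun y => if h : ∃ lam, R lam y then h.choose
    else Classical.arbitrary ι
  obtain ⟨lam, hlam⟩ := pig X f
  set X1 := X.filter (fun y => R lam y) with hX1
  have hX1c : X.card ≤ Fintype.card ι * X1.card := by
    refine hlam.trans (Nat.mul_le_mul_left _ (Finset.card_le_card ?_))
    intro y hy
    rw [mem_filter] at hy
    rw [hX1, mem_filter]
    refine ⟨hy.1, ?_⟩
    have h1 : ∃ lam, R lam y := by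
      have := hy.1
      rw [hX, mem_filter] at this
      exact this.2.1
    have h2 : f y = h1.choose := dif_pos h1
    rw [← hy.2, h2]
    exact h1.choose_spec
  set SA := (GA lam).image (pA n) with hSA
  set SB := (GB lam).image (pB n) with hSB
  set S := SA ∪ SB with hS
  have hScard : S.card = 2 * m := by
    rw [hS, Finset.card_union_of_disjoint, hSA, hSB, Finset.card_image_of_injective _ (pA_inj n),
      Finset.card_image_of_injective _ (pB_inj n), hA, hB]
    · ring
    · rw [Finset.disjoint_left]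
      intro p h1 h2
      obtain ⟨a, _, ha⟩ := Finset.mem_image.1 h1
      obtain ⟨b, _, hb⟩ := Finset.mem_image.1 h2
      exact pA_ne_pB n a b (ha.trans hb.symm)
  obtain ⟨ρ, hρ⟩ := pig X1 (fun y (p : {p : Fin n // p ∉ S}) => y p)
  set F := X1.filter (fun y => (fun (p : {p : Fin n // p ∉ S}) => y p) = ρ) with hF
  set r := Fintype.card {p : Fin n // p ∉ S} with hr
  have hrn : n = 2 * m + r := by
    have h1 : Fintype.card {p : Fin n // p ∉ S} = Fintype.card (Fin n) -
      Fintype.card {p : Fin n // p ∈ S} := Fintype.card_subtype_compl _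
    have h2 : Fintype.card {p : Fin n // p ∈ S} = 2 * m := by
      rw [Fintype.card_coe, hScard]
    have h3 : S.card ≤ n := by
      have := Finset.card_le_univ S
      rwa [Fintype.card_fin] at this
    rw [h2, Fintype.card_fin, ← hr] at h1
    omega
  have hFc : (n ^ 2) ^ (2 * m) ≤ 4 * Fintype.card ι * F.card := by
    rw [Fintype.card_fun, Fintype.card_fin, ← hr] at hρ
    have h3 : 0 < (n ^ 2) ^ r := by positivity
    refine Nat.le_of_mul_le_mul_right ?_ h3
    calc (n ^ 2) ^ (2 * m) * (n ^ 2) ^ r = (n ^ 2) ^ n := by rw [← pow_add, ← hrn]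
      _ ≤ 4 * X.card := hXc
      _ ≤ 4 * (Fintype.card ι * X1.card) := Nat.mul_le_mul_left _ hX1c
      _ ≤ 4 * (Fintype.card ι * ((n ^ 2) ^ r * F.card)) :=
          Nat.mul_le_mul_left _ (Nat.mul_le_mul_left _ hρ)
      _ = 4 * Fintype.card ι * F.card * (n ^ 2) ^ r := by ring
  have hFmem : ∀ y ∈ F, R lam y ∧ GC y ∧ ∀ p (hp : p ∉ S), y p = ρ ⟨p, hp⟩ := by
    intro y hy
    rw [hF, mem_filter, hX1, mem_filter, hX, mem_filter] at hy
    exact ⟨hy.1.2, hy.1.1.2.2, fun p hp => congrFun hy.2 ⟨p, hp⟩⟩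
  set U := F.image (fun y (i : {i // i ∈ GA lam}) => y (pA n i)) with hU
  set V := F.image (fun y (j : {j // j ∈ GB lam}) => y (pB n j)) with hV
  have hFUV : F.card ≤ U.card * V.card := by
    rw [← Finset.card_product]
    refine Finset.card_le_card_of_injOn (fun y => (fun (i : {i // i ∈ GA lam}) => y (pA n i),
      fun (j : {j // j ∈ GB lam}) => y (pB n j))) ?_ ?_
    · intro y hy
      exact Finset.mem_product.2 ⟨Finset.mem_image_of_mem _ hy, Finset.mem_image_of_mem _ hy⟩
    · intro y hy y' hy' h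
      have h1 := congrArg Prod.fst h
      have h2 := congrArg Prod.snd h
      funext p
      by_cases hp : p ∈ S
      · rcases Finset.mem_union.1 hp with hp | hp
        · obtain ⟨a, ha, rfl⟩ := Finset.mem_image.1 hp
          exact congrFun h1 ⟨a, ha⟩
        · obtain ⟨b, hb, rfl⟩ := Finset.mem_image.1 hp
          exact congrFun h2 ⟨b, hb⟩
      · rw [(hFmem y hy).2.2 p hp, (hFmem y' hy').2.2 p hp]
  have hUw : U.card ≤ (n ^ 2) ^ m := by
    have h1 := Finset.card_le_univ U
    rwa [Fintype.card_fun, Fintype.card_fin, Fintype.card_coe, hA] at h1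
  have hVw : V.card ≤ (n ^ 2) ^ m := by
    have h1 := Finset.card_le_univ V
    rwa [Fintype.card_fun, Fintype.card_fin, Fintype.card_coe, hB] at h1
  have hwm : 0 < (n ^ 2) ^ m := by positivity
  have hU2 : (n ^ 2) ^ m ≤ 4 * Fintype.card ι * U.card := by
    refine Nat.le_of_mul_le_mul_right ?_ hwm
    calc (n ^ 2) ^ m * (n ^ 2) ^ m = (n ^ 2) ^ (2 * m) := by rw [← pow_add, two_mul]
      _ ≤ 4 * Fintype.card ι * F.card := hFc
      _ ≤ 4 * Fintype.card ι * (U.card * (n ^ 2) ^ m) :=
          Nat.mul_le_mul_left _ (hFUV.trans (Nat.mul_le_mul_left _ hVw))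
      _ = 4 * Fintype.card ι * U.card * (n ^ 2) ^ m := by ring
  have hV2 : (n ^ 2) ^ m ≤ 4 * Fintype.card ι * V.card := by
    refine Nat.le_of_mul_le_mul_right ?_ hwm
    calc (n ^ 2) ^ m * (n ^ 2) ^ m = (n ^ 2) ^ (2 * m) := by rw [← pow_add, two_mul]
      _ ≤ 4 * Fintype.card ι * F.card := hFc
      _ ≤ 4 * Fintype.card ι * ((n ^ 2) ^ m * V.card) :=
          Nat.mul_le_mul_left _ (hFUV.trans (Nat.mul_le_mul_right _ hUw))
      _ = 4 * Fintype.card ι * V.card * (n ^ 2) ^ m := by ring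
  have hFne : F.Nonempty := by
    rw [← Finset.card_pos]
    by_contra h0
    have h1 : F.card = 0 := by omega
    rw [h1, mul_zero] at hFc
    have h2 : 0 < (n ^ 2) ^ (2 * m) := by positivity
    omega
  obtain ⟨y₀, hy₀⟩ := hFne
  -- the conclusion
  have hmain : ((m : ℝ)) ^ m ≤ 4 * (Fintype.card ι : ℝ) * tt n ^ m := by
    by_contra hcon
    rw [not_le] at hcon
    have hι : (0 : ℝ) < Fintype.card ι := by exact_mod_cast Fintype.card_pos
    obtain ⟨u, hu, v, hv, i, j, l, heq⟩ := rect (n / 4) (n ^ 2) m hq hw hm (tt n) ht.le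
      (fun l => y₀ (pC n l)) (hFmem y₀ hy₀).2.1 (GA lam) (GB lam) (hA lam) (hB lam) U V
      (4 * (Fintype.card ι : ℝ)) (by positivity) (by exact_mod_cast hU2) (by exact_mod_cast hV2)
      hcon
    obtain ⟨y, hy, rfl⟩ := Finset.mem_image.1 hu
    obtain ⟨y', hy', rfl⟩ := Finset.mem_image.1 hv
    have hout : ∀ y ∈ F, ∀ p, p ∉ SA → p ∉ SB → y p = y₀ p := by
      intro y hy p h1 h2
      have h3 : p ∉ S := by
        rw [hS, Finset.mem_union]
        rintro (h | h)
        · exact h1 h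
        · exact h2 h
      rw [(hFmem y hy).2.2 p h3, (hFmem y₀ hy₀).2.2 p h3]
    obtain ⟨z, hz1, hz2, hz3⟩ := mixed (GA lam) (GB lam) y y' y₀ (hout y hy) (hout y' hy')
      i j i.2 j.2 l heq
    refine hmix lam y y' z (hFmem y hy).1 (hFmem y' hy').1 (fun p h1 h2 => ?_) hz1 hz2 hz3
    rw [hout y hy p h1 h2, hout y' hy' p h1 h2]
  rw [div_pow, div_le_iff₀ (pow_pos ht m)]
  exact hmain

end Pool.Agent.TS42
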