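import Mathlib

/-!
# TS42/Defs: 3SUM with small memory (MP_13bec0_lc), definitions used in the statement

Machines with a read-only input array `x : Fin n → ℤ`, a finite set `Q` of memory states and `H`
pointers to cells of the array.  In one step the machine sees its state, the positions of the pointers
and the numbers under the pointers; the new state and the new positions (arbitrary jumps) are an
arbitrary function (relation) of these data.
-/

namespace Pool.Agent.TS42

open Finset

/-- Some three pairwise distinct entries `a`, `b`, `c` of the array satisfy `a + b = c`. -/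
def Sol {n : ℕ} (x : Fin n → ℤ) : Prop :=
  ∃ i j l : Fin n, x i ≠ x j ∧ x i ≠ x l ∧ x j ≠ x l ∧ x i + x j = x l

/-- Admissible inputs: `n` integers of absolute value at most `n ^ 3`, in strictly increasing order. -/
def Inp (n : ℕ) (x : Fin n → ℤ) : Prop := StrictMono x ∧ ∀ i, |x i| ≤ (n : ℤ) ^ 3

/-- Configurations: memory state and positions of the `H` pointers. -/
abbrev Conf (n H : ℕ) (Q : Type) : Type := Q × (Fin H → Fin n)

/-- Distance of two cells. -/
def cdist {n : ℕ} (i j : Fin n) : ℕ := (((i : ℕ) : ℤ) - ((j : ℕ) : ℤ)).natAbs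

/-- Total distance travelled by the pointers during the first `T` steps of the computation `c`. -/
def travel {n H : ℕ} {Q : Type} (c : ℕ → Conf n H Q) (T : ℕ) : ℕ :=
  ∑ t ∈ range T, ∑ a : Fin H, cdist ((c (t + 1)).2 a) ((c t).2 a)

/-- Nondeterministic machine. -/
structure NMachine (n H : ℕ) (Q : Type) where
  start : Conf n H Q
  step : Conf n H Q → (Fin H → ℤ) → Conf n H Q → Prop
  acc : Conf n H Q → Prop

/-- One step on the input `x`: the machine sees the numbers under the pointers. -/
def NMachine.Step {n H : ℕ} {Q : Type} (M : NMachine n H Q) (x : Fin n → ℤ) (k k' : Conf n H Q) : Prop :=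
  M.step k (fun a => x (k.2 a)) k'

/-- `c` is an accepting computation of `T` steps on `x`. -/
def NMachine.Comp {n H : ℕ} {Q : Type} (M : NMachine n H Q) (x : Fin n → ℤ) (T : ℕ)
    (c : ℕ → Conf n H Q) : Prop :=
  c 0 = M.start ∧ (∀ t < T, M.Step x (c t) (c (t + 1))) ∧ M.acc (c T)

/-- `M` has an accepting computation on `x`. -/
def NMachine.Accepts {n H : ℕ} {Q : Type} (M : NMachine n H Q) (x : Fin n → ℤ) : Prop :=
  ∃ T c, M.Comp x T c

/-- Deterministic machine. -/
structure Machine (n H : ℕ) (Q : Type) where
  start : Conf n H Q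
  next : Conf n H Q → (Fin H → ℤ) → Conf n H Q
  out : Conf n H Q → Option Bool

/-- The configuration after `t` steps. -/
def Machine.run {n H : ℕ} {Q : Type} (M : Machine n H Q) (x : Fin n → ℤ) : ℕ → Conf n H Q
  | 0 => M.start
  | t + 1 => M.next (M.run x t) (fun a => x ((M.run x t).2 a))

/-- The number of steps until the machine gives its answer. -/
noncomputable def Machine.time {n H : ℕ} {Q : Type} (M : Machine n H Q) (x : Fin n → ℤ) : ℕ :=
  sInf {t | (M.out (M.run x t)).isSome}

/-- On `x` the machine gives an answer and the answer is right. -/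
def Machine.Correct {n H : ℕ} {Q : Type} (M : Machine n H Q) (x : Fin n → ℤ) : Prop :=
  ∃ b : Bool, M.out (M.run x (M.time x)) = some b ∧ (b = true ↔ Sol x)

/-- Randomised algorithm: a machine chosen with the probabilities `p`. -/
structure LasVegas (n H : ℕ) (Q : Type) where
  Ω : Type
  [fin : Fintype Ω]
  p : Ω → ℝ
  p_nonneg : ∀ ω, 0 ≤ p ω
  p_sum : ∑ ω, p ω = 1
  M : Ω → Machine n H Q

attribute [instance] LasVegas.fin

/-- The algorithm is always right; on every input its expected number of steps is at most `T` and the
expected distance travelled by its pointers is at most `D`. -/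
def LasVegas.Solves {n H : ℕ} {Q : Type} (A : LasVegas n H Q) (T D : ℝ) : Prop :=
  ∀ x : Fin n → ℤ, Inp n x →
    (∀ ω, (A.M ω).Correct x) ∧ ∑ ω, A.p ω * ((A.M ω).time x : ℝ) ≤ T ∧
      ∑ ω, A.p ω * (travel ((A.M ω).run x) ((A.M ω).time x) : ℝ) ≤ D

/-- `M` certifies exactly the inputs without a solution: it accepts no input with a solution, and every
other input by a computation of at most `T` steps in which the pointers travel at most `D`. -/
def NMachine.Certifies {n H : ℕ} {Q : Type} (M : NMachine n H Q) (T D : ℕ) : Prop :=
  ∀ x : Fin n → ℤ, Inp n x →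
    (M.Accepts x → ¬ Sol x) ∧ (¬ Sol x → ∃ T' ≤ T, ∃ c, M.Comp x T' c ∧ travel c T' ≤ D)

end Pool.Agent.TS42
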