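import Pool.Agent.TS42.Base

/-!
# TS42/Grid: the hard inputs

`val n y` has one entry in each of `n` consecutive intervals of length `w = n ^ 2`:
`val n y p = (p - ⌊n/2⌋) w + y p`.

* `val_strictMono`, `val_inp`: immediate.  Bounds: `(p - ⌊n/2⌋) w + y p ≥ -⌊n/2⌋ n^2 ≥ -n^3` and
  `≤ (n - 1 - ⌊n/2⌋) n^2 + n^2 - 1 ≤ n^3`.
* `sol_card` (at most half of the arrays have a solution).  If `Sol (val n y)`, there are `i < j` and
  `l ∉ {i, j}` with `x i + x j = x l` (`x = val n y` is injective; the roles of `i`, `j` are symmetric).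
  Fix `i < j` and let `E` be the set of the `y` with such an `l`.  The index `l` is a function of
  `y i`, `y j` only: `l - ⌊n/2⌋ = (x i + x j) / w` (floor division, since `0 ≤ y l < w`), and `y l` is
  a function of `y i`, `y j` too (`y l = (x i + x j) mod w`).  The map
  `E × Fin w → (Fin n → Fin w)`, `(y, z) ↦ Function.update y (l y) z` is injective: `i`, `j` are not
  changed, so `l y` can be recovered, then `z` and `y`.  So `|E| * w ≤ w ^ n`, i.e.
  `|E| n^2 ≤ w^n`.  There are `n (n - 1) / 2` pairs `i < j`, so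
  `2 n^2 #{Sol} ≤ n (n - 1) w ^ n ≤ n^2 w^n`.
-/

namespace Pool.Agent.TS42

open Finset

private theorem y_lt (n : ℕ) (y : Fin n → Fin (n ^ 2)) (p : Fin n) :
    (0 : ℤ) ≤ (((y p : Fin (n ^ 2)) : ℕ) : ℤ) ∧ (((y p : Fin (n ^ 2)) : ℕ) : ℤ) < (n : ℤ) ^ 2 := by
  refine ⟨Int.natCast_nonneg _, ?_⟩
  have h := (y p).isLt
  exact_mod_cast h

private theorem val_lt {n : ℕ} {y y' : Fin n → Fin (n ^ 2)} {p p' : Fin n} (h : p < p') :
    val n y p < val n y' p' := by
  unfold val
  obtain ⟨h1, h2⟩ := y_lt n y p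
  obtain ⟨h3, h4⟩ := y_lt n y' p'
  have h5 : ((p : ℕ) : ℤ) + 1 ≤ ((p' : ℕ) : ℤ) := by exact_mod_cast h
  have h6 : (0 : ℤ) ≤ (n : ℤ) ^ 2 := by positivity
  have h7 : (((p : ℕ) : ℤ) + 1 - ((n / 2 : ℕ) : ℤ)) * (n : ℤ) ^ 2 ≤
      (((p' : ℕ) : ℤ) - ((n / 2 : ℕ) : ℤ)) * (n : ℤ) ^ 2 :=
    mul_le_mul_of_nonneg_right (by linarith) h6
  have h8 : (((p : ℕ) : ℤ) + 1 - ((n / 2 : ℕ) : ℤ)) * (n : ℤ) ^ 2 =
      (((p : ℕ) : ℤ) - ((n / 2 : ℕ) : ℤ)) * (n : ℤ) ^ 2 + (n : ℤ) ^ 2 := by ring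
  linarith

private theorem val_eq {n : ℕ} {y y' : Fin n → Fin (n ^ 2)} {p p' : Fin n}
    (h : val n y p = val n y' p') : p = p' ∧ y p = y' p' := by
  have hp : p = p' := by
    rcases lt_trichotomy p p' with h1 | h1 | h1
    · exact absurd h (val_lt h1).ne
    · exact h1
    · exact absurd h (val_lt h1).ne'
  subst hp
  refine ⟨rfl, ?_⟩
  unfold val at h
  have h2 : (((y p : Fin (n ^ 2)) : ℕ) : ℤ) = (((y' p : Fin (n ^ 2)) : ℕ) : ℤ) := by linarith
  exact Fin.ext (by exact_mod_cast h2)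

theorem val_strictMono (n : ℕ) (y : Fin n → Fin (n ^ 2)) : StrictMono (val n y) :=
  fun _ _ h => val_lt h

theorem val_inp (n : ℕ) (y : Fin n → Fin (n ^ 2)) : Inp n (val n y) := by
  refine ⟨val_strictMono n y, fun p => ?_⟩
  obtain ⟨h1, h2⟩ := y_lt n y p
  have hp : ((p : ℕ) : ℤ) + 1 ≤ (n : ℤ) := by exact_mod_cast p.isLt
  have hp0 : (0 : ℤ) ≤ ((p : ℕ) : ℤ) := Int.natCast_nonneg _
  have hh : ((n / 2 : ℕ) : ℤ) ≤ (n : ℤ) := by exact_mod_cast Nat.div_le_self n 2
  have hh0 : (0 : ℤ) ≤ ((n / 2 : ℕ) : ℤ) := Int.natCast_nonneg _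
  have h6 : (0 : ℤ) ≤ (n : ℤ) ^ 2 := by positivity
  have e3 : (n : ℤ) ^ 3 = (n : ℤ) * (n : ℤ) ^ 2 := by ring
  rw [abs_le]
  unfold val
  constructor
  · have h7 : (-(n : ℤ)) * (n : ℤ) ^ 2 ≤
        (((p : ℕ) : ℤ) - ((n / 2 : ℕ) : ℤ)) * (n : ℤ) ^ 2 :=
      mul_le_mul_of_nonneg_right (by linarith) h6
    rw [e3]
    linarith
  · have h7 : (((p : ℕ) : ℤ) - ((n / 2 : ℕ) : ℤ)) * (n : ℤ) ^ 2 ≤
        ((n : ℤ) - 1) * (n : ℤ) ^ 2 :=
      mul_le_mul_of_nonneg_right (by linarith) h6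
    rw [e3]
    have h8 : ((n : ℤ) - 1) * (n : ℤ) ^ 2 = (n : ℤ) * (n : ℤ) ^ 2 - (n : ℤ) ^ 2 := by ring
    linarith

/-- The third index of a solution. -/
private def Third {n : ℕ} (i j : Fin n) (y : Fin n → Fin (n ^ 2)) (l : Fin n) : Prop :=
  l ≠ i ∧ l ≠ j ∧ val n y i + val n y j = val n y l

open Classical in
private noncomputable def EE {n : ℕ} (i j : Fin n) : Finset (Fin n → Fin (n ^ 2)) :=
  univ.filter fun y => ∃ l, Third i j y l

open Classical in
private noncomputable def LL {n : ℕ} (i j : Fin n) (y : Fin n → Fin (n ^ 2)) : Fin n :=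
  if h : ∃ l, Third i j y l then h.choose else i

private theorem LL_spec {n : ℕ} {i j : Fin n} {y : Fin n → Fin (n ^ 2)}
    (h : ∃ l, Third i j y l) : Third i j y (LL i j y) := by
  unfold LL
  rw [dif_pos h]
  exact h.choose_spec

private theorem EE_card {n : ℕ} (i j : Fin n) : (EE i j).card * n ^ 2 ≤ (n ^ 2) ^ n := by
  classical
  have h := Finset.card_le_card_of_injOn
    (s := (EE i j) ×ˢ (univ : Finset (Fin (n ^ 2)))) (t := (univ : Finset (Fin n → Fin (n ^ 2))))
    (fun q => Function.update q.1 (LL i j q.1) q.2) (fun q _ => mem_univ _) ?_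
  · rw [card_product, card_univ, card_univ, Fintype.card_fin, Fintype.card_fun, Fintype.card_fin,
      Fintype.card_fin] at h
    exact h
  · rintro ⟨y, z⟩ hq ⟨y', z'⟩ hq' he
    simp only at he
    have hy : ∃ l, Third i j y l := (mem_filter.1 (mem_product.1 (mem_coe.1 hq)).1).2
    have hy' : ∃ l, Third i j y' l := (mem_filter.1 (mem_product.1 (mem_coe.1 hq')).1).2
    obtain ⟨a1, a2, a3⟩ := LL_spec hy
    obtain ⟨b1, b2, b3⟩ := LL_spec hy'
    have hi : y i = y' i := by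
      have h1 := congrFun he i
      rwa [Function.update_of_ne a1.symm, Function.update_of_ne b1.symm] at h1
    have hj : y j = y' j := by
      have h1 := congrFun he j
      rwa [Function.update_of_ne a2.symm, Function.update_of_ne b2.symm] at h1
    have vi : val n y i = val n y' i := by
      unfold val
      rw [hi]
    have vj : val n y j = val n y' j := by
      unfold val
      rw [hj]
    rw [vi, vj, b3] at a3
    obtain ⟨c1, c2⟩ := val_eq a3
    have hz : z = z' := by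
      have h1 := congrFun he (LL i j y)
      rw [Function.update_self, ← c1, Function.update_self] at h1
      exact h1
    have hyy : y = y' := by
      funext p
      by_cases hp : p = LL i j y
      · rw [hp, ← c2, c1]
      · have h1 := congrFun he p
        rwa [Function.update_of_ne hp, Function.update_of_ne (by rw [c1]; exact hp)] at h1
    rw [hyy, hz]

open Classical in
private theorem two_le {n : ℕ} {y : Fin n → Fin (n ^ 2)} (h : Sol (val n y)) :
    2 ≤ ((univ : Finset (Fin n)).offDiag.filter fun q => y ∈ EE q.1 q.2).card := by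
  obtain ⟨i, j, l, hij, hil, hjl, he⟩ := h
  have h1 : i ≠ j := fun h => hij (by rw [h])
  have h2 : l ≠ i := fun h => hil (by rw [h])
  have h3 : l ≠ j := fun h => hjl (by rw [h])
  have hne : ((i, j) : Fin n × Fin n) ≠ (j, i) := fun h => h1 (Prod.ext_iff.1 h).1
  refine (Finset.card_pair hne).ge.trans (Finset.card_le_card ?_)
  intro q hq
  rw [mem_insert, mem_singleton] at hq
  rw [mem_filter, mem_offDiag]
  rcases hq with hq | hq
  · subst hq
    exact ⟨⟨mem_univ _, mem_univ _, h1⟩, mem_filter.2 ⟨mem_univ _, l, h2, h3, he⟩⟩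
  · subst hq
    exact ⟨⟨mem_univ _, mem_univ _, h1.symm⟩,
      mem_filter.2 ⟨mem_univ _, l, h3, h2, by rw [add_comm]; exact he⟩⟩

open Classical in
theorem sol_card (n : ℕ) (hn : 2 ≤ n) :
    2 * (univ.filter (fun y : Fin n → Fin (n ^ 2) => Sol (val n y))).card ≤ (n ^ 2) ^ n := by
  set S := univ.filter (fun y : Fin n → Fin (n ^ 2) => Sol (val n y)) with hS
  have h1 : 2 * S.card ≤ ∑ q ∈ (univ : Finset (Fin n)).offDiag, (EE q.1 q.2).card := by
    calc 2 * S.card = ∑ _y ∈ S, 2 := by rw [sum_const, smul_eq_mul, mul_comm]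
      _ ≤ ∑ y ∈ S, ((univ : Finset (Fin n)).offDiag.filter fun q => y ∈ EE q.1 q.2).card :=
        sum_le_sum fun y hy => two_le (mem_filter.1 hy).2
      _ ≤ ∑ y, ((univ : Finset (Fin n)).offDiag.filter fun q => y ∈ EE q.1 q.2).card :=
        sum_le_sum_of_subset (subset_univ _)
      _ = ∑ y : Fin n → Fin (n ^ 2), ∑ q ∈ (univ : Finset (Fin n)).offDiag,
            (if y ∈ EE q.1 q.2 then 1 else 0) := by
        refine sum_congr rfl fun y _ => ?_
        rw [card_filter]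
      _ = ∑ q ∈ (univ : Finset (Fin n)).offDiag, (EE q.1 q.2).card := by
        rw [sum_comm]
        refine sum_congr rfl fun q _ => ?_
        rw [← card_filter, filter_mem_eq_inter, univ_inter]
  have h2 : n ^ 2 * ∑ q ∈ (univ : Finset (Fin n)).offDiag, (EE q.1 q.2).card ≤
      n ^ 2 * (n ^ 2) ^ n := by
    rw [mul_sum]
    calc ∑ q ∈ (univ : Finset (Fin n)).offDiag, n ^ 2 * (EE q.1 q.2).card ≤
          ∑ _q ∈ (univ : Finset (Fin n)).offDiag, (n ^ 2) ^ n :=
          sum_le_sum fun q _ => by rw [mul_comm]; exact EE_card q.1 q.2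
      _ = ((univ : Finset (Fin n)).offDiag).card * (n ^ 2) ^ n := by rw [sum_const, smul_eq_mul]
      _ ≤ n ^ 2 * (n ^ 2) ^ n := by
          refine Nat.mul_le_mul_right _ ?_
          rw [offDiag_card, card_univ, Fintype.card_fin]
          calc n * n - n ≤ n * n := Nat.sub_le _ _
            _ = n ^ 2 := by ring
  have h3 : 0 < n ^ 2 := by positivity
  exact h1.trans (Nat.le_of_mul_le_mul_left h2 h3)

end Pool.Agent.TS42
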