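import Pool.Agent.TS42.Cover
import Pool.Agent.TS42.Seg
import Pool.Agent.TS42.HeadGeom
import Pool.Agent.TS42.Counting

/-!
# TS42/HeadCore: travel of `H` pointers

`K = Conf n H Q`, `q = n / 4`.  Cells of the blocks: `CA i = (blk q ell i).image (pA n)`,
`CB j = (blk q ell j).image (pB n)` (`i, j < b`, `ell` cells each, `card_blk`).
LABELS: `ι = {x : (Fin b × Fin b) × (Fin W → Option (Bool × K × K)) // #{s : (x.2 s).isSome} ≤ z}`;
`|ι| ≤ b^2 (1 + W * (2 |K|^2))^z` by `sparse_card`.  `GA x = blk q ell i`, `GB x = blk q ell j` (`m = ell`).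
`R ((i, j), f) y`: there is `σ : ℕ → K` with `σ 0 = start`, `acc (σ W)` and for all `s : Fin W`
  (N) if `f s = none`: `Seg (val n y) (CA i ∪ CB j) (σ s) (σ (s+1))`;
  (A) if `f s = some (true, a, a')`: `σ s = a`, `σ (s+1) = a'` and `Seg (val n y) (CB j) (σ s) (σ (s+1))`;
  (B) if `f s = some (false, a, a')`: `σ s = a`, `σ (s+1) = a'` and `Seg (val n y) (CA i) (σ s) (σ (s+1))`.
(1) Every `y` of `hbig` has a label: take an accepting computation `c` of `T` steps with
`travel c T ≤ D < W ell`, `τ` from `exists_tau`; `VA s`, `VB s` = the sets of the blocks visited in the window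
`s : Fin W` (times `t < T` with `travel c t / ell = s`); `window_card` and `good_pair` (with `hWb`) give `i`, `j` never
visited in the same window, with `b (#{s : i ∈ VA s} + #{s : j ∈ VB s}) ≤ 16 H W < b (z+1)`.  Put
`f s = some (true, c (τ s), c (τ (s+1)))` if `i ∈ VA s`, `some (false, ..)` if `j ∈ VB s`, `none` otherwise; its
support has at most `z` elements.  `σ s = c (τ s)`; `Seg.of_path`.
(2) MIXING.  `R x y` with `σ`, `R x y'` with `σ'`, `z = y` outside `CB j`, `z = y'` outside `CA i`, `y = y'` outside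
`CA i ∪ CB j`.  Then `σ` shows that `z` is accepted (`accepts_of_segs`): (N) and (A) pieces of `y` by
`Seg.congr`; for (B), `σ s = a = σ' s`, `σ (s+1) = a' = σ' (s+1)` and the piece of `y'` avoids `CA i`.  So
`¬ Sol (val n z)` by `hsound`.
(3) `cover` with `m = ell`.
-/

namespace Pool.Agent.TS42

open Finset

/-- Piece of the window `s` for the label `o`. -/
private def Pc {n H : ℕ} {Q : Type} (M : NMachine n H Q) (x : Fin n → ℤ) (CA CB : Finset (Fin n))
    (o : Option (Bool × Conf n H Q × Conf n H Q)) (k k' : Conf n H Q) : Prop :=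
  match o with
  | none => M.Seg x (CA ∪ CB) k k'
  | some (true, a, a') => k = a ∧ k' = a' ∧ M.Seg x CB k k'
  | some (false, a, a') => k = a ∧ k' = a' ∧ M.Seg x CA k k'

private def RR {n H : ℕ} {Q : Type} (M : NMachine n H Q) (W : ℕ) (CA CB : Finset (Fin n))
    (f : Fin W → Option (Bool × Conf n H Q × Conf n H Q)) (x : Fin n → ℤ) : Prop :=
  ∃ σ : ℕ → Conf n H Q, σ 0 = M.start ∧ M.acc (σ W) ∧
    ∀ s : Fin W, Pc M x CA CB (f s) (σ s) (σ (s + 1))

private theorem val_congr {n : ℕ} {y z : Fin n → Fin (n ^ 2)} {p : Fin n} (h : z p = y p) :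
    val n y p = val n z p := by
  unfold val
  rw [h]

private theorem rr_mix {n H : ℕ} {Q : Type} (M : NMachine n H Q) (W : ℕ) (CA CB : Finset (Fin n))
    (f : Fin W → Option (Bool × Conf n H Q × Conf n H Q)) {y y' z : Fin n → Fin (n ^ 2)}
    (h : RR M W CA CB f (val n y)) (h' : RR M W CA CB f (val n y'))
    (hzy : ∀ p, p ∉ CB → z p = y p) (hzy' : ∀ p, p ∉ CA → z p = y' p) :
    M.Accepts (val n z) := by
  obtain ⟨σ, h0, h1, h2⟩ := h
  obtain ⟨σ', _, _, h2'⟩ := h'
  refine M.accepts_of_segs (val n z) W σ h0 h1 (fun _ => ∅) fun s hs => ?_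
  have h3 := h2 ⟨s, hs⟩
  have h4 := h2' ⟨s, hs⟩
  dsimp only at h3 h4
  revert h3 h4
  generalize f ⟨s, hs⟩ = o
  intro h3 h4
  match o, h3, h4 with
  | none, h3, _ =>
    have h5 : M.Seg (val n y) (CA ∪ CB) (σ s) (σ (s + 1)) := h3
    exact (h5.congr fun p hp => val_congr
      (hzy p fun h => hp (Finset.mem_union_right _ h))).mono (Finset.empty_subset _)
  | some (true, a, a'), h3, _ =>
    have h5 : M.Seg (val n y) CB (σ s) (σ (s + 1)) := h3.2.2
    exact (h5.congr fun p hp => val_congr (hzy p hp)).mono (Finset.empty_subset _)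
  | some (false, a, a'), h3, h4 =>
    have e1 : σ s = σ' s := h3.1.trans h4.1.symm
    have e2 : σ (s + 1) = σ' (s + 1) := h3.2.1.trans h4.2.1.symm
    have h5 : M.Seg (val n y') CA (σ' s) (σ' (s + 1)) := h4.2.2
    rw [e1, e2]
    exact (h5.congr fun p hp => val_congr (hzy' p hp)).mono (Finset.empty_subset _)

open Classical in
private theorem rr_label {Q : Type} (n H b ell D W z : ℕ) (hl : 0 < ell) (hb : 0 < b)
    (hbl : b * ell ≤ n / 4) (hW : D < W * ell) (hWb : 2 * H ^ 2 * W ≤ b ^ 2)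
    (hz : 16 * H * W < b * (z + 1)) (M : NMachine n H Q) (x : Fin n → ℤ) (T : ℕ)
    (c : ℕ → Conf n H Q) (hc : M.Comp x T c) (htr : travel c T ≤ D) :
    ∃ (i j : Fin b) (f : Fin W → Option (Bool × Conf n H Q × Conf n H Q)),
      (univ.filter (fun s => (f s).isSome = true)).card ≤ z ∧
        RR M W ((blk (n / 4) ell i).image (pA n)) ((blk (n / 4) ell j).image (pB n)) f x := by
  obtain ⟨τ, hτ0, hτW, hmono, hwin⟩ := exists_tau c T W ell hl (lt_of_le_of_lt htr hW)
  obtain ⟨VA, hVA⟩ : ∃ VA : Fin W → Finset (Fin b), ∀ s i, i ∈ VA s ↔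
      ∃ t < T, travel c t / ell = s ∧ ∃ a, (c t).2 a ∈ (blk (n / 4) ell i).image (pA n) :=
    ⟨fun s => univ.filter fun i : Fin b => ∃ t < T, travel c t / ell = s ∧
      ∃ a, (c t).2 a ∈ (blk (n / 4) ell i).image (pA n),
      fun s i => by rw [Finset.mem_filter]; simp only [mem_univ, true_and]⟩
  obtain ⟨VB, hVB⟩ : ∃ VB : Fin W → Finset (Fin b), ∀ s i, i ∈ VB s ↔
      ∃ t < T, travel c t / ell = s ∧ ∃ a, (c t).2 a ∈ (blk (n / 4) ell i).image (pB n) :=
    ⟨fun s => univ.filter fun i : Fin b => ∃ t < T, travel c t / ell = s ∧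
      ∃ a, (c t).2 a ∈ (blk (n / 4) ell i).image (pB n),
      fun s i => by rw [Finset.mem_filter]; simp only [mem_univ, true_and]⟩
  have hcard : ∀ s, (VA s).card + (VB s).card ≤ 2 * H := by
    intro s
    have h1 := window_card b ell T hl hbl c s
    have e1 : VA s = univ.filter (fun i : Fin b => ∃ t < T, travel c t / ell = s ∧
        ∃ a, (c t).2 a ∈ (blk (n / 4) ell i).image (pA n)) := by
      ext i
      rw [hVA, Finset.mem_filter]
      simp only [mem_univ, true_and]
    have e2 : VB s = univ.filter (fun i : Fin b => ∃ t < T, travel c t / ell = s ∧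
        ∃ a, (c t).2 a ∈ (blk (n / 4) ell i).image (pB n)) := by
      ext i
      rw [hVB, Finset.mem_filter]
      simp only [mem_univ, true_and]
    rw [e1, e2]
    convert h1
  obtain ⟨i, j, hij, hi, hj⟩ := good_pair b W H hb VA VB hcard hWb
  obtain ⟨f, hf⟩ : ∃ f : Fin W → Option (Bool × Conf n H Q × Conf n H Q), ∀ s, f s =
      if i ∈ VA s then some (true, c (τ s), c (τ (s + 1)))
      else if j ∈ VB s then some (false, c (τ s), c (τ (s + 1))) else none := ⟨_, fun _ => rfl⟩
  refine ⟨i, j, f, ?_, fun s => c (τ s), ?_, ?_, ?_⟩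
  · have h1 : (univ.filter (fun s => (f s).isSome = true)).card ≤
        (univ.filter (fun s => i ∈ VA s)).card + (univ.filter (fun s => j ∈ VB s)).card := by
      refine le_trans (Finset.card_le_card ?_) (Finset.card_union_le _ _)
      intro s hs
      rw [Finset.mem_filter, hf] at hs
      rw [Finset.mem_union, Finset.mem_filter, Finset.mem_filter]
      by_cases c1 : i ∈ VA s
      · exact Or.inl ⟨mem_univ _, c1⟩
      · by_cases c2 : j ∈ VB s
        · exact Or.inr ⟨mem_univ _, c2⟩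
        · rw [if_neg c1, if_neg c2] at hs
          simp at hs
    by_contra hcon
    have h2 : z + 1 ≤ (univ.filter (fun s => i ∈ VA s)).card +
        (univ.filter (fun s => j ∈ VB s)).card := by omega
    have h3 := Nat.mul_le_mul_left b h2
    rw [Nat.mul_add b (univ.filter (fun s => i ∈ VA s)).card] at h3
    have h4 : 16 * H * W = 8 * H * W + 8 * H * W := by ring
    omega
  · show c (τ 0) = M.start
    rw [hτ0]
    exact hc.1
  · show M.acc (c (τ W))
    rw [hτW]
    exact hc.2.2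
  · intro s
    have hseg : ∀ B : Finset (Fin n), (∀ t, τ s ≤ t → t < τ (s + 1) → ∀ h, (c t).2 h ∉ B) →
        M.Seg x B (c (τ s)) (c (τ (s + 1))) := fun B hB =>
      NMachine.Seg.of_path M x B _ _ (hmono (Nat.le_succ _)) c fun t ht ht' =>
        ⟨hc.2.1 t (hwin s t ht ht').1, hB t ht ht'⟩
    have hA : i ∉ VA s → ∀ t, τ s ≤ t → t < τ (s + 1) →
        ∀ h, (c t).2 h ∉ (blk (n / 4) ell i).image (pA n) := by
      intro hi t ht ht' h hh
      exact hi ((hVA s i).2 ⟨t, (hwin s t ht ht').1, (hwin s t ht ht').2, h, hh⟩)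
    have hB : j ∉ VB s → ∀ t, τ s ≤ t → t < τ (s + 1) →
        ∀ h, (c t).2 h ∉ (blk (n / 4) ell j).image (pB n) := by
      intro hi t ht ht' h hh
      exact hi ((hVB s j).2 ⟨t, (hwin s t ht ht').1, (hwin s t ht ht').2, h, hh⟩)
    rw [hf]
    by_cases c1 : i ∈ VA s
    · rw [if_pos c1]
      exact ⟨rfl, rfl, hseg _ (hB fun c2 => hij s ⟨c1, c2⟩)⟩
    · by_cases c2 : j ∈ VB s
      · rw [if_neg c1, if_pos c2]
        exact ⟨rfl, rfl, hseg _ (hA c1)⟩
      · rw [if_neg c1, if_neg c2]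
        refine hseg _ fun t ht ht' h hh => ?_
        rcases Finset.mem_union.1 hh with h1 | h1
        · exact hA c1 t ht ht' h h1
        · exact hB c2 t ht ht' h h1

open Classical in
theorem head_core {Q : Type} [Fintype Q] (n H b ell D W z : ℕ) (hn : 200 ≤ n) (hl : 0 < ell) (hb : 0 < b)
    (hbl : b * ell ≤ n / 4) (hW : D < W * ell) (hWb : 2 * H ^ 2 * W ≤ b ^ 2) (hz : 16 * H * W < b * (z + 1))
    (M : NMachine n H Q)
    (hbig : 3 * (n ^ 2) ^ n ≤ 8 * (univ.filter (fun y : Fin n → Fin (n ^ 2) =>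
      ∃ T c, M.Comp (val n y) T c ∧ travel c T ≤ D)).card)
    (hsound : ∀ y : Fin n → Fin (n ^ 2), M.Accepts (val n y) → ¬ Sol (val n y)) :
    ((ell : ℝ) / tt n) ^ ell ≤
      4 * ((b : ℝ) ^ 2 * (1 + (W : ℝ) * (2 * (Fintype.card (Conf n H Q) : ℝ) ^ 2)) ^ z) := by
  have key := cover (ι := (Fin b × Fin b) × {f : Fin W → Option (Bool × Conf n H Q × Conf n H Q) //
      (univ.filter (fun s => (f s).isSome = true)).card ≤ z}) n ell hn hl
    (fun x => blk (n / 4) ell x.1.1) (fun x => blk (n / 4) ell x.1.2)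
    (fun x => card_blk (n / 4) ell x.1.1 b hl hbl x.1.1.2)
    (fun x => card_blk (n / 4) ell x.1.2 b hl hbl x.1.2.2)
    (fun x y => RR M W ((blk (n / 4) ell x.1.1).image (pA n))
      ((blk (n / 4) ell x.1.2).image (pB n)) x.2.1 (val n y))
    (by
      refine hbig.trans (Nat.mul_le_mul_left _ (Finset.card_le_card fun y hy => ?_))
      rw [Finset.mem_filter] at hy ⊢
      refine ⟨mem_univ _, ?_⟩
      obtain ⟨_, T, c, hc, htr⟩ := hy
      obtain ⟨i, j, f, hf, hR⟩ := rr_label n H b ell D W z hl hb hbl hW hWb hz M (val n y) T c hc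
        htr
      exact ⟨((i, j), ⟨f, hf⟩), hR⟩)
    (fun x y y' w hR hR' _ h1 h2 => hsound w (rr_mix M W _ _ _ hR hR' h1 h2))
  refine key.trans ?_
  have h1 : Fintype.card {f : Fin W → Option (Bool × Conf n H Q × Conf n H Q) //
      (univ.filter (fun s => (f s).isSome = true)).card ≤ z} ≤
        (1 + W * (2 * Fintype.card (Conf n H Q) ^ 2)) ^ z := by
    rw [Fintype.card_subtype]
    have h2 := sparse_card (α := Bool × Conf n H Q × Conf n H Q) W z
    rw [Fintype.card_prod, Fintype.card_prod, Fintype.card_bool] at h2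
    have h3 : Fintype.card (Conf n H Q) * Fintype.card (Conf n H Q) =
        Fintype.card (Conf n H Q) ^ 2 := by ring
    rw [h3] at h2
    convert h2
  rw [Fintype.card_prod, Fintype.card_prod, Fintype.card_fin]
  have h4 : ((b * b * Fintype.card {f : Fin W → Option (Bool × Conf n H Q × Conf n H Q) //
      (univ.filter (fun s => (f s).isSome = true)).card ≤ z} : ℕ) : ℝ) ≤
        ((b * b * (1 + W * (2 * Fintype.card (Conf n H Q) ^ 2)) ^ z : ℕ) : ℝ) := by
    exact_mod_cast Nat.mul_le_mul_left _ h1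
  have h5 : ((b * b * (1 + W * (2 * Fintype.card (Conf n H Q) ^ 2)) ^ z : ℕ) : ℝ) =
      (b : ℝ) ^ 2 * (1 + (W : ℝ) * (2 * (Fintype.card (Conf n H Q) : ℝ) ^ 2)) ^ z := by
    push_cast
    ring
  rw [h5] at h4
  linarith

end Pool.Agent.TS42
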