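import Pool.Agent.TS42.RamCore

/-!
# TS42/NumRam: number of steps, final inequality

Write `lg = Real.logb 2`, `N = S + H lg n` (real; `|Conf n H Q| = |Q| n^H ≤ 2^N`, `N ≥ 1`),
`X = lg (n lg n / N)`.  Assume `n (X - 100) > 220 H T`.  So `X > 100`; as `N ≥ 1`, `X ≤ lg n + lg lg n`, hence
`lg n > 93` (if `lg n ≤ 93` then `lg n + lg lg n ≤ 93 + 6.6 < 100`).
`q = n / 4 ≥ n / 5`.  `κ = H T / q + 1` (natural division), `H T ≤ κ q`, `κ - 1 ≤ H T / q ≤ 5 H T / n`, so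
`44 (κ - 1) < X - 100`, i.e. `44 κ < X - 56`.
`h = q / (2 κ H)`; `h > 0` because `H ≤ N / lg n = n 2^(-X)` and `2 κ H ≤ (X/22) n 2^(-X) ≤ n / 5`
(if `H = 0` the hypothesis `1 ≤ H` is violated).  `2 κ (H h) ≤ q`, `H h ≥ q / (4 κ)`;
`r = T / h + 1`, `T ≤ r h`, `r ≤ H T / (H h) + 1 ≤ 4 κ^2 + 1 ≤ 5 κ^2`.
`m = (q - 1) / 2^(4κ+3) + 1`: `2^(4κ+3) (m - 1) < q` and `m ≥ q / 2^(4κ+3)`.
`ram_core` gives, taking `lg` (`t = tt n > 0`):
  `m (lg m - lg t) ≤ 2 + r + (r + 1) N + 2 lg (q choose m)`,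
  `(q choose m) ≤ q^m / m! ≤ (e q / m)^m` (`Nat.choose_le_pow_div`, `m^m/m! ≤ e^m`), and
  `lg (e q / m) ≤ 1.4427 + 4 κ + 3`.
With `lg m ≥ lg q - 4κ - 3`: `m (lg q - lg t - 12 κ - 12) ≤ 2 + 5κ^2 + (5κ^2+1) N ≤ 13 κ^2 N`.
`lg q ≥ lg n - lg 5 ≥ lg n - 2.33`, `lg t = (lg 24 + lg n + lg lg n)/2 ≤ 2.3 + lg n / 2 + lg lg n / 2`, so
  `m (lg n / 2 - lg lg n / 2 - 12 κ - 17) ≤ 13 κ^2 N`.
`12 κ < (3/11) (X - 56) ≤ (3/11) (lg n + lg lg n - 56)`, so the bracket is at least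
`(5/22) lg n - (17/22) lg lg n - 17 + 15.27 ≥ lg n / 8` (as `lg n ≥ 93`: `0.1022 * lg n ≥ 9.5`,
`(17/22) lg lg n ≤ 5.1` at `lg n = 93`, and the difference increases).  Hence
`m lg n ≤ 104 κ^2 N` and with `m ≥ n / (5 * 2^(4κ+3))`: `n lg n / N ≤ 4160 κ^2 2^(4κ)`,
`X ≤ 12.03 + 2 lg κ + 4 κ ≤ 12.03 + 6 κ`, but `X > 44 κ + 56`: contradiction.
-/

namespace Pool.Agent.TS42

open Finset

private theorem nr_c1 : (0.6931471803 : ℝ) < Real.log 2 := Real.log_two_gt_d9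

private theorem nr_lg_le {L : ℝ} (hL : 0 < L) : Real.logb 2 L ≤ 4.56 + 0.0226 * L := by
  have h2 : 0 < Real.log 2 := Real.log_pos (by norm_num)
  have h1 : Real.log (L / 64) ≤ L / 64 - 1 := Real.log_le_sub_one_of_pos (by positivity)
  have h3 : Real.log (L / 64) = Real.log L - 6 * Real.log 2 := by
    rw [Real.log_div hL.ne' (by norm_num), show (64 : ℝ) = 2 ^ 6 by norm_num, Real.log_pow]
    norm_num
  rw [Real.logb, div_le_iff₀ h2]
  have h4 := nr_c1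
  have h5 : 0.0226 * L * 0.6931471803 ≤ 0.0226 * L * Real.log 2 :=
    mul_le_mul_of_nonneg_left h4.le (by positivity)
  have h6 := Real.log_two_lt_d9
  nlinarith

private theorem nr_lge : Real.logb 2 (Real.exp 1) ≤ 1.4427 := by
  have h2 : 0 < Real.log 2 := Real.log_pos (by norm_num)
  rw [Real.logb, Real.log_exp, div_le_iff₀ h2]
  have h4 := nr_c1
  nlinarith

private theorem nr_lg5 : Real.logb 2 5 ≤ 2.33 := by
  rw [Real.logb_le_iff_le_rpow (by norm_num) (by norm_num)]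
  have h1 : (2 : ℝ) ^ (2.33 : ℝ) = 2 ^ (2 : ℝ) * 2 ^ (0.33 : ℝ) := by
    rw [← Real.rpow_add (by norm_num)]
    norm_num
  have h2 : (1.25 : ℝ) ≤ 2 ^ (0.33 : ℝ) := by
    have h3 : (1.25 : ℝ) = (1.25 ^ (100 : ℕ)) ^ ((1 : ℝ) / 100) := by
      rw [← Real.rpow_natCast, ← Real.rpow_mul (by norm_num)]
      norm_num
    have h4 : (2 : ℝ) ^ (0.33 : ℝ) = (2 ^ (33 : ℕ)) ^ ((1 : ℝ) / 100) := by
      rw [← Real.rpow_natCast 2 33, ← Real.rpow_mul (by norm_num)]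
      norm_num
    rw [h3, h4]
    apply Real.rpow_le_rpow (by positivity) _ (by norm_num)
    norm_num
  rw [h1]
  have h5 : (2 : ℝ) ^ (2 : ℝ) = 4 := by norm_num
  rw [h5]
  linarith

private theorem nr_lg24 : Real.logb 2 24 ≤ 4.6 := by
  rw [Real.logb_le_iff_le_rpow (by norm_num) (by norm_num)]
  have h1 : (2 : ℝ) ^ (4.6 : ℝ) = 2 ^ (4 : ℝ) * 2 ^ (0.6 : ℝ) := by
    rw [← Real.rpow_add (by norm_num)]
    norm_num
  have h2 : (1.5 : ℝ) ≤ 2 ^ (0.6 : ℝ) := by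
    have h3 : (1.5 : ℝ) = (1.5 ^ (10 : ℕ)) ^ ((1 : ℝ) / 10) := by
      rw [← Real.rpow_natCast, ← Real.rpow_mul (by norm_num)]
      norm_num
    have h4 : (2 : ℝ) ^ (0.6 : ℝ) = (2 ^ (6 : ℕ)) ^ ((1 : ℝ) / 10) := by
      rw [← Real.rpow_natCast 2 6, ← Real.rpow_mul (by norm_num)]
      norm_num
    rw [h3, h4]
    apply Real.rpow_le_rpow (by positivity) _ (by norm_num)
    norm_num
  rw [h1]
  have h5 : (2 : ℝ) ^ (4 : ℝ) = 16 := by
    rw [show (4 : ℝ) = ((4 : ℕ) : ℝ) by norm_num, Real.rpow_natCast]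
    norm_num
  rw [h5]
  linarith

private theorem nr_choose (q m : ℕ) (hm : 0 < m) :
    ((q.choose m : ℕ) : ℝ) ≤ ((q : ℝ) / m) ^ m * Real.exp m := by
  have hm0 : (0 : ℝ) < m := by exact_mod_cast hm
  have h1 : ((q.choose m : ℕ) : ℝ) ≤ (q : ℝ) ^ m / (m.factorial : ℝ) := Nat.choose_le_pow_div m q
  have h2 := Real.pow_div_factorial_le_exp (m : ℝ) hm0.le m
  have h3 : (q : ℝ) ^ m / (m.factorial : ℝ) =
      ((q : ℝ) / m) ^ m * ((m : ℝ) ^ m / (m.factorial : ℝ)) := by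
    rw [div_pow]
    field_simp
  rw [h3] at h1
  exact h1.trans (mul_le_mul_of_nonneg_left h2 (by positivity))

private theorem nr_log (m q r : ℕ) (t N K : ℝ) (hm : 0 < m) (hq : 0 < q) (ht : 0 < t)
    (hK1 : 1 ≤ K) (hK : Real.logb 2 K ≤ N)
    (h : ((m : ℝ) / t) ^ m ≤ 4 * (2 ^ r * K ^ (r + 1) * ((q.choose m : ℕ) : ℝ) ^ 2)) :
    (m : ℝ) * (Real.logb 2 m - Real.logb 2 t) ≤
      2 + r + (r + 1) * N + 2 * (m * (1.4427 + Real.logb 2 q - Real.logb 2 m)) := by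
  have hm0 : (0 : ℝ) < m := by exact_mod_cast hm
  have hq0 : (0 : ℝ) < q := by exact_mod_cast hq
  have hK0 : 0 < K := by linarith
  have hC := nr_choose q m hm
  have h1 : ((m : ℝ) / t) ^ m ≤
      4 * (2 ^ r * K ^ (r + 1) * (((q : ℝ) / m) ^ m * Real.exp m) ^ 2) := by
    refine h.trans ?_
    gcongr
  have h2 := Real.logb_le_logb_of_le (b := 2) (by norm_num) (by positivity) h1
  have e0 : Real.logb 2 (Real.exp m) = m * Real.logb 2 (Real.exp 1) := by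
    rw [← Real.logb_pow, ← Real.exp_nat_mul, mul_one]
  have e4 : Real.logb 2 4 = 2 := by
    rw [show (4 : ℝ) = 2 ^ 2 by norm_num, Real.logb_pow, Real.logb_self_eq_one (by norm_num)]
    norm_num
  rw [Real.logb_pow, Real.logb_div hm0.ne' ht.ne', Real.logb_mul (by norm_num) (by positivity),
    Real.logb_mul (by positivity) (by positivity), Real.logb_mul (by positivity) (by positivity),
    Real.logb_pow, Real.logb_pow, Real.logb_pow, Real.logb_mul (by positivity) (by positivity),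
    Real.logb_pow, Real.logb_div hq0.ne' hm0.ne', e0, e4,
    Real.logb_self_eq_one (by norm_num)] at h2
  have h3 : ((r + 1 : ℕ) : ℝ) * Real.logb 2 K ≤ (r + 1) * N := by
    push_cast
    exact mul_le_mul_of_nonneg_left hK (by positivity)
  have h4 : (m : ℝ) * Real.logb 2 (Real.exp 1) ≤ m * 1.4427 :=
    mul_le_mul_of_nonneg_left nr_lge hm0.le
  have h5 : ((2 : ℕ) : ℝ) = 2 := by norm_num
  rw [h5] at h2
  nlinarith

/-- The final numerical contradiction. -/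
private theorem nr_final (nn L lL X N κ m r lq lm lt P : ℝ) (hn : 0 < nn) (hL : 93 ≤ L)
    (hN : 1 ≤ N) (hκ : 1 ≤ κ) (hlL : lL ≤ 4.56 + 0.0226 * L)
    (hX : X ≤ L + lL) (hκX : 44 * κ ≤ X - 56) (hm : 0 < m) (hP : 0 < P)
    (hmP : nn ≤ 40 * P * m) (hr0 : 0 ≤ r) (hr : r ≤ 5 * κ ^ 2)
    (hlm : lq - 4 * κ - 3 ≤ lm) (hlq : L - 2.33 ≤ lq) (hlt : lt ≤ 2.3 + L / 2 + lL / 2)
    (hlog : m * (lm - lt) ≤ 2 + r + (r + 1) * N + 2 * (m * (1.4427 + lq - lm))) :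
    nn * L ≤ 4160 * κ ^ 2 * P * N := by
  have h1 : m * (lq - lt - 12 * κ - 12) ≤ 2 + r + (r + 1) * N := by
    have h2 : m * (lq - 4 * κ - 3 - lt) ≤ m * (lm - lt) :=
      mul_le_mul_of_nonneg_left (by linarith) hm.le
    have h3 : m * (1.4427 + lq - lm) ≤ m * (1.4427 + 4 * κ + 3) :=
      mul_le_mul_of_nonneg_left (by linarith) hm.le
    nlinarith
  have h4 : L / 8 ≤ lq - lt - 12 * κ - 12 := by nlinarith
  have h5 : m * (L / 8) ≤ 2 + r + (r + 1) * N :=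
    (mul_le_mul_of_nonneg_left h4 hm.le).trans h1
  have hκ2 : 1 ≤ κ ^ 2 := by nlinarith
  have hκN : 1 ≤ κ ^ 2 * N := by nlinarith
  have h6 : 2 + r + (r + 1) * N ≤ 13 * (κ ^ 2 * N) := by
    have h7 : r * N ≤ 5 * κ ^ 2 * N := mul_le_mul_of_nonneg_right hr (by linarith)
    have h8 : κ ^ 2 ≤ κ ^ 2 * N := by nlinarith
    have h9 : N ≤ κ ^ 2 * N := by nlinarith
    nlinarith
  have h7 : m * L ≤ 104 * (κ ^ 2 * N) := by linarith
  have h8 : nn * L ≤ 40 * P * m * L := mul_le_mul_of_nonneg_right hmP (by linarith)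
  have h9 : 40 * P * (m * L) ≤ 40 * P * (104 * (κ ^ 2 * N)) :=
    mul_le_mul_of_nonneg_left h7 (by positivity)
  calc nn * L ≤ 40 * P * m * L := h8
    _ = 40 * P * (m * L) := by ring
    _ ≤ 40 * P * (104 * (κ ^ 2 * N)) := h9
    _ = 4160 * κ ^ 2 * P * N := by ring

open Classical in
theorem ram_bound {Q : Type} [Fintype Q] (n H S T : ℕ) (hn : 2 ≤ n) (hH : 1 ≤ H) (hS : 1 ≤ S)
    (hQ : Fintype.card Q ≤ 2 ^ S) (M : NMachine n H Q)
    (hbig : 3 * (n ^ 2) ^ n ≤ 8 * (univ.filter (fun y : Fin n → Fin (n ^ 2) =>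
      ∃ T' ≤ T, ∃ c, M.Comp (val n y) T' c)).card)
    (hsound : ∀ y : Fin n → Fin (n ^ 2), M.Accepts (val n y) → ¬ Sol (val n y)) :
    (n : ℝ) * (Real.logb 2 (n * Real.logb 2 n / (S + H * Real.logb 2 n)) - 100) ≤ 220 * (H * T) := by
  by_contra hcon
  rw [not_le] at hcon
  have hn0 : (0 : ℝ) < n := by
    have : 0 < n := by omega
    exact_mod_cast this
  have hn2 : (2 : ℝ) ≤ n := by exact_mod_cast hn
  obtain ⟨L, hLdef⟩ : ∃ L, L = Real.logb 2 (n : ℝ) := ⟨_, rfl⟩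
  have hL1 : 1 ≤ L := by
    rw [hLdef, ← Real.logb_self_eq_one (b := 2) (by norm_num)]
    exact Real.logb_le_logb_of_le (by norm_num) (by norm_num) hn2
  rw [← hLdef] at hcon
  have hL0 : 0 < L := by linarith
  have hHr : (1 : ℝ) ≤ H := by exact_mod_cast hH
  have hSr : (1 : ℝ) ≤ S := by exact_mod_cast hS
  obtain ⟨N, hN⟩ : ∃ N : ℝ, N = S + H * L := ⟨_, rfl⟩
  rw [← hN] at hcon
  have hHL : (H : ℝ) * L ≤ N := by rw [hN]; linarith
  have hN1 : 1 ≤ N := by nlinarith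
  have hN0 : 0 < N := by linarith
  obtain ⟨X, hX⟩ : ∃ X, X = Real.logb 2 ((n : ℝ) * L / N) := ⟨_, rfl⟩
  rw [← hX] at hcon
  have hHT0 : (0 : ℝ) ≤ 220 * (H * T) := by positivity
  have hX100 : 100 < X := by
    by_contra hc
    rw [not_lt] at hc
    have : (n : ℝ) * (X - 100) ≤ 0 := mul_nonpos_of_nonneg_of_nonpos hn0.le (by linarith)
    linarith
  have hnL0 : (0 : ℝ) < (n : ℝ) * L / N := by positivity
  have h2X : (2 : ℝ) ^ X = (n : ℝ) * L / N := by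
    rw [hX]
    exact Real.rpow_logb (by norm_num) (by norm_num) hnL0
  have hnLX : (n : ℝ) * L = N * (2 : ℝ) ^ X := by
    rw [h2X]
    field_simp
  have hXle : X ≤ L + Real.logb 2 L := by
    have h1 : (n : ℝ) * L / N ≤ n * L := div_le_self (by positivity) hN1
    have h2 := Real.logb_le_logb_of_le (b := 2) (by norm_num) hnL0 h1
    rw [Real.logb_mul hn0.ne' hL0.ne', ← hX, ← hLdef] at h2
    exact h2
  have hlL := nr_lg_le hL0
  have hL93 : 93 ≤ L := by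
    by_contra hc
    rw [not_le] at hc
    linarith
  -- `n` is large
  have hnbig : (2 : ℝ) ^ (93 : ℕ) ≤ n := by
    have h1 : (2 : ℝ) ^ L = n := by
      rw [hLdef]
      exact Real.rpow_logb (by norm_num) (by norm_num) hn0
    rw [← h1, ← Real.rpow_natCast]
    exact Real.rpow_le_rpow_of_exponent_le (by norm_num) (by norm_num; exact hL93)
  have hnbig' : (2 : ℕ) ^ 93 ≤ n := by exact_mod_cast hnbig
  have hn200 : 200 ≤ n := by
    have : (200 : ℕ) ≤ 2 ^ 93 := by norm_num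
    omega
  have hn1000 : 1000 ≤ n := by
    have : (1000 : ℕ) ≤ 2 ^ 93 := by norm_num
    omega
  obtain ⟨q, hq⟩ : ∃ q, q = n / 4 := ⟨_, rfl⟩
  have hq0 : 0 < q := by omega
  have hq5 : n ≤ 5 * q := by omega
  have hq0r : (0 : ℝ) < q := by exact_mod_cast hq0
  have hq5r : (n : ℝ) ≤ 5 * q := by exact_mod_cast hq5
  obtain ⟨κ, hκ⟩ : ∃ κ, κ = H * T / q + 1 := ⟨_, rfl⟩
  have hκ1 : 1 ≤ κ := by
    rw [hκ]
    exact Nat.le_add_left 1 _
  have hκr : (1 : ℝ) ≤ κ := by exact_mod_cast hκ1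
  have hHTκ : H * T ≤ κ * q := by
    have := Nat.lt_mul_div_succ (H * T) hq0
    rw [hκ]
    nlinarith
  have hκub : ((κ : ℝ) - 1) * q ≤ H * T := by
    have h1 : H * T / q * q ≤ H * T := Nat.div_mul_le_self _ _
    have h2 : ((H * T / q : ℕ) : ℝ) * q ≤ H * T := by exact_mod_cast h1
    rw [hκ]
    push_cast
    have h3 : ((H * T / q : ℕ) : ℝ) + 1 - 1 = ((H * T / q : ℕ) : ℝ) := by ring
    push_cast at h2 h3
    rw [h3]
    exact h2
  have hκX : 44 * (κ : ℝ) ≤ X - 56 := by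
    -- `220 (κ - 1) q ≤ 220 H T < n (X - 100) ≤ 5 q (X - 100)`
    have h1 : 220 * (((κ : ℝ) - 1) * q) ≤ 220 * (H * T) := by linarith
    have h2 : (n : ℝ) * (X - 100) ≤ 5 * q * (X - 100) :=
      mul_le_mul_of_nonneg_right hq5r (by linarith)
    have h3 : 220 * (((κ : ℝ) - 1) * q) < 5 * q * (X - 100) := by linarith
    have h4 : (44 * ((κ : ℝ) - 1) - (X - 100)) * (5 * q) < 0 := by nlinarith
    have h5 : 44 * ((κ : ℝ) - 1) - (X - 100) < 0 := by
      by_contra hc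
      rw [not_lt] at hc
      have := mul_nonneg hc (by positivity : (0 : ℝ) ≤ 5 * q)
      linarith
    linarith
  -- `2 κ H ≤ q`
  have h2Xpos : (0 : ℝ) < (2 : ℝ) ^ X := Real.rpow_pos_of_pos (by norm_num) X
  have hexpX : X / 2 ≤ (2 : ℝ) ^ X := by
    rw [Real.rpow_def_of_pos (by norm_num)]
    have h1 := Real.add_one_le_exp (Real.log 2 * X)
    have h2 := nr_c1
    nlinarith
  have hκH : (2 * κ * H : ℝ) ≤ q := by
    -- `H 2^X ≤ n`
    have h1 : (H : ℝ) * (2 : ℝ) ^ X ≤ n := by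
      have h2 : (H : ℝ) * L * (2 : ℝ) ^ X ≤ N * (2 : ℝ) ^ X :=
        mul_le_mul_of_nonneg_right hHL h2Xpos.le
      rw [← hnLX] at h2
      have h3 : (H : ℝ) * (2 : ℝ) ^ X * L ≤ n * L := by linarith
      exact le_of_mul_le_mul_right h3 hL0
    have h2 : (H : ℝ) * (X / 2) ≤ H * (2 : ℝ) ^ X :=
      mul_le_mul_of_nonneg_left hexpX (by positivity)
    have h3 : (H : ℝ) * (44 * κ) ≤ H * X := mul_le_mul_of_nonneg_left (by linarith) (by positivity)
    have h4 : (n : ℝ) ≤ 5 * q := hq5r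
    nlinarith
  have hκHn : 2 * κ * H ≤ q := by exact_mod_cast hκH
  have hκH0 : 0 < 2 * κ * H := by positivity
  obtain ⟨h, hh⟩ : ∃ h, h = q / (2 * κ * H) := ⟨_, rfl⟩
  have hh0 : 0 < h := by
    rw [hh]
    exact Nat.div_pos hκHn hκH0
  have hhle : 2 * κ * (H * h) ≤ q := by
    have := Nat.mul_div_le q (2 * κ * H)
    rw [← hh] at this
    calc 2 * κ * (H * h) = 2 * κ * H * h := by ring
      _ ≤ q := this
  have hhge : q ≤ 4 * κ * (H * h) := by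
    have h1 := Nat.lt_mul_div_succ q hκH0
    rw [← hh] at h1
    have h2 : 2 * κ * H * (h + 1) ≤ 2 * κ * H * (2 * h) := Nat.mul_le_mul_left _ (by omega)
    calc q ≤ 2 * κ * H * (h + 1) := h1.le
      _ ≤ 2 * κ * H * (2 * h) := h2
      _ = 4 * κ * (H * h) := by ring
  obtain ⟨r, hr⟩ : ∃ r, r = T / h + 1 := ⟨_, rfl⟩
  have hTr : T ≤ r * h := by
    have := Nat.lt_mul_div_succ T hh0
    rw [hr]
    nlinarith
  have hrle : r ≤ 5 * κ ^ 2 := by
    -- `T / h ≤ 4 κ ^ 2`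
    have h1 : H * T ≤ H * (4 * κ ^ 2 * h) := by
      calc H * T ≤ κ * q := hHTκ
        _ ≤ κ * (4 * κ * (H * h)) := Nat.mul_le_mul_left _ hhge
        _ = H * (4 * κ ^ 2 * h) := by ring
    have h2 : T ≤ 4 * κ ^ 2 * h := Nat.le_of_mul_le_mul_left h1 (by omega)
    have h3 : T / h ≤ 4 * κ ^ 2 := Nat.div_le_of_le_mul (by linarith)
    have h4 : 1 ≤ κ ^ 2 := Nat.one_le_pow _ _ hκ1
    omega
  obtain ⟨D, hD⟩ : ∃ D, D = 2 ^ (4 * κ + 3) := ⟨_, rfl⟩
  have hD0 : 0 < D := by rw [hD]; positivity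
  obtain ⟨m, hm⟩ : ∃ m, m = (q - 1) / D + 1 := ⟨_, rfl⟩
  have hm0 : 0 < m := by
    rw [hm]
    exact Nat.succ_pos _
  have hm1 : D * (m - 1) < q := by
    have h1 := Nat.mul_div_le (q - 1) D
    have h2 : m - 1 = (q - 1) / D := by
      rw [hm]
      exact Nat.add_sub_cancel _ _
    rw [h2]
    omega
  have hm2 : q ≤ D * m := by
    have h1 := Nat.lt_mul_div_succ (q - 1) hD0
    rw [← hm] at h1
    omega
  rw [hq] at hHTκ hhle hm1
  rw [hD] at hm1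
  have hcore := ram_core n H m hn200 hm0 M T r h κ hh0 hTr hκ1 hHTκ hhle hm1
    (by convert hbig) hsound
  rw [← hq] at hcore
  -- sizes
  have hm0r : (0 : ℝ) < m := by exact_mod_cast hm0
  have hK1 : (1 : ℝ) ≤ (Fintype.card (Conf n H Q) : ℝ) := by
    have : Nonempty (Conf n H Q) := ⟨M.start⟩
    exact_mod_cast Fintype.card_pos
  have hK : Real.logb 2 (Fintype.card (Conf n H Q) : ℝ) ≤ N := by
    have h1 : Fintype.card (Conf n H Q) = Fintype.card Q * n ^ H := by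
      rw [Fintype.card_prod, Fintype.card_fun, Fintype.card_fin, Fintype.card_fin]
    have h2 : (Fintype.card (Conf n H Q) : ℝ) ≤ 2 ^ S * (n : ℝ) ^ H := by
      rw [h1]
      push_cast
      have : (Fintype.card Q : ℝ) ≤ 2 ^ S := by exact_mod_cast hQ
      gcongr
    have h3 := Real.logb_le_logb_of_le (b := 2) (by norm_num) (by linarith) h2
    rw [Real.logb_mul (by positivity) (by positivity), Real.logb_pow, Real.logb_pow,
      Real.logb_self_eq_one (by norm_num), ← hLdef, mul_one] at h3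
    rw [hN]
    exact h3
  have ht0 : 0 < tt n := by
    unfold tt
    apply Real.sqrt_pos.2
    rw [← hLdef]
    positivity
  have hlog := nr_log m q r (tt n) N _ hm0 hq0 ht0 hK1 hK hcore
  have hlt : Real.logb 2 (tt n) ≤ 2.3 + L / 2 + Real.logb 2 L / 2 := by
    have h1 : tt n ^ 2 = 24 * n * L := by
      unfold tt
      rw [← hLdef]
      exact Real.sq_sqrt (by positivity)
    have h2 : Real.logb 2 (tt n ^ 2) = 2 * Real.logb 2 (tt n) := by
      rw [Real.logb_pow]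
      norm_num
    rw [h1, Real.logb_mul (by positivity) (by positivity),
      Real.logb_mul (by norm_num) (by positivity), ← hLdef] at h2
    have h3 := nr_lg24
    linarith
  have hlq : L - 2.33 ≤ Real.logb 2 q := by
    have h1 := Real.logb_le_logb_of_le (b := 2) (by norm_num) hn0 hq5r
    rw [Real.logb_mul (by norm_num) hq0r.ne', ← hLdef] at h1
    have h2 := nr_lg5
    linarith
  have hlm : Real.logb 2 q - 4 * (κ : ℝ) - 3 ≤ Real.logb 2 m := by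
    have h1 : (q : ℝ) ≤ 2 ^ (4 * κ + 3) * m := by
      rw [hD] at hm2
      exact_mod_cast hm2
    have h2 := Real.logb_le_logb_of_le (b := 2) (by norm_num) hq0r h1
    rw [Real.logb_mul (by positivity) hm0r.ne', Real.logb_pow,
      Real.logb_self_eq_one (by norm_num)] at h2
    push_cast at h2
    linarith
  have hmP : (n : ℝ) ≤ 40 * (2 : ℝ) ^ (4 * κ) * m := by
    have h1 : (q : ℝ) ≤ 2 ^ (4 * κ + 3) * m := by
      rw [hD] at hm2
      exact_mod_cast hm2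
    rw [pow_add] at h1
    norm_num at h1
    linarith
  have hfin := nr_final n L (Real.logb 2 L) X N κ m r (Real.logb 2 q) (Real.logb 2 m)
    (Real.logb 2 (tt n)) (2 ^ (4 * κ)) hn0 hL93 hN1 hκr hlL hXle hκX hm0r (by positivity) hmP
    (by positivity) (by exact_mod_cast hrle) hlm hlq hlt hlog
  -- `2 ^ X ≤ 4160 κ ^ 2 2 ^ (4 κ) ≤ 2 ^ (13 + 6 κ)`
  have h1 : (2 : ℝ) ^ X ≤ 4160 * (κ : ℝ) ^ 2 * 2 ^ (4 * κ) := by
    rw [hnLX] at hfin
    have h2 : (2 : ℝ) ^ X * N ≤ 4160 * (κ : ℝ) ^ 2 * 2 ^ (4 * κ) * N := by linarith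
    exact le_of_mul_le_mul_right h2 hN0
  have h2 : (κ : ℝ) ≤ 2 ^ κ := by
    have := (Nat.lt_two_pow_self (n := κ)).le
    exact_mod_cast this
  have h3 : 4160 * (κ : ℝ) ^ 2 * 2 ^ (4 * κ) ≤ 2 ^ (13 + 6 * κ) := by
    have h4 : (κ : ℝ) ^ 2 ≤ (2 ^ κ) ^ 2 := by gcongr
    calc 4160 * (κ : ℝ) ^ 2 * 2 ^ (4 * κ) ≤ 2 ^ 13 * (2 ^ κ) ^ 2 * 2 ^ (4 * κ) := by
          gcongr
          norm_num
      _ = 2 ^ (13 + 6 * κ) := by ring
  have h4 : (2 : ℝ) ^ X ≤ (2 : ℝ) ^ ((13 + 6 * κ : ℕ) : ℝ) := by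
    rw [Real.rpow_natCast]
    exact h1.trans h3
  have h5 : X ≤ ((13 + 6 * κ : ℕ) : ℝ) := (Real.rpow_le_rpow_left_iff (by norm_num)).1 h4
  push_cast at h5
  linarith

end Pool.Agent.TS42
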