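import Pool.Agent.TS42.SegCover
import Pool.Agent.TS42.HeadGeom

/-!
# TS42/OneCore: travel of one pointer

`q = n / 4`; `seg_cover` with `H = 1`, `m = q`, `G = {(univ, univ)}`, `r = W`, windows of width `2 q`
(`exists_tau`).  For `y` with an accepting computation `c` of travel `≤ D < W (2 q)` put
`χ = {s : at no time of the window s the pointer is on a cell pB j}`.  If `s ∉ χ`, at some time of the window
the pointer is on a cell `pB j`, position `≤ n/2 - q - 1`; at any other time of the window the distance is less than
`2 q` (`cdist_le_travel`), so the position is at most `n/2 + q - 2`, not a cell `pA i` (position `≥ n/2 + q`).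
-/

namespace Pool.Agent.TS42

open Finset

open Classical in
theorem one_core {Q : Type} [Fintype Q] (n D W : ℕ) (hn : 200 ≤ n) (hW : D < W * (2 * (n / 4)))
    (M : NMachine n 1 Q)
    (hbig : 3 * (n ^ 2) ^ n ≤ 8 * (univ.filter (fun y : Fin n → Fin (n ^ 2) =>
      ∃ T c, M.Comp (val n y) T c ∧ travel c T ≤ D)).card)
    (hsound : ∀ y : Fin n → Fin (n ^ 2), M.Accepts (val n y) → ¬ Sol (val n y)) :
    (((n / 4 : ℕ) : ℝ) / tt n) ^ (n / 4) ≤
      4 * (2 ^ W * (Fintype.card (Conf n 1 Q) : ℝ) ^ (W + 1)) := by
  classical
  have hq : 0 < n / 4 := by omega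
  have key := seg_cover (Q := Q) n 1 (n / 4) hn hq M W
    (fun y => ∃ T c, M.Comp (val n y) T c ∧ travel c T ≤ D)
    {((Finset.univ : Finset (Fin (n / 4))), (Finset.univ : Finset (Fin (n / 4))))}
    (by
      intro g hg
      rw [Finset.mem_singleton] at hg
      subst hg
      simp)
    (by
      rintro y ⟨T, c, hc, htr⟩
      obtain ⟨τ, h0, hT, hmono, hwin⟩ := exists_tau c T W (2 * (n / 4)) (by omega) (by omega)
      refine ⟨T, c, τ, Finset.univ.filter (fun s : Fin W => ∀ t, τ s ≤ t → t < τ (s + 1) →
        ∀ a, (c t).2 a ∉ (Finset.univ : Finset (Fin (n / 4))).image (pB n)), _,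
        Finset.mem_singleton_self _, hc, h0, hT, hmono, ?_⟩
      intro s t hst hts
      refine ⟨fun hs => (Finset.mem_filter.1 hs).2 t hst hts, fun hs a ha => ?_⟩
      simp only [Finset.mem_filter, Finset.mem_univ, true_and, not_forall, not_not] at hs
      obtain ⟨t0, h1, h2, a0, ha0⟩ := hs
      have haa : a0 = a := Subsingleton.elim _ _
      subst haa
      rw [Finset.mem_image] at ha ha0
      obtain ⟨i, -, hi⟩ := ha
      obtain ⟨j, -, hj⟩ := ha0
      have e1 := (hwin s t hst hts).2
      have e2 := (hwin s t0 h1 h2).2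
      have hi' : (((c t).2 a0 : Fin n) : ℕ) = n / 2 + n / 4 + i := by rw [← hi]; rfl
      have hj' : (((c t0).2 a0 : Fin n) : ℕ) = n / 2 - 2 * (n / 4) + j := by rw [← hj]; rfl
      have hil := i.2
      have hjl := j.2
      have hell : 0 < 2 * (n / 4) := by omega
      have b1 := Nat.div_add_mod (travel c t) (2 * (n / 4))
      have b2 := Nat.div_add_mod (travel c t0) (2 * (n / 4))
      have m1 := Nat.mod_lt (travel c t) hell
      have m2 := Nat.mod_lt (travel c t0) hell
      rw [e1] at b1
      rw [e2] at b2
      rcases le_total t t0 with h | h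
      · have hd := cdist_le_travel c a0 t t0 h
        unfold cdist at hd
        rw [hi', hj'] at hd
        omega
      · have hd := cdist_le_travel c a0 t0 t h
        unfold cdist at hd
        rw [hi', hj'] at hd
        omega)
    hbig hsound
  simpa using key

end Pool.Agent.TS42
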