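import Pool.Agent.TS42.SegCover
import Pool.Agent.TS42.Colour

/-!
# TS42/RamCore: number of steps

`q = n / 4`.  `G` = all pairs of `m`-subsets of `Fin q`, `|G| = (q choose m)^2` (`Finset.powersetCard`).
Let `P y` hold: `c` is an accepting computation of `T' ≤ T` steps; `τ s = min (s h) T'` (monotone, `τ r = T'`
because `T' ≤ T ≤ r h`).
`SA i = {s : Fin r : some t with τ s ≤ t < τ (s+1) has a pointer on pA i}`, `SB j` the same with `pB j`.
`∑ |SA i| + ∑ |SB j| ≤ H T ≤ κ q`: for `s ∈ SA i` choose `(t, a)` with `t < T'`, `a : Fin H`, `(c t).2 a = pA i`; the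
map `(i, s) ↦ (t, a)` is injective (`t` determines `s`, the cell determines `i`), and pairs for `A` and `B` never
collide, since `pA`, `pB` are injective with disjoint images.  Similarly for fixed `s` the number of `i`
with `s ∈ SA i` plus the number of `j` with `s ∈ SB j` is at most `H` times the number `≤ h` of the times of the
segment.  `colour` (with `h := H * h`) gives `χ` with `q ≤ 2^(4κ+3) |J|` for both sets; by `hmq`
(`2^(4κ+3) (m - 1) < q`) both have at least `m` elements; choose `g.1 ⊆ J_A`, `g.2 ⊆ J_B` with `m` elements.  If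
`s ∈ χ` and a pointer is on `pB j`, `j ∈ g.2`, at a time of the segment `s`, then `s ∈ SB j`, contradiction
with `Disjoint (SB j) χ`.  Same for `A` (`s ∈ SA i ⊆ χ`).
Apply `seg_cover`.
-/

namespace Pool.Agent.TS42

open Finset

private theorem rcpA_inj {n : ℕ} {i i' : Fin (n / 4)} (h : pA n i = pA n i') : i = i' := by
  have h1 := congrArg Fin.val h
  unfold pA at h1
  apply Fin.ext
  simp only at h1
  omega

private theorem rcpB_inj {n : ℕ} {i i' : Fin (n / 4)} (h : pB n i = pB n i') : i = i' := by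
  have h1 := congrArg Fin.val h
  unfold pB at h1
  apply Fin.ext
  simp only at h1
  omega

private theorem rcpA_ne_pB {n : ℕ} (i j : Fin (n / 4)) : pA n i ≠ pB n j := by
  intro h
  have h1 := congrArg Fin.val h
  unfold pA pB at h1
  simp only at h1
  have h2 := j.2
  omega

/-- cells of the top and the bottom quarter -/
private def cell (n : ℕ) : Fin (n / 4) ⊕ Fin (n / 4) → Fin n := Sum.elim (pA n) (pB n)

private theorem cell_inj {n : ℕ} : Function.Injective (cell n) := by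
  rintro (i | i) (j | j) h
  · exact congrArg Sum.inl (rcpA_inj h)
  · exact absurd h (rcpA_ne_pB i j)
  · exact absurd h.symm (rcpA_ne_pB j i)
  · exact congrArg Sum.inr (rcpB_inj h)

private theorem seg_time {h T' s t : ℕ} (hh : 0 < h) (h1 : min (s * h) T' ≤ t)
    (h2 : t < min ((s + 1) * h) T') : t < T' ∧ s * h ≤ t ∧ t < (s + 1) * h ∧ t / h = s := by
  have h3 := lt_min_iff.1 h2
  have h4 : s * h ≤ t := by
    rcases min_le_iff.1 h1 with h5 | h5
    · exact h5
    · omega
  refine ⟨h3.2, h4, h3.1, ?_⟩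
  rw [Nat.div_eq_iff hh]
  have h5 : (s + 1) * h = s * h + h := by ring
  omega

/-- Counting incidences of cells and segments. -/
private theorem inc_card {n H r h T' : ℕ} {Q : Type} (hh : 0 < h) (c : ℕ → Conf n H Q)
    (S : Finset ((Fin (n / 4) ⊕ Fin (n / 4)) × Fin r)) (Tm : Finset ℕ)
    (hS : ∀ z ∈ S, ∃ t, min ((z.2 : ℕ) * h) T' ≤ t ∧ t < min (((z.2 : ℕ) + 1) * h) T' ∧
      ∃ a, (c t).2 a = cell n z.1)
    (hT : ∀ z ∈ S, ∀ t, min ((z.2 : ℕ) * h) T' ≤ t → t < min (((z.2 : ℕ) + 1) * h) T' → t ∈ Tm) :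
    S.card ≤ Tm.card * H := by
  classical
  by_cases hne : ∃ z, z ∈ S
  · obtain ⟨z0, hz0⟩ := hne
    obtain ⟨t0, _, _, a0, _⟩ := hS z0 hz0
    have hex : ∀ z, ∃ q : ℕ × Fin H, z ∈ S → min ((z.2 : ℕ) * h) T' ≤ q.1 ∧
        q.1 < min (((z.2 : ℕ) + 1) * h) T' ∧ (c q.1).2 q.2 = cell n z.1 := by
      intro z
      by_cases hz : z ∈ S
      · obtain ⟨t, h1, h2, a, h3⟩ := hS z hz
        exact ⟨(t, a), fun _ => ⟨h1, h2, h3⟩⟩
      · exact ⟨(t0, a0), fun h => absurd h hz⟩
    choose f hf using hex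
    have h1 : S.card ≤ (Tm ×ˢ (univ : Finset (Fin H))).card := by
      refine Finset.card_le_card_of_injOn f (fun z hz => ?_) ?_
      · have h2 := hf z hz
        exact Finset.mem_coe.2 (Finset.mem_product.2 ⟨hT z hz _ h2.1 h2.2.1, Finset.mem_univ _⟩)
      · intro z hz z' hz' hzz
        have h2 := hf z hz
        have h3 := hf z' hz'
        have e1 := seg_time hh h2.1 h2.2.1
        have e2 := seg_time hh h3.1 h3.2.1
        rw [hzz] at h2 e1
        have hc : z.1 = z'.1 := cell_inj (h2.2.2.symm.trans h3.2.2)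
        have hs : z.2 = z'.2 := Fin.ext (e1.2.2.2.symm.trans e2.2.2.2)
        exact Prod.ext hc hs
    rwa [Finset.card_product, Finset.card_univ, Fintype.card_fin] at h1
  · have h0 : S = ∅ := Finset.eq_empty_of_forall_notMem fun z hz => hne ⟨z, hz⟩
    rw [h0]
    simp

open Classical in
private theorem ram_lab {Q : Type} (n H m : ℕ) (hn : 200 ≤ n)
    (T r h κ : ℕ) (hh : 0 < h) (hκ : 1 ≤ κ)
    (hT : H * T ≤ κ * (n / 4)) (hhq : 2 * κ * (H * h) ≤ n / 4)
    (hmq : 2 ^ (4 * κ + 3) * (m - 1) < n / 4) (T' : ℕ) (hT' : T' ≤ T)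
    (c : ℕ → Conf n H Q) :
    ∃ (χ : Finset (Fin r)),
      ∃ g ∈ (Finset.powersetCard m (univ : Finset (Fin (n / 4)))) ×ˢ
        (Finset.powersetCard m (univ : Finset (Fin (n / 4)))),
        ∀ s : Fin r, ∀ t, min ((s : ℕ) * h) T' ≤ t → t < min (((s : ℕ) + 1) * h) T' →
          (s ∈ χ → ∀ a, (c t).2 a ∉ g.2.image (pB n)) ∧
            (s ∉ χ → ∀ a, (c t).2 a ∉ g.1.image (pA n)) := by
  obtain ⟨SS, hSS⟩ : ∃ SS : Fin (n / 4) ⊕ Fin (n / 4) → Finset (Fin r), ∀ i s, s ∈ SS i ↔
      ∃ t, min ((s : ℕ) * h) T' ≤ t ∧ t < min (((s : ℕ) + 1) * h) T' ∧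
        ∃ a, (c t).2 a = cell n i :=
    ⟨fun i => univ.filter fun s => ∃ t, min ((s : ℕ) * h) T' ≤ t ∧
      t < min (((s : ℕ) + 1) * h) T' ∧ ∃ a, (c t).2 a = cell n i, fun i s => by
        rw [Finset.mem_filter]
        simp⟩
  have hsum : ∑ i, (SS (Sum.inl i)).card + ∑ j, (SS (Sum.inr j)).card ≤ κ * (n / 4) := by
    have h1 := inc_card (T' := T') hh c
      ((univ : Finset ((Fin (n / 4) ⊕ Fin (n / 4)) × Fin r)).filter fun z => z.2 ∈ SS z.1)
      (Finset.range T') (fun z hz => (hSS z.1 z.2).1 (Finset.mem_filter.1 hz).2)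
      (fun z _ t h2 h3 => Finset.mem_range.2 (seg_time hh h2 h3).1)
    rw [Finset.card_range] at h1
    have h2 : ((univ : Finset ((Fin (n / 4) ⊕ Fin (n / 4)) × Fin r)).filter
        fun z => z.2 ∈ SS z.1).card = ∑ i, (SS (Sum.inl i)).card + ∑ j, (SS (Sum.inr j)).card := by
      rw [← Fintype.sum_sum_type (fun i => (SS i).card), Finset.card_filter,
        ← Finset.univ_product_univ, Finset.sum_product]
      refine Finset.sum_congr rfl fun i _ => ?_
      rw [← Finset.card_filter]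
      congr 1
      ext s
      simp
    rw [h2] at h1
    calc _ ≤ T' * H := h1
      _ ≤ T * H := Nat.mul_le_mul_right _ hT'
      _ = H * T := Nat.mul_comm _ _
      _ ≤ _ := hT
  have hseg : ∀ s : Fin r, (univ.filter (fun i => s ∈ SS (Sum.inl i))).card
      + (univ.filter (fun j => s ∈ SS (Sum.inr j))).card ≤ H * h := by
    intro s
    have h1 := inc_card (T' := T') hh c
      ((univ : Finset ((Fin (n / 4) ⊕ Fin (n / 4)) × Fin r)).filter fun z => z.2 = s ∧ s ∈ SS z.1)
      (Finset.Ico ((s : ℕ) * h) (((s : ℕ) + 1) * h))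
      (fun z hz => by
        obtain ⟨_, h2, h3⟩ := Finset.mem_filter.1 hz
        rw [← h2] at h3
        exact (hSS z.1 z.2).1 h3)
      (fun z hz t h2 h3 => by
        obtain ⟨_, h4, _⟩ := Finset.mem_filter.1 hz
        have h5 := seg_time hh h2 h3
        rw [h4] at h5
        exact Finset.mem_Ico.2 ⟨h5.2.1, h5.2.2.1⟩)
    rw [Nat.card_Ico] at h1
    have h3 : ((s : ℕ) + 1) * h - (s : ℕ) * h = h := by
      rw [Nat.add_mul, Nat.one_mul, Nat.add_sub_cancel_left]
    rw [h3] at h1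
    have h2 : ((univ : Finset ((Fin (n / 4) ⊕ Fin (n / 4)) × Fin r)).filter
        fun z => z.2 = s ∧ s ∈ SS z.1).card =
        (univ.filter (fun i => s ∈ SS (Sum.inl i))).card
          + (univ.filter (fun j => s ∈ SS (Sum.inr j))).card := by
      rw [Finset.card_filter, ← Finset.univ_product_univ, Finset.sum_product,
        Fintype.sum_sum_type, Finset.card_filter, Finset.card_filter]
      congr 1
      · refine Finset.sum_congr rfl fun i _ => ?_
        rw [Finset.sum_eq_single s]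
        · simp
        · intro s' _ hs'
          rw [if_neg]
          rintro ⟨h4, _⟩
          exact hs' h4
        · intro h4
          exact absurd (Finset.mem_univ s) h4
      · refine Finset.sum_congr rfl fun i _ => ?_
        rw [Finset.sum_eq_single s]
        · simp
        · intro s' _ hs'
          rw [if_neg]
          rintro ⟨h4, _⟩
          exact hs' h4
        · intro h4
          exact absurd (Finset.mem_univ s) h4
    rw [h2] at h1
    rw [Nat.mul_comm H h]
    exact h1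
  obtain ⟨χ, hA, hB⟩ := colour (n / 4) r κ (H * h) (by omega) hκ hhq
    (fun i => SS (Sum.inl i)) (fun j => SS (Sum.inr j)) hsum hseg
  have hge : ∀ x : ℕ, n / 4 ≤ 2 ^ (4 * κ + 3) * x → m ≤ x := by
    intro x hx
    by_contra hcon
    have h1 : x ≤ m - 1 := by omega
    have h2 : 2 ^ (4 * κ + 3) * x ≤ 2 ^ (4 * κ + 3) * (m - 1) := Nat.mul_le_mul_left _ h1
    omega
  obtain ⟨gA, hgA, hgAc⟩ := Finset.exists_subset_card_eq (hge _ hA)
  obtain ⟨gB, hgB, hgBc⟩ := Finset.exists_subset_card_eq (hge _ hB)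
  refine ⟨χ, (gA, gB), Finset.mem_product.2 ⟨Finset.mem_powersetCard.2
    ⟨Finset.subset_univ _, hgAc⟩, Finset.mem_powersetCard.2 ⟨Finset.subset_univ _, hgBc⟩⟩, ?_⟩
  intro s t h1 h2
  refine ⟨fun hs a ha => ?_, fun hs a ha => ?_⟩
  · obtain ⟨j, hj, hja⟩ := Finset.mem_image.1 ha
    have h3 : Disjoint (SS (Sum.inr j)) χ := (Finset.mem_filter.1 (hgB hj)).2
    have h4 : s ∈ SS (Sum.inr j) := (hSS _ _).2 ⟨t, h1, h2, a, hja.symm⟩
    exact (Finset.disjoint_left.1 h3) h4 hs
  · obtain ⟨j, hj, hja⟩ := Finset.mem_image.1 ha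
    have h3 : SS (Sum.inl j) ⊆ χ := (Finset.mem_filter.1 (hgA hj)).2
    have h4 : s ∈ SS (Sum.inl j) := (hSS _ _).2 ⟨t, h1, h2, a, hja.symm⟩
    exact hs (h3 h4)

open Classical in
theorem ram_core {Q : Type} [Fintype Q] (n H m : ℕ) (hn : 200 ≤ n) (hm : 0 < m)
    (M : NMachine n H Q) (T r h κ : ℕ) (hh : 0 < h) (hr : T ≤ r * h) (hκ : 1 ≤ κ)
    (hT : H * T ≤ κ * (n / 4)) (hhq : 2 * κ * (H * h) ≤ n / 4) (hmq : 2 ^ (4 * κ + 3) * (m - 1) < n / 4)
    (hbig : 3 * (n ^ 2) ^ n ≤ 8 * (univ.filter (fun y : Fin n → Fin (n ^ 2) =>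
      ∃ T' ≤ T, ∃ c, M.Comp (val n y) T' c)).card)
    (hsound : ∀ y : Fin n → Fin (n ^ 2), M.Accepts (val n y) → ¬ Sol (val n y)) :
    ((m : ℝ) / tt n) ^ m ≤
      4 * (2 ^ r * (Fintype.card (Conf n H Q) : ℝ) ^ (r + 1) * (((n / 4).choose m : ℕ) : ℝ) ^ 2) := by
  have h1 := seg_cover n H m hn hm M r (fun y => ∃ T' ≤ T, ∃ c, M.Comp (val n y) T' c)
    ((Finset.powersetCard m (univ : Finset (Fin (n / 4)))) ×ˢ
        (Finset.powersetCard m (univ : Finset (Fin (n / 4)))))
    (fun g hg => by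
      obtain ⟨h2, h3⟩ := Finset.mem_product.1 hg
      exact ⟨(Finset.mem_powersetCard.1 h2).2, (Finset.mem_powersetCard.1 h3).2⟩)
    (fun y hy => by
      obtain ⟨T', hT', c, hc⟩ := hy
      obtain ⟨χ, g, hg, hχ⟩ := ram_lab n H m hn T r h κ hh hκ hT hhq hmq T' hT' c
      refine ⟨T', c, fun s => min (s * h) T', χ, g, hg, hc, ?_, ?_, ?_, hχ⟩
      · simp
      · exact min_eq_right (hT'.trans hr)
      · intro s s' hs
        exact min_le_min (Nat.mul_le_mul_right _ hs) le_rfl)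
    (by convert hbig) hsound
  have h2 : ((((Finset.powersetCard m (univ : Finset (Fin (n / 4)))) ×ˢ
        (Finset.powersetCard m (univ : Finset (Fin (n / 4))))).card : ℕ) : ℝ) =
      (((n / 4).choose m : ℕ) : ℝ) ^ 2 := by
    rw [Finset.card_product, Finset.card_powersetCard, Finset.card_univ, Fintype.card_fin]
    push_cast
    ring
  rw [h2] at h1
  exact h1

end Pool.Agent.TS42
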