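import Pool.Agent.TS42.Cover
import Pool.Agent.TS42.Seg

/-!
# TS42/SegCover: the cover bound for coloured segments

`P y` is any property of arrays which implies that there is an accepting computation `c` of `T` steps,
cut into `r` segments `[τ s, τ (s+1))`, a set `χ` of segments and a pair `g ∈ G` of `m`-sets such that in the
segments of `χ` no pointer is on a cell of `pB '' g.2` and in the others no pointer is on a cell of `pA '' g.1`.

Labels: `ι = Finset (Fin r) × (Fin (r+1) → Conf n H Q) × G` (`G` as a subtype), `|ι| = 2^r |Conf|^(r+1) |G|`.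
`R (χ, σ, g) y` : `σ 0 = start`, `acc (σ r)` and for every `s : Fin r`:
`Seg (val n y) (if s ∈ χ then pB '' g.2 else pA '' g.1) (σ s) (σ (s+1))`.
(1) `P y` implies that `y` has a label, by `hlab` and `Seg.of_path`, `σ s = c (τ s)`.
(2) `hmix`: for `s ∈ χ` the piece of `y` avoids `pB '' g.2` and `val n z = val n y` outside `pB '' g.2`; for
`s ∉ χ` the piece of `y'` avoids `pA '' g.1` and `val n z = val n y'` outside `pA '' g.1` (`Seg.congr`;
`val n z p` depends on `z p` only).  So `accepts_of_segs` (extend `σ` to `ℕ → Conf` by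
`fun s => σ ⟨min s r, _⟩`) shows that `z` is accepted, hence `¬ Sol (val n z)` by `hsound`.
(3) apply `cover` (`hbig`: `{y | P y} ⊆ {y | ∃ lam, R lam y}`).
-/

namespace Pool.Agent.TS42

open Finset

open Classical in
theorem seg_cover {Q : Type} [Fintype Q] (n H m : ℕ) (hn : 200 ≤ n) (hm : 0 < m)
    (M : NMachine n H Q) (r : ℕ) (P : (Fin n → Fin (n ^ 2)) → Prop)
    (G : Finset (Finset (Fin (n / 4)) × Finset (Fin (n / 4))))
    (hG : ∀ g ∈ G, g.1.card = m ∧ g.2.card = m)
    (hlab : ∀ y : Fin n → Fin (n ^ 2), P y →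
      ∃ (T : ℕ) (c : ℕ → Conf n H Q) (τ : ℕ → ℕ) (χ : Finset (Fin r)), ∃ g ∈ G,
        M.Comp (val n y) T c ∧ τ 0 = 0 ∧ τ r = T ∧ Monotone τ ∧
        ∀ s : Fin r, ∀ t, τ s ≤ t → t < τ (s + 1) →
          (s ∈ χ → ∀ a, (c t).2 a ∉ g.2.image (pB n)) ∧ (s ∉ χ → ∀ a, (c t).2 a ∉ g.1.image (pA n)))
    (hbig : 3 * (n ^ 2) ^ n ≤ 8 * (univ.filter (fun y : Fin n → Fin (n ^ 2) => P y)).card)
    (hsound : ∀ y : Fin n → Fin (n ^ 2), M.Accepts (val n y) → ¬ Sol (val n y)) :
    ((m : ℝ) / tt n) ^ m ≤ 4 * (2 ^ r * (Fintype.card (Conf n H Q) : ℝ) ^ (r + 1) * (G.card : ℝ)) := by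
  have hval : ∀ (y z : Fin n → Fin (n ^ 2)) (p : Fin n), y p = z p → val n y p = val n z p := by
    intro y z p h
    unfold val
    rw [h]
  obtain ⟨R, hR⟩ : ∃ R : (Finset (Fin r) × (Fin (r + 1) → Conf n H Q) × {g // g ∈ G}) →
      (Fin n → Fin (n ^ 2)) → Prop, ∀ lam y, R lam y ↔
      (lam.2.1 0 = M.start ∧ M.acc (lam.2.1 (Fin.last r)) ∧
      ∀ s : Fin r, M.Seg (val n y)
        (if s ∈ lam.1 then lam.2.2.1.2.image (pB n) else lam.2.2.1.1.image (pA n))
        (lam.2.1 s.castSucc) (lam.2.1 s.succ)) := ⟨_, fun _ _ => Iff.rfl⟩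
  have key := cover (ι := Finset (Fin r) × (Fin (r + 1) → Conf n H Q) × {g // g ∈ G}) n m hn hm
    (fun lam => lam.2.2.1.1) (fun lam => lam.2.2.1.2)
    (fun lam => (hG _ lam.2.2.2).1) (fun lam => (hG _ lam.2.2.2).2) R ?_ ?_
  · have hcard : (Fintype.card (Finset (Fin r) × (Fin (r + 1) → Conf n H Q) × {g // g ∈ G}) : ℝ) =
        2 ^ r * (Fintype.card (Conf n H Q) : ℝ) ^ (r + 1) * (G.card : ℝ) := by
      rw [Fintype.card_prod, Fintype.card_prod, Fintype.card_finset, Fintype.card_fun,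
        Fintype.card_fin, Fintype.card_fin, Fintype.card_coe]
      push_cast
      ring
    rw [hcard] at key
    exact key
  · refine hbig.trans (Nat.mul_le_mul_left 8 (Finset.card_le_card ?_))
    intro y hy
    have hy := Finset.mem_filter.mp hy
    refine Finset.mem_filter.mpr ⟨mem_univ _, ?_⟩
    obtain ⟨T, c, τ, χ, g, hg, hcomp, hτ0, hτr, hmono, hseg⟩ := hlab y hy.2
    refine ⟨⟨χ, fun s => c (τ s), ⟨g, hg⟩⟩, (hR _ _).mpr ⟨?_, ?_, ?_⟩⟩
    · show c (τ ((0 : Fin (r + 1)) : ℕ)) = M.start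
      rw [Fin.val_zero, hτ0]
      exact hcomp.1
    · show M.acc (c (τ ((Fin.last r : Fin (r + 1)) : ℕ)))
      rw [Fin.val_last, hτr]
      exact hcomp.2.2
    · intro s
      show M.Seg (val n y) (if s ∈ χ then g.2.image (pB n) else g.1.image (pA n))
        (c (τ (s : ℕ))) (c (τ ((s : ℕ) + 1)))
      refine NMachine.Seg.of_path M (val n y) _ _ _ (hmono (Nat.le_succ _)) c ?_
      intro t ht0 ht1
      have htT : t < T := by
        have h1 : τ ((s : ℕ) + 1) ≤ τ r := hmono s.2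
        rw [hτr] at h1
        exact lt_of_lt_of_le ht1 h1
      refine ⟨hcomp.2.1 t htT, ?_⟩
      intro a
      have h := hseg s t ht0 ht1
      by_cases hs : s ∈ χ
      · rw [if_pos hs]
        exact h.1 hs a
      · rw [if_neg hs]
        exact h.2 hs a
  · intro lam y y' z hy hy' _ h2 h3
    have hy := (hR _ _).mp hy
    have hy' := (hR _ _).mp hy'
    apply hsound z
    refine M.accepts_of_segs (val n z) r
      (fun s => lam.2.1 ⟨min s r, Nat.lt_succ_of_le (Nat.min_le_right s r)⟩) ?_ ?_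
      (fun s => if h : s < r then
        (if (⟨s, h⟩ : Fin r) ∈ lam.1 then lam.2.2.1.2.image (pB n) else lam.2.2.1.1.image (pA n))
        else ∅) ?_
    · have : (⟨min 0 r, Nat.lt_succ_of_le (Nat.min_le_right 0 r)⟩ : Fin (r + 1)) = 0 := by
        apply Fin.ext; simp
      show lam.2.1 ⟨min 0 r, _⟩ = M.start
      rw [this]
      exact hy.1
    · have : (⟨min r r, Nat.lt_succ_of_le (Nat.min_le_right r r)⟩ : Fin (r + 1)) = Fin.last r := by
        apply Fin.ext; simp
      show M.acc (lam.2.1 ⟨min r r, _⟩)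
      rw [this]
      exact hy.2.1
    · intro s hs
      have e1 : (⟨min s r, Nat.lt_succ_of_le (Nat.min_le_right s r)⟩ : Fin (r + 1)) =
          (⟨s, hs⟩ : Fin r).castSucc := by
        apply Fin.ext; simp; omega
      have e2 : (⟨min (s + 1) r, Nat.lt_succ_of_le (Nat.min_le_right (s + 1) r)⟩ : Fin (r + 1)) =
          (⟨s, hs⟩ : Fin r).succ := by
        apply Fin.ext; simp; omega
      show M.Seg (val n z) (if h : s < r then
        (if (⟨s, h⟩ : Fin r) ∈ lam.1 then lam.2.2.1.2.image (pB n) else lam.2.2.1.1.image (pA n))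
        else ∅) (lam.2.1 ⟨min s r, _⟩) (lam.2.1 ⟨min (s + 1) r, _⟩)
      rw [e1, e2, dif_pos hs]
      by_cases hsχ : (⟨s, hs⟩ : Fin r) ∈ lam.1
      · rw [if_pos hsχ]
        have h := hy.2.2 ⟨s, hs⟩
        rw [if_pos hsχ] at h
        exact h.congr (fun p hp => hval y z p (h2 p hp).symm)
      · rw [if_neg hsχ]
        have h := hy'.2.2 ⟨s, hs⟩
        rw [if_neg hsχ] at h
        exact h.congr (fun p hp => hval y' z p (h3 p hp).symm)

end Pool.Agent.TS42
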