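import Pool.Agent.TS42.Final

/-!
# MP_13bec0_lc: 3SUM with small memory

Time and travel bounds for machines with `S` bits of memory and `H` pointers into a read-only sorted
array of `n` integers of absolute value at most `n ^ 3`; the instruction set is arbitrary.
-/

namespace Pool.Agent.TS42.SmallResult

open Pool.Agent.TS42

/-- 3SUM with `S` bits of memory and `H` pointers: lower bounds for the number of steps and for the
distance travelled by the pointers, for zero-error randomised algorithms (expectations) and for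
nondeterministic machines which certify that there is no solution. -/
theorem result (n H S : ℕ) (Q : Type) [Fintype Q] (hn : 2 ≤ n) (hH : 1 ≤ H) (hS : 1 ≤ S)
    (hQ : Fintype.card Q ≤ 2 ^ S) :
    (∀ (A : LasVegas n H Q) (T D : ℝ), A.Solves T D →
      (n : ℝ) * (Real.logb 2 (n * Real.logb 2 n / (S + H * Real.logb 2 n)) - 100) ≤ 880 * (H * T) ∧
      (n : ℝ) ^ 3 ≤ 64000000 * (H : ℝ) ^ 4 * (S + H * Real.logb 2 n) * (D + n) ^ 2 ∧
      (H = 1 → 2 ^ 29 ≤ n →
        (n : ℝ) ^ 2 * Real.logb 2 n ≤ 1000 * (D + n) * (S + Real.logb 2 n))) ∧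
    (∀ (M : NMachine n H Q) (T D : ℕ), M.Certifies T D →
      (n : ℝ) * (Real.logb 2 (n * Real.logb 2 n / (S + H * Real.logb 2 n)) - 100) ≤ 220 * (H * T) ∧
      (n : ℝ) ^ 3 ≤ 4000000 * (H : ℝ) ^ 4 * (S + H * Real.logb 2 n) * ((D : ℝ) + n) ^ 2 ∧
      (H = 1 → 2 ^ 29 ≤ n →
        (n : ℝ) ^ 2 * Real.logb 2 n ≤ 250 * ((D : ℝ) + n) * (S + Real.logb 2 n))) :=
  ⟨fun A T D hA => main_V n H S Q hn hH hS hQ A T D hA,
    fun M T D hM => main_N n H S Q hn hH hS hQ M T D hM⟩

end Pool.Agent.TS42.SmallResult
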