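import Mathlib

/-!
# TS42/Tail: exponential moments

`tail_real`: `g l : Fin w → ℝ` with `|g l| ≤ 1` and `∑ z, g l z = w * a l`; then the number of
`c : Fin L → Fin w` with `∑ l (g l (c l) - a l) ≥ s` is at most `exp (-s^2 / (4 L)) w ^ L`, for
`0 ≤ s ≤ L`.
Proof: `G l z = g l z - a l` satisfies `|G l z| ≤ 2`, `∑ z, G l z = 0` and
`∑ z, (G l z)^2 = ∑ z, (g l z)^2 - w (a l)^2 ≤ w`.  Put `lam = s / (2 L) ≤ 1/2`.  Then
`|lam * G| ≤ 1` and `exp x ≤ 1 + x + x^2` for `|x| ≤ 1` (Mathlib: `Real.abs_exp_sub_one_sub_id_le`),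
so `∑ z, exp (lam G l z) ≤ w + 0 + lam^2 w ≤ w exp (lam^2)`.  Hence
`∑ c, exp (lam ∑ l G l (c l)) = ∏ l ∑ z exp (lam G l z) ≤ w^L exp (lam^2 L)`
(`Finset.prod_univ_sum` / `Fintype.sum_pow`-like lemma; `Real.exp_sum`), and every `c` of the set
contributes at least `exp (lam s)` on the left.  So the number is at most
`w^L exp (lam^2 L - lam s) = w^L exp (-s^2/(4L))`.
If `L = 0` then `s = 0` and the claim is `card ≤ 1` (division by zero is 0 in Lean, `exp 0 = 1`).

`tail`: complex version.  If `2 s ≤ ‖z‖` then `s ≤ |re z|` or `s ≤ |im z|`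
(`Complex.norm_le_abs_re_add_abs_im`).  Apply `tail_real` to `re f`, `-re f`, `im f`, `-im f`.
-/

namespace Pool.Agent.TS42

open Finset

private lemma exp_quad {x : ℝ} (hx : |x| ≤ 1) : Real.exp x ≤ 1 + x + x ^ 2 := by
  have h := Real.abs_exp_sub_one_sub_id_le hx
  have := le_abs_self (Real.exp x - 1 - x)
  linarith

private lemma one_coord (w : ℕ) (hw : 0 < w) (g : Fin w → ℝ) (a : ℝ)
    (hg : ∀ z, |g z| ≤ 1) (ha : ∑ z, g z = w * a) (lam : ℝ) (h0 : 0 ≤ lam) (h1 : lam ≤ 1 / 2) :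
    ∑ z, Real.exp (lam * (g z - a)) ≤ (w : ℝ) * Real.exp (lam ^ 2) := by
  have hwR : (0 : ℝ) < w := by exact_mod_cast hw
  have haa : |a| ≤ 1 := by
    have h2 : |(w : ℝ) * a| ≤ w := by
      rw [← ha]
      calc |∑ z, g z| ≤ ∑ z, |g z| := abs_sum_le_sum_abs _ _
        _ ≤ ∑ _z : Fin w, (1 : ℝ) := sum_le_sum (fun z _ => hg z)
        _ = w := by simp
    rw [abs_mul, abs_of_pos hwR] at h2
    have h3 : (w : ℝ) * |a| ≤ w * 1 := by linarith
    exact le_of_mul_le_mul_left h3 hwR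
  have hb : ∀ z, |lam * (g z - a)| ≤ 1 := by
    intro z
    rw [abs_mul, abs_of_nonneg h0]
    have h4 : |g z - a| ≤ 2 := by
      have h5 := abs_sub (g z) a
      have h6 := hg z
      linarith
    have h7 := abs_nonneg (g z - a)
    nlinarith
  have hsq : ∑ z, (g z - a) ^ 2 ≤ w := by
    have e1 : ∑ z, (g z - a) ^ 2 = ∑ z, (g z) ^ 2 - w * a ^ 2 := by
      have e2 : ∀ z, (g z - a) ^ 2 = (g z) ^ 2 - 2 * a * g z + a ^ 2 := fun z => by ring
      simp only [e2, sum_add_distrib, sum_sub_distrib, ← mul_sum, ha, sum_const, card_univ,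
        Fintype.card_fin, nsmul_eq_mul]
      ring
    have e3 : ∑ z, (g z) ^ 2 ≤ w := by
      calc ∑ z, (g z) ^ 2 ≤ ∑ _z : Fin w, (1 : ℝ) := by
            refine sum_le_sum (fun z _ => ?_)
            have := hg z
            rw [← sq_abs]
            have h8 := abs_nonneg (g z)
            nlinarith
        _ = w := by simp
    have e4 : 0 ≤ (w : ℝ) * a ^ 2 := by positivity
    linarith
  have hz : ∑ z, (g z - a) = 0 := by
    rw [sum_sub_distrib, ha]
    simp
  calc ∑ z, Real.exp (lam * (g z - a))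
      ≤ ∑ z, (1 + lam * (g z - a) + (lam * (g z - a)) ^ 2) :=
        sum_le_sum (fun z _ => exp_quad (hb z))
    _ = w + lam * ∑ z, (g z - a) + lam ^ 2 * ∑ z, (g z - a) ^ 2 := by
        simp only [sum_add_distrib, mul_pow, ← mul_sum]
        simp
    _ ≤ w + lam ^ 2 * w := by
        rw [hz]
        have := mul_le_mul_of_nonneg_left hsq (sq_nonneg lam)
        linarith
    _ = w * (lam ^ 2 + 1) := by ring
    _ ≤ w * Real.exp (lam ^ 2) :=
        mul_le_mul_of_nonneg_left (Real.add_one_le_exp _) hwR.le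

open Classical in
theorem tail_real (L w : ℕ) (hw : 0 < w) (g : Fin L → Fin w → ℝ) (a : Fin L → ℝ)
    (hg : ∀ l z, |g l z| ≤ 1) (ha : ∀ l, ∑ z, g l z = w * a l) (s : ℝ) (hs0 : 0 ≤ s) (hs : s ≤ L) :
    ((univ.filter (fun c : Fin L → Fin w => s ≤ ∑ l, (g l (c l) - a l))).card : ℝ) ≤
      Real.exp (-s ^ 2 / (4 * L)) * (w : ℝ) ^ L := by
  have hwR : (0 : ℝ) < w := by exact_mod_cast hw
  set lam : ℝ := s / (2 * L) with hlam
  have hL0 : (0 : ℝ) ≤ L := Nat.cast_nonneg L
  have h0 : 0 ≤ lam := by positivity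
  have h1 : lam ≤ 1 / 2 := by
    rcases hL0.eq_or_lt with hL | hL
    · rw [hlam, ← hL]; norm_num
    · rw [hlam, div_le_iff₀ (by positivity)]
      linarith
  have hprod : ∑ c : Fin L → Fin w, Real.exp (lam * ∑ l, (g l (c l) - a l)) ≤
      ((w : ℝ) * Real.exp (lam ^ 2)) ^ L := by
    have e1 : ∀ c : Fin L → Fin w, Real.exp (lam * ∑ l, (g l (c l) - a l)) =
        ∏ l, Real.exp (lam * (g l (c l) - a l)) := by
      intro c
      rw [mul_sum, Real.exp_sum]
    have e2 : ∑ c : Fin L → Fin w, ∏ l, Real.exp (lam * (g l (c l) - a l)) =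
        ∏ l, ∑ z, Real.exp (lam * (g l z - a l)) := by
      rw [Finset.prod_univ_sum, Fintype.piFinset_univ]
    calc ∑ c : Fin L → Fin w, Real.exp (lam * ∑ l, (g l (c l) - a l))
        = ∏ l, ∑ z, Real.exp (lam * (g l z - a l)) := by
          rw [← e2]
          exact sum_congr rfl (fun c _ => e1 c)
      _ ≤ ∏ _l : Fin L, ((w : ℝ) * Real.exp (lam ^ 2)) :=
          prod_le_prod (fun l _ => sum_nonneg (fun z _ => (Real.exp_pos _).le))
            (fun l _ => one_coord w hw (g l) (a l) (hg l) (ha l) lam h0 h1)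
      _ = ((w : ℝ) * Real.exp (lam ^ 2)) ^ L := by simp
  have hlow : ((univ.filter (fun c : Fin L → Fin w => s ≤ ∑ l, (g l (c l) - a l))).card : ℝ) *
      Real.exp (lam * s) ≤ ∑ c : Fin L → Fin w, Real.exp (lam * ∑ l, (g l (c l) - a l)) := by
    calc ((univ.filter (fun c : Fin L → Fin w => s ≤ ∑ l, (g l (c l) - a l))).card : ℝ) *
        Real.exp (lam * s)
        = ∑ _c ∈ univ.filter (fun c : Fin L → Fin w => s ≤ ∑ l, (g l (c l) - a l)),
            Real.exp (lam * s) := by rw [sum_const, nsmul_eq_mul]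
      _ ≤ ∑ c ∈ univ.filter (fun c : Fin L → Fin w => s ≤ ∑ l, (g l (c l) - a l)),
            Real.exp (lam * ∑ l, (g l (c l) - a l)) := by
          refine sum_le_sum (fun c hc => ?_)
          exact Real.exp_le_exp.mpr
            (mul_le_mul_of_nonneg_left (mem_filter.mp hc).2 h0)
      _ ≤ ∑ c : Fin L → Fin w, Real.exp (lam * ∑ l, (g l (c l) - a l)) :=
          sum_le_sum_of_subset_of_nonneg (filter_subset _ _)
            (fun c _ _ => (Real.exp_pos _).le)
  have hfin : ((w : ℝ) * Real.exp (lam ^ 2)) ^ L =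
      (Real.exp (-s ^ 2 / (4 * L)) * (w : ℝ) ^ L) * Real.exp (lam * s) := by
    rw [mul_pow, ← Real.exp_nat_mul]
    have e3 : Real.exp (↑L * lam ^ 2) = Real.exp (-s ^ 2 / (4 * L)) * Real.exp (lam * s) := by
      rw [← Real.exp_add]
      congr 1
      rcases hL0.eq_or_lt with hL | hL
      · have : s = 0 := le_antisymm (by rw [hL]; exact hs) hs0
        rw [hlam, this]
        simp
      · rw [hlam]
        field_simp
        ring
    rw [e3]
    ring
  have hpos := Real.exp_pos (lam * s)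
  exact le_of_mul_le_mul_right (by linarith) hpos

open Classical in
theorem tail (L w : ℕ) (hw : 0 < w) (f : Fin L → Fin w → ℂ)
    (hf : ∀ l z, ‖f l z‖ ≤ 1) (s : ℝ) (hs0 : 0 ≤ s) (hs : s ≤ L) :
    ((univ.filter (fun c : Fin L → Fin w =>
        2 * s ≤ ‖∑ l, (f l (c l) - (∑ z, f l z) / (w : ℂ))‖)).card : ℝ) ≤
      4 * Real.exp (-s ^ 2 / (4 * L)) * (w : ℝ) ^ L := by
  have hwR : (0 : ℝ) < w := by exact_mod_cast hw
  have hre : ∀ l z, |(f l z).re| ≤ 1 := fun l z => (Complex.abs_re_le_norm _).trans (hf l z)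
  have him : ∀ l z, |(f l z).im| ≤ 1 := fun l z => (Complex.abs_im_le_norm _).trans (hf l z)
  have t1 := tail_real L w hw (fun l z => (f l z).re) (fun l => (∑ z, (f l z).re) / w) hre
    (fun l => by field_simp) s hs0 hs
  have t2 := tail_real L w hw (fun l z => -(f l z).re) (fun l => -((∑ z, (f l z).re) / w))
    (fun l z => by rw [abs_neg]; exact hre l z)
    (fun l => by rw [sum_neg_distrib]; field_simp) s hs0 hs
  have t3 := tail_real L w hw (fun l z => (f l z).im) (fun l => (∑ z, (f l z).im) / w) him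
    (fun l => by field_simp) s hs0 hs
  have t4 := tail_real L w hw (fun l z => -(f l z).im) (fun l => -((∑ z, (f l z).im) / w))
    (fun l z => by rw [abs_neg]; exact him l z)
    (fun l => by rw [sum_neg_distrib]; field_simp) s hs0 hs
  have hdr : ∀ l, ((∑ z, f l z) / (w : ℂ)).re = (∑ z, (f l z).re) / w := by
    intro l
    rw [Complex.div_natCast_re, Complex.re_sum]
  have hdi : ∀ l, ((∑ z, f l z) / (w : ℂ)).im = (∑ z, (f l z).im) / w := by
    intro l
    rw [Complex.div_natCast_im, Complex.im_sum]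
  have hsub : univ.filter (fun c : Fin L → Fin w =>
        2 * s ≤ ‖∑ l, (f l (c l) - (∑ z, f l z) / (w : ℂ))‖) ⊆
      ((univ.filter (fun c : Fin L → Fin w =>
          s ≤ ∑ l, ((f l (c l)).re - (∑ z, (f l z).re) / w))) ∪
        (univ.filter (fun c : Fin L → Fin w =>
          s ≤ ∑ l, (-(f l (c l)).re - -((∑ z, (f l z).re) / w))))) ∪
      ((univ.filter (fun c : Fin L → Fin w =>
          s ≤ ∑ l, ((f l (c l)).im - (∑ z, (f l z).im) / w))) ∪
        (univ.filter (fun c : Fin L → Fin w =>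
          s ≤ ∑ l, (-(f l (c l)).im - -((∑ z, (f l z).im) / w))))) := by
    intro c hc
    have hc2 := (mem_filter.mp hc).2
    have hn := Complex.norm_le_abs_re_add_abs_im
      (∑ l, (f l (c l) - (∑ z, f l z) / (w : ℂ)))
    rw [Complex.re_sum, Complex.im_sum] at hn
    simp only [Complex.sub_re, Complex.sub_im, hdr, hdi] at hn
    have er : ∑ l, (-(f l (c l)).re - -((∑ z, (f l z).re) / w)) =
        -(∑ l, ((f l (c l)).re - (∑ z, (f l z).re) / (w : ℝ))) := by
      rw [← sum_neg_distrib]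
      exact sum_congr rfl (fun l _ => by ring)
    have ei : ∑ l, (-(f l (c l)).im - -((∑ z, (f l z).im) / w)) =
        -(∑ l, ((f l (c l)).im - (∑ z, (f l z).im) / (w : ℝ))) := by
      rw [← sum_neg_distrib]
      exact sum_congr rfl (fun l _ => by ring)
    simp only [mem_union, mem_filter, mem_univ, true_and, er, ei]
    rcases abs_cases (∑ l, ((f l (c l)).re - (∑ z, (f l z).re) / (w : ℝ))) with h | h <;>
    rcases abs_cases (∑ l, ((f l (c l)).im - (∑ z, (f l z).im) / (w : ℝ))) with h' | h' <;>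
    rw [h.1, h'.1] at hn
    · by_cases hh : s ≤ ∑ l, ((f l (c l)).re - (∑ z, (f l z).re) / (w : ℝ))
      · exact Or.inl (Or.inl hh)
      · exact Or.inr (Or.inl (by linarith))
    · by_cases hh : s ≤ ∑ l, ((f l (c l)).re - (∑ z, (f l z).re) / (w : ℝ))
      · exact Or.inl (Or.inl hh)
      · exact Or.inr (Or.inr (by linarith))
    · by_cases hh : s ≤ -∑ l, ((f l (c l)).re - (∑ z, (f l z).re) / (w : ℝ))
      · exact Or.inl (Or.inr hh)
      · exact Or.inr (Or.inl (by linarith))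
    · by_cases hh : s ≤ -∑ l, ((f l (c l)).re - (∑ z, (f l z).re) / (w : ℝ))
      · exact Or.inl (Or.inr hh)
      · exact Or.inr (Or.inr (by linarith))
  have hcard := (card_le_card hsub).trans (card_union_le _ _)
  have hc1 := card_union_le (univ.filter (fun c : Fin L → Fin w =>
          s ≤ ∑ l, ((f l (c l)).re - (∑ z, (f l z).re) / w)))
        (univ.filter (fun c : Fin L → Fin w =>
          s ≤ ∑ l, (-(f l (c l)).re - -((∑ z, (f l z).re) / w))))
  have hc2 := card_union_le (univ.filter (fun c : Fin L → Fin w =>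
          s ≤ ∑ l, ((f l (c l)).im - (∑ z, (f l z).im) / w)))
        (univ.filter (fun c : Fin L → Fin w =>
          s ≤ ∑ l, (-(f l (c l)).im - -((∑ z, (f l z).im) / w))))
  have hall := hcard.trans (Nat.add_le_add hc1 hc2)
  have hallR : ((univ.filter (fun c : Fin L → Fin w =>
        2 * s ≤ ‖∑ l, (f l (c l) - (∑ z, f l z) / (w : ℂ))‖)).card : ℝ) ≤ _ := Nat.cast_le.mpr hall
  push_cast at hallR
  linarith

end Pool.Agent.TS42
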